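import Mathlib
import Pool.Agent.Lib.MP_455133_co.LR.Herm
import Pool.Agent.Lib.MP_455133_co.LR.Step

/-!
The interpolation inequality for a general outer function.
-/

namespace Pool.Agent.Lib.MP_455133_co.LS

open Pool.Agent.Lib.MP_455133_co.LR

/-- The interpolation inequality: `G` as a function of `f`, `g = -G'`, `g1 = -g'`. -/
theorem herm2 {f f1 f2 f3 G g g1 : ℝ → ℝ} {c y : ℝ} (hcy : c ≤ y - 1)
    (h0 : ∀ x, HasDerivAt f (f1 x) x) (h1 : ∀ x, HasDerivAt f1 (f2 x) x)
    (h2 : ∀ x, HasDerivAt f2 (f3 x) x)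
    (p1 : ∀ x, c ≤ x → 0 < f1 x) (p2 : ∀ x, c ≤ x → 0 ≤ f2 x)
    (p3 : ∀ x, c ≤ x → f1 x * f3 x ≤ f2 x ^ 2)
    (hG : ∀ x, c ≤ x → HasDerivAt G (-(g x)) x) (hg : ∀ x, c ≤ x → HasDerivAt g (-(g1 x)) x)
    (q1 : ∀ x, c ≤ x → 0 ≤ g x) (q2 : ∀ x, c ≤ x → 0 ≤ g1 x)
    (q3 : ∀ x x', c ≤ x → x ≤ x' → g1 x' ≤ g1 x) {K A c' : ℝ} (hK : K = f y - f (y - 1))
    (hA : A = G (y - 1) - G y) (hc' : A * (1 + c') = K * g (y - 1) / f1 (y - 1))
    {z : ℝ} (hz : c ≤ z) (hzy : z ≤ y) :
    A * ((f y - f z) / K) * (1 - c' + c' * ((f y - f z) / K)) ≤ G z - G y := by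
  have hmono : ∀ x x', c ≤ x → x ≤ x' → f1 x ≤ f1 x' := fun x x' hx hxx' =>
    mvt_le (F' := f2) hxx' (fun t _ _ => h1 t) (fun t h3 _ => p2 t (hx.trans h3.le))
  have hgm : ∀ x x', c ≤ x → x ≤ x' → g x' ≤ g x := fun x x' hx hxx' =>
    mvt_ge (F' := fun t => -(g1 t)) hxx' (fun t h3 _ => hg t (hx.trans h3))
      (fun t h3 _ => by have := q2 t (hx.trans h3.le); linarith)
  have hKpos : 0 < K := by
    obtain ⟨x, hx, hx2⟩ := exists_hasDerivAt_eq_slope f f1 (show y - 1 < y by linarith)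
      (fun t _ => (h0 t).continuousAt.continuousWithinAt) (fun t _ => h0 t)
    have h3 := p1 x (hcy.trans hx.1.le)
    rw [hx2, show y - (y - 1) = 1 by ring, div_one, ← hK] at h3
    exact h3
  have hf1 := p1 (y - 1) hcy
  set D : ℝ → ℝ := fun x => G x - G y -
    A * (((f y - f x) / K) * (1 - c' + c' * ((f y - f x) / K))) with hD
  set V : ℝ → ℝ := fun x => g x / f1 x -
    A / K * (1 - c' + 2 * c' * ((f y - f x) / K)) with hV
  set q : ℝ → ℝ := fun x => g1 x / f1 x ^ 2 + f2 x / f1 x * (g x / f1 x ^ 2) with hq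
  set U : ℝ → ℝ := fun x => 2 * (A / K) * c' / K - q x with hU
  have key : 0 ≤ D z := by
    refine herm_core (D := D) (V := V) (U := U) (f1 := f1) (p := y - 1) hcy (by linarith)
      ?_ ?_ p1 ?_ ?_ ?_ ?_ hz hzy
    · intro x hx
      have hfx := (p1 x hx).ne'
      have hKne := hKpos.ne'
      have e2 : HasDerivAt (fun x => f y - f x) (-(f1 x)) x := (h0 x).const_sub (f y)
      have e2' : HasDerivAt (fun x => (f y - f x) / K) (-(f1 x) / K) x := e2.div_const K
      have e3 : HasDerivAt (fun x => 1 - c' + c' * ((f y - f x) / K)) (c' * (-(f1 x) / K)) x :=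
        (e2'.const_mul c').const_add (1 - c')
      have e4 := (e2'.mul e3).const_mul A
      have e5 := ((hG x hx).sub_const (G y)).sub e4
      refine e5.congr_deriv ?_
      simp only [hV]
      field_simp
      ring
    · intro x hx
      have hfx := (p1 x hx).ne'
      have hKne := hKpos.ne'
      have e1 := (hg x hx).div (h1 x) hfx
      have e2 : HasDerivAt (fun x => f y - f x) (-(f1 x)) x := (h0 x).const_sub (f y)
      have e3 : HasDerivAt (fun x => 1 - c' + 2 * c' * ((f y - f x) / K))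
          (2 * c' * (-(f1 x) / K)) x :=
        ((e2.div_const K).const_mul (2 * c')).const_add (1 - c')
      have e5 := e1.sub (e3.const_mul (A / K))
      refine e5.congr_deriv ?_
      simp only [hU, hq]
      field_simp
      ring
    · intro x x' hx hxx'
      have hx' : c ≤ x' := hx.trans hxx'
      have hfx := p1 x hx
      have hfx' := p1 x' hx'
      have hm := hmono x x' hx hxx'
      have hr : f2 x' / f1 x' ≤ f2 x / f1 x := by
        refine mvt_ge (F := fun t => f2 t / f1 t)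
          (F' := fun t => (f3 t * f1 t - f2 t * f2 t) / f1 t ^ 2) hxx' ?_ ?_
        · intro t h3 _
          exact (h2 t).div (h1 t) (p1 t (hx.trans h3)).ne'
        · intro t h3 _
          have h4 := p3 t (hx.trans h3.le)
          apply div_nonpos_of_nonpos_of_nonneg
          · nlinarith
          · positivity
      have hr0 : 0 ≤ f2 x' / f1 x' := div_nonneg (p2 x' hx') hfx'.le
      have hsq : f1 x ^ 2 ≤ f1 x' ^ 2 := pow_le_pow_left₀ hfx.le hm 2
      have hq1 : g1 x' / f1 x' ^ 2 ≤ g1 x / f1 x ^ 2 :=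
        div_le_div₀ (q2 x hx) (q3 x x' hx hxx') (by positivity) hsq
      have hq2 : g x' / f1 x' ^ 2 ≤ g x / f1 x ^ 2 :=
        div_le_div₀ (q1 x hx) (hgm x x' hx hxx') (by positivity) hsq
      have hq3 : f2 x' / f1 x' * (g x' / f1 x' ^ 2) ≤ f2 x / f1 x * (g x / f1 x ^ 2) :=
        mul_le_mul hr hq2 (div_nonneg (q1 x' hx') (by positivity)) (hr0.trans hr)
      simp only [hU, hq]
      linarith
    · simp only [hD]
      rw [← hK, div_self hKpos.ne', hA]
      ring
    · simp only [hD]; simp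
    · simp only [hV]
      rw [← hK, div_self hKpos.ne']
      have h3 : g (y - 1) / f1 (y - 1) = A * (1 + c') / K := by
        rw [hc']; field_simp
      rw [h3]
      field_simp
      ring
  simp only [hD] at key
  have e : A * ((f y - f z) / K) * (1 - c' + c' * ((f y - f z) / K)) =
      A * (((f y - f z) / K) * (1 - c' + c' * ((f y - f z) / K))) := by ring
  rw [e]
  linarith

end Pool.Agent.Lib.MP_455133_co.LS
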