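import Mathlib
import Pool.Agent.Lib.MP_455133_co.LR.Chord

/-!
Numerical inequalities for the potential in two levels.
-/

namespace Pool.Agent.Lib.MP_455133_co.LS

open Finset Pool.Agent.Lib.MP_455133_co.LR

theorem coef_phi {i y κ : ℝ} (hi : 1 ≤ i) (hiy : i < y) (hκ : i ≤ κ) :
    y * ((y - (i + 1) / 2) / (y - i) * ((y - κ) / y ^ 3) -
      ((1 / y - κ / 2 / y ^ 2) - (1 / (y + 1) - κ / 2 / (y + 1) ^ 2))) ≤
      (i + 1) / (2 * y ^ 2) := by
  have hy : 0 < y := by linarith
  have hyi : 0 < y - i := by linarith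
  have e : y * ((y - (i + 1) / 2) / (y - i) * ((y - κ) / y ^ 3) -
      ((1 / y - κ / 2 / y ^ 2) - (1 / (y + 1) - κ / 2 / (y + 1) ^ 2))) =
      1 / (y * (y + 1)) + (i - 1) / 2 * ((y - κ) / (y - i)) / y ^ 2 -
        κ * (3 * y + 2) / (2 * y ^ 2 * (y + 1) ^ 2) := by
    field_simp
    ring
  rw [e]
  have h1 : (y - κ) / (y - i) ≤ 1 := by rw [div_le_one hyi]; linarith
  have h2 : (i - 1) / 2 * ((y - κ) / (y - i)) / y ^ 2 ≤ (i - 1) / 2 / y ^ 2 := by
    apply div_le_div_of_nonneg_right _ (by positivity)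
    have : 0 ≤ (i - 1) / 2 := by linarith
    calc (i - 1) / 2 * ((y - κ) / (y - i)) ≤ (i - 1) / 2 * 1 :=
          mul_le_mul_of_nonneg_left h1 this
      _ = (i - 1) / 2 := by ring
  have h3 : 1 / (y * (y + 1)) ≤ 1 / y ^ 2 := by
    apply one_div_le_one_div_of_le (by positivity)
    nlinarith
  have h4 : 0 ≤ κ * (3 * y + 2) / (2 * y ^ 2 * (y + 1) ^ 2) := by
    have : 0 ≤ κ := by linarith
    positivity
  have h5 : (i + 1) / (2 * y ^ 2) = (i - 1) / 2 / y ^ 2 + 1 / y ^ 2 := by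
    field_simp
    ring
  linarith

theorem coef_psi {B Y κ : ℝ} (hB : 1 ≤ B) (hBY : B < Y) (hκ : 0 ≤ κ) :
    Y * ((Y - (B + 1) / 2) / (Y - B) * (κ / Y ^ 3) -
      (κ / 2 / Y ^ 2 - κ / 2 / (Y + 1) ^ 2)) ≤ κ * (B + 2) / (2 * Y ^ 2 * (Y - B)) := by
  have hY : 0 < Y := by linarith
  have hYB : 0 < Y - B := by linarith
  have e : Y * ((Y - (B + 1) / 2) / (Y - B) * (κ / Y ^ 3) -
      (κ / 2 / Y ^ 2 - κ / 2 / (Y + 1) ^ 2)) =
      κ / (2 * Y ^ 2) * ((3 * Y + 2) / (Y + 1) ^ 2 + (B - 1) / (Y - B)) := by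
    field_simp
    ring
  have e2 : κ * (B + 2) / (2 * Y ^ 2 * (Y - B)) = κ / (2 * Y ^ 2) * ((B + 2) / (Y - B)) := by
    field_simp
  rw [e, e2]
  apply mul_le_mul_of_nonneg_left _ (by positivity)
  have h1 : (3 * Y + 2) / (Y + 1) ^ 2 ≤ 3 / (Y - B) := by
    rw [div_le_div_iff₀ (by positivity) hYB]
    nlinarith
  have h2 : (B + 2) / (Y - B) = 3 / (Y - B) + (B - 1) / (Y - B) := by
    rw [← add_div]
    congr 1
    ring
  linarith

/-- lower bound for the gain -/
theorem gain {j a Y y δ : ℝ} (hj : 12 ≤ j) (ha : 6 * j ^ 2 ≤ a) (hY : a ≤ Y)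
    (hδ : 0 ≤ δ) (hδ2 : j * δ ≤ Y) (hy : Y + δ ≤ y) :
    21 / 8 * (j ^ 2 * δ) / Y ^ 3 ≤ a / 4 * (1 / (Y * (Y + 1)) - 1 / (y * (y + 1))) := by
  have hY0 : 864 ≤ Y := by nlinarith
  set y0 := Y + δ with hy0
  have hyp : 0 < y0 := by linarith
  have h12 : 12 * δ ≤ Y := by nlinarith
  have h1 : 1 / (y * (y + 1)) ≤ 1 / (y0 * (y0 + 1)) := by
    apply one_div_le_one_div_of_le (by positivity)
    nlinarith
  have h2 : 7 / 4 * δ / Y ^ 3 ≤ 1 / (Y * (Y + 1)) - 1 / (y0 * (y0 + 1)) := by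
    have e : 1 / (Y * (Y + 1)) - 1 / (y0 * (y0 + 1)) =
        δ * (y0 + Y + 1) / (Y * (Y + 1) * (y0 * (y0 + 1))) := by
      rw [hy0]
      field_simp
      ring
    rw [e, div_le_div_iff₀ (by positivity) (by positivity)]
    have h3 : 7 / 4 * ((Y + 1) * (y0 * (y0 + 1))) ≤ (y0 + Y + 1) * Y ^ 2 := by
      have h4 : (Y + 1) ≤ 865 / 864 * Y := by linarith
      have h5 : y0 + 1 ≤ y0 + Y / 864 := by linarith
      have h6 : y0 ≤ 13 / 12 * Y := by rw [hy0]; linarith
      have h7 : y0 * (y0 + 1) ≤ 13 / 12 * Y * (y0 + Y / 864) :=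
        mul_le_mul h6 h5 (by positivity) (by positivity)
      have h8 : (Y + 1) * (y0 * (y0 + 1)) ≤ 865 / 864 * Y * (13 / 12 * Y * (y0 + Y / 864)) :=
        mul_le_mul h4 h7 (by positivity) (by positivity)
      have h9 : 7 / 4 * (865 / 864) * (13 / 12) * (y0 + Y / 864) ≤ y0 + Y := by linarith
      have h10 := mul_le_mul_of_nonneg_right h9 (show 0 ≤ Y ^ 2 by positivity)
      nlinarith
    have h11 := mul_le_mul_of_nonneg_left h3 (show 0 ≤ δ * Y by positivity)
    nlinarith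
  have h3 : 0 ≤ 7 / 4 * δ / Y ^ 3 := by positivity
  have h4 : 3 / 2 * j ^ 2 ≤ a / 4 := by linarith
  calc 21 / 8 * (j ^ 2 * δ) / Y ^ 3 = 3 / 2 * j ^ 2 * (7 / 4 * δ / Y ^ 3) := by ring
    _ ≤ a / 4 * (7 / 4 * δ / Y ^ 3) := mul_le_mul_of_nonneg_right h4 h3
    _ ≤ a / 4 * (1 / (Y * (Y + 1)) - 1 / (y0 * (y0 + 1))) := by
        apply mul_le_mul_of_nonneg_left h2
        nlinarith
    _ ≤ _ := by
        apply mul_le_mul_of_nonneg_left _ (by nlinarith)
        linarith

theorem exp_lin {t : ℝ} (h0 : 0 ≤ t) (h1 : t ≤ 5 / 13) : Real.exp t - 1 ≤ 26 / 21 * t := by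
  have h := Real.exp_bound' h0 (by linarith) (n := 3) (by norm_num)
  have e : (∑ m ∈ range 3, t ^ m / (m.factorial : ℝ)) = 1 + t + t ^ 2 / 2 := by
    simp [sum_range_succ, Nat.factorial]
  rw [e] at h
  have e2 : t ^ 3 * ((3 : ℕ) + 1) / ((Nat.factorial 3 : ℕ) * (3 : ℕ) : ℝ) = 2 / 9 * t ^ 3 := by
    simp [Nat.factorial]
    ring
  rw [e2] at h
  have h2 : t ^ 2 ≤ 5 / 13 * t := by nlinarith
  have h3 : t ^ 3 ≤ 25 / 169 * t := by nlinarith [mul_nonneg h0 h0]
  linarith

/-- The main numerical inequality. -/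
theorem star_num {p : ℕ} (hp : 10 ≤ p) {a y Y X1 X2 k E : ℝ}
    (ha : 6 * ((p : ℝ) + 2) ^ 2 ≤ a) (hY : a ≤ Y) (hYy : Y ≤ y)
    (hk : k = P0 (2 * p + 2) Y / P0 (2 * p + 2) y) (hE : E = P0 (p + 2) y / P0 (p + 2) Y)
    (hX1 : X1 ≤ 1) (h1 : (p : ℝ) / (p + 1) * X1 ≤ 1 - k)
    (hX2 : X2 ≤ 1) (h2 : (p : ℝ) / (2 * p + 1) * X2 ≤ E - 1) :
    ((p : ℝ) + 3) / (2 * y ^ 2) * max 0 X1 +
      a / 2 * (2 * (p : ℝ) + 4) / (2 * Y ^ 2 * (Y - (2 * p + 2))) * max 0 X2 ≤
      a / 4 * (1 / (Y * (Y + 1)) - 1 / (y * (y + 1))) := by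
  have hp' : (10 : ℝ) ≤ p := by exact_mod_cast hp
  obtain ⟨j, hj⟩ : ∃ j : ℝ, j = p + 2 := ⟨_, rfl⟩
  have hj12 : 12 ≤ j := by linarith
  have hpj : (p : ℝ) = j - 2 := by linarith
  rw [← hj] at ha
  have hY6 : 6 * j ^ 2 ≤ Y := ha.trans hY
  have hY0 : 864 ≤ Y := by nlinarith
  have h72 : 72 * j ≤ Y := by nlinarith
  have hy0 : 0 < y := by linarith
  -- the size of the sum
  have hS : ((p : ℝ) + 3) / (2 * y ^ 2) * max 0 X1 +
      a / 2 * (2 * (p : ℝ) + 4) / (2 * Y ^ 2 * (Y - (2 * p + 2))) * max 0 X2 ≤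
      1 / (2 * Y ^ 2) * ((j + 1) * max 0 X1 + 36 / 35 * j * max 0 X2) := by
    have hm1 : 0 ≤ max 0 X1 := le_max_left _ _
    have hm2 : 0 ≤ max 0 X2 := le_max_left _ _
    have e1 : ((p : ℝ) + 3) / (2 * y ^ 2) ≤ 1 / (2 * Y ^ 2) * (j + 1) := by
      rw [show (p : ℝ) + 3 = j + 1 by linarith, one_div_mul_eq_div]
      apply div_le_div_of_nonneg_left (by linarith) (by positivity)
      have : Y ^ 2 ≤ y ^ 2 := pow_le_pow_left₀ (by linarith) hYy 2
      linarith
    have e2 : a / 2 * (2 * (p : ℝ) + 4) / (2 * Y ^ 2 * (Y - (2 * p + 2))) ≤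
        1 / (2 * Y ^ 2) * (36 / 35 * j) := by
      rw [show (2 * (p : ℝ) + 4) = 2 * j by linarith, show 2 * (p : ℝ) + 2 = 2 * j - 2 by linarith]
      have h3 : 0 < Y - (2 * j - 2) := by linarith
      have h4 : a / 2 * (2 * j) / (2 * Y ^ 2 * (Y - (2 * j - 2))) =
          1 / (2 * Y ^ 2) * (a * j / (Y - (2 * j - 2))) := by
        field_simp
      rw [h4]
      apply mul_le_mul_of_nonneg_left _ (by positivity)
      rw [div_le_iff₀ h3]
      have h5 : a * j ≤ Y * j := mul_le_mul_of_nonneg_right hY (by linarith)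
      have h6 : Y ≤ 36 / 35 * (Y - (2 * j - 2)) := by linarith
      have h7 := mul_le_mul_of_nonneg_right h6 (show 0 ≤ j by linarith)
      linarith
    have h3 := mul_le_mul_of_nonneg_right e1 hm1
    have h4 := mul_le_mul_of_nonneg_right e2 hm2
    linarith
  refine hS.trans ?_
  have hpp : (p : ℝ) / (p + 1) ≥ 10 / 11 := by
    rw [ge_iff_le, div_le_div_iff₀ (by norm_num) (by positivity)]
    linarith
  have hpp2 : (p : ℝ) / (2 * p + 1) ≥ 10 / 21 := by
    rw [ge_iff_le, div_le_div_iff₀ (by norm_num) (by positivity)]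
    linarith
  rcases le_or_gt (j * (y - Y)) Y with hA | hB
  · -- small difference
    set δ := y - Y with hδ
    have hδ0 : 0 ≤ δ := by linarith
    have hg := gain (j := j) (a := a) (Y := Y) (y := y) (δ := δ) hj12 ha hY hδ0 hA (by linarith)
    -- the first term
    have hX1' : max 0 X1 ≤ 11 / 10 * (2 * (j - 1) * δ / (Y - (2 * j - 3))) := by
      have h3 : 0 < Y - (2 * j - 3) := by linarith
      apply max_le
      · have : 0 ≤ j - 1 := by linarith
        positivity
      · rcases le_or_gt X1 0 with h0 | h0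
        · refine h0.trans ?_
          have : 0 ≤ j - 1 := by linarith
          positivity
        · have hker := ch_ratio (i := 2 * p + 2) (x := Y) (m := y)
            (by push_cast; linarith) hYy (2 * p + 2) le_rfl
          have hPy : 0 < P0 (2 * p + 2) y := P0_pos (by push_cast; linarith)
          have e3 : Y + 1 - ((2 * p + 2 : ℕ) : ℝ) = Y - (2 * j - 3) := by push_cast; linarith
          have e4 : y + 1 - ((2 * p + 2 : ℕ) : ℝ) = y - (2 * j - 3) := by push_cast; linarith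
          rw [e3, e4] at hker
          have h4 : 0 < y - (2 * j - 3) := by linarith
          have hkk : ((Y - (2 * j - 3)) / (y - (2 * j - 3))) ^ (2 * p + 2) ≤ k := by
            rw [hk, div_pow, div_le_div_iff₀ (pow_pos h4 _) hPy]
            linarith
          have hber := one_add_mul_le_pow
            (a := (Y - (2 * j - 3)) / (y - (2 * j - 3)) - 1)
            (by
              have : 0 ≤ (Y - (2 * j - 3)) / (y - (2 * j - 3)) := by positivity
              linarith) (2 * p + 2)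
          rw [show 1 + ((Y - (2 * j - 3)) / (y - (2 * j - 3)) - 1) =
            (Y - (2 * j - 3)) / (y - (2 * j - 3)) by ring] at hber
          have e5 : (Y - (2 * j - 3)) / (y - (2 * j - 3)) - 1 = -(δ / (y - (2 * j - 3))) := by
            rw [hδ]; field_simp; ring
          rw [e5] at hber
          have e6 : ((2 * p + 2 : ℕ) : ℝ) = 2 * (j - 1) := by push_cast; linarith
          rw [e6] at hber
          have h5 : 1 - k ≤ 2 * (j - 1) * (δ / (y - (2 * j - 3))) := by linarith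
          have h6 : δ / (y - (2 * j - 3)) ≤ δ / (Y - (2 * j - 3)) :=
            div_le_div_of_nonneg_left hδ0 h3 (by linarith)
          have h7 : 10 / 11 * X1 ≤ (p : ℝ) / (p + 1) * X1 :=
            mul_le_mul_of_nonneg_right hpp h0.le
          have h8 : 2 * (j - 1) * (δ / (y - (2 * j - 3))) ≤
              2 * (j - 1) * (δ / (Y - (2 * j - 3))) :=
            mul_le_mul_of_nonneg_left h6 (by linarith)
          have e7 : 2 * (j - 1) * δ / (Y - (2 * j - 3)) = 2 * (j - 1) * (δ / (Y - (2 * j - 3))) := by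
            ring
          rw [e7]
          linarith
    -- the second term
    have hX2' : max 0 X2 ≤ 13 / 5 * (j * δ / (Y - (j - 1))) := by
      have h3 : 0 < Y - (j - 1) := by linarith
      set t := j * δ / (Y - (j - 1)) with ht
      have ht0 : 0 ≤ t := by
        have : 0 ≤ j := by linarith
        positivity
      apply max_le (by positivity)
      rcases le_or_gt X2 0 with h0 | h0
      · exact h0.trans (by positivity)
      rcases le_or_gt t (5 / 13) with ht1 | ht1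
      · have hker := ch_ratio (i := p + 2) (x := Y) (m := y)
          (by push_cast; linarith) hYy (p + 2) le_rfl
        have hPY : 0 < P0 (p + 2) Y := P0_pos (by push_cast; linarith)
        have e3 : Y + 1 - ((p + 2 : ℕ) : ℝ) = Y - (j - 1) := by push_cast; linarith
        have e4 : y + 1 - ((p + 2 : ℕ) : ℝ) = y - (j - 1) := by push_cast; linarith
        rw [e3, e4] at hker
        have hEE : E ≤ ((y - (j - 1)) / (Y - (j - 1))) ^ (p + 2) := by
          rw [hE, div_pow, div_le_div_iff₀ hPY (pow_pos h3 _)]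
          linarith
        have h5 : ((y - (j - 1)) / (Y - (j - 1))) ^ (p + 2) ≤ Real.exp t := by
          have h6 : (y - (j - 1)) / (Y - (j - 1)) ≤ Real.exp (δ / (Y - (j - 1))) := by
            have h7 := Real.add_one_le_exp (δ / (Y - (j - 1)))
            have h8 : (y - (j - 1)) / (Y - (j - 1)) = δ / (Y - (j - 1)) + 1 := by
              rw [hδ]; field_simp; ring
            linarith
          have h9 := pow_le_pow_left₀ (show 0 ≤ (y - (j - 1)) / (Y - (j - 1)) by
            have : 0 < y - (j - 1) := by linarith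
            positivity) h6 (p + 2)
          refine h9.trans (le_of_eq ?_)
          rw [← Real.exp_nat_mul]
          congr 1
          rw [ht]
          push_cast
          rw [← hj]
          ring
        have h6 := exp_lin ht0 ht1
        have h7 : 10 / 21 * X2 ≤ (p : ℝ) / (2 * p + 1) * X2 :=
          mul_le_mul_of_nonneg_right hpp2 h0.le
        linarith
      · linarith
    have h3 : (j + 1) * max 0 X1 ≤ 11 / 10 * (36 / 35) * 2 * (j ^ 2 * δ / Y) := by
      have h4 : 0 < Y - (2 * j - 3) := by linarith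
      have h5 : 1 / (Y - (2 * j - 3)) ≤ 36 / 35 / Y := by
        rw [div_le_div_iff₀ h4 (by linarith)]
        linarith
      calc (j + 1) * max 0 X1 ≤ (j + 1) * (11 / 10 * (2 * (j - 1) * δ / (Y - (2 * j - 3)))) :=
            mul_le_mul_of_nonneg_left hX1' (by linarith)
        _ = 11 / 10 * 2 * ((j ^ 2 - 1) * δ) * (1 / (Y - (2 * j - 3))) := by ring
        _ ≤ 11 / 10 * 2 * (j ^ 2 * δ) * (1 / (Y - (2 * j - 3))) := by
            apply mul_le_mul_of_nonneg_right _ (by positivity)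
            apply mul_le_mul_of_nonneg_left _ (by norm_num)
            apply mul_le_mul_of_nonneg_right _ hδ0
            linarith
        _ ≤ 11 / 10 * 2 * (j ^ 2 * δ) * (36 / 35 / Y) :=
            mul_le_mul_of_nonneg_left h5 (by positivity)
        _ = _ := by ring
    have h4 : 36 / 35 * j * max 0 X2 ≤ 36 / 35 * (13 / 5) * (72 / 71) * (j ^ 2 * δ / Y) := by
      have h4 : 0 < Y - (j - 1) := by linarith
      have h5 : 1 / (Y - (j - 1)) ≤ 72 / 71 / Y := by
        rw [div_le_div_iff₀ h4 (by linarith)]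
        linarith
      calc 36 / 35 * j * max 0 X2 ≤ 36 / 35 * j * (13 / 5 * (j * δ / (Y - (j - 1)))) :=
            mul_le_mul_of_nonneg_left hX2' (by linarith)
        _ = 36 / 35 * (13 / 5) * (j ^ 2 * δ) * (1 / (Y - (j - 1))) := by ring
        _ ≤ 36 / 35 * (13 / 5) * (j ^ 2 * δ) * (72 / 71 / Y) :=
            mul_le_mul_of_nonneg_left h5 (by positivity)
        _ = _ := by ring
    have h5 : 0 ≤ j ^ 2 * δ / Y := by positivity
    have h6 : (j + 1) * max 0 X1 + 36 / 35 * j * max 0 X2 ≤ 21 / 4 * (j ^ 2 * δ / Y) := by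
      have : (11 / 10 * (36 / 35) * 2 + 36 / 35 * (13 / 5) * (72 / 71) : ℝ) ≤ 21 / 4 := by
        norm_num
      nlinarith
    have h7 := mul_le_mul_of_nonneg_left h6 (show 0 ≤ 1 / (2 * Y ^ 2) by positivity)
    have e : 1 / (2 * Y ^ 2) * (21 / 4 * (j ^ 2 * δ / Y)) = 21 / 8 * (j ^ 2 * δ) / Y ^ 3 := by
      field_simp
      ring
    linarith
  · -- large difference
    have hj0 : 0 < j := by linarith
    have hg := gain (j := j) (a := a) (Y := Y) (y := y) (δ := Y / j) hj12 ha hY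
      (by positivity) (le_of_eq (by field_simp)) (by
        have : Y / j < y - Y := by rw [div_lt_iff₀ hj0]; linarith
        linarith)
    have e : 21 / 8 * (j ^ 2 * (Y / j)) / Y ^ 3 = 1 / (2 * Y ^ 2) * (21 / 4 * j) := by
      field_simp
      ring
    rw [e] at hg
    refine le_trans ?_ hg
    apply mul_le_mul_of_nonneg_left _ (by positivity)
    have h3 : max 0 X1 ≤ 1 := max_le (by norm_num) hX1
    have h4 : max 0 X2 ≤ 1 := max_le (by norm_num) hX2
    have h5 : (j + 1) * max 0 X1 ≤ (j + 1) * 1 := mul_le_mul_of_nonneg_left h3 (by linarith)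
    have h6 : 36 / 35 * j * max 0 X2 ≤ 36 / 35 * j * 1 :=
      mul_le_mul_of_nonneg_left h4 (by linarith)
    linarith

end Pool.Agent.Lib.MP_455133_co.LS
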