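import Mathlib
import Pool.Agent.Lib.MP_455133_co.LR.Fall

/-!
Comparison of the falling products of `p+1` and of `2p+1` factors, near a point `w`.
-/

namespace Pool.Agent.Lib.MP_455133_co.LS

open Finset Pool.Agent.Lib.MP_455133_co.LR

theorem P0_prod (i : ℕ) (x : ℝ) : P0 i x = ∏ l ∈ range i, (x - l) := by
  induction i with
  | zero => simp [P0]
  | succ i ih => rw [prod_range_succ, ← ih]; rfl

/-- `v log (1 + h / v)` is nondecreasing in `v` -/
theorem log_mono_v {v v' h : ℝ} (hv' : 0 < v') (hvv : v' ≤ v) (hh : -v' < h) :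
    v' * Real.log ((v' + h) / v') ≤ v * Real.log ((v + h) / v) := by
  have hv : 0 < v := hv'.trans_le hvv
  have ht : -1 < h / v' := by rw [lt_div_iff₀ hv']; linarith
  have hs0 : 0 ≤ v' / v := by positivity
  have hs1 : v' / v ≤ 1 := by rw [div_le_one hv]; exact hvv
  have h1 := rpow_one_add_le_one_add_mul_self ht.le hs0 hs1
  have h2 : 1 + v' / v * (h / v') = (v + h) / v := by field_simp
  have h3 : 1 + h / v' = (v' + h) / v' := by field_simp
  rw [h2, h3] at h1
  have h4 : 0 < (v' + h) / v' := div_pos (by linarith) hv'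
  have h5 := Real.log_le_log (Real.rpow_pos_of_pos h4 _) h1
  rw [Real.log_rpow h4] at h5
  have h6 := mul_le_mul_of_nonneg_left h5 hv.le
  have h7 : v * (v' / v * Real.log ((v' + h) / v')) = v' * Real.log ((v' + h) / v') := by
    field_simp
  linarith

/-- the sums of reciprocals -/
noncomputable def Az (p : ℕ) (w : ℝ) : ℝ := ∑ l ∈ range (p + 1), 1 / (w - l)
noncomputable def Ar (p : ℕ) (w : ℝ) : ℝ := ∑ l ∈ range p, 1 / (w - ((p + 1 + l : ℕ) : ℝ))

/-- the quotient of the products -/
noncomputable def Qr (p : ℕ) (x : ℝ) : ℝ := ∏ l ∈ range p, (x - ((p + 1 + l : ℕ) : ℝ))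

theorem P0_split (p : ℕ) (x : ℝ) : P0 (2 * p + 1) x = P0 (p + 1) x * Qr p x := by
  rw [P0_prod, P0_prod, show 2 * p + 1 = (p + 1) + p by ring, prod_range_add]
  rfl

theorem log_ratio {p : ℕ} {w x : ℝ} (hw : 2 * (p : ℝ) < w) (hx : 2 * (p : ℝ) < x) :
    Az p w * Real.log (Qr p x / Qr p w) ≤ Ar p w * Real.log (P0 (p + 1) x / P0 (p + 1) w) := by
  have hp0 : (0 : ℝ) ≤ p := Nat.cast_nonneg p
  set lam : ℝ := (w - p) * Real.log ((x - p) / (w - p)) with hlam
  have hwp : 0 < w - p := by linarith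
  have hl : ∀ l : ℕ, (l : ℝ) ≤ p → lam ≤ (w - l) * Real.log ((x - l) / (w - l)) := by
    intro l hlp
    have h1 := log_mono_v (v := w - l) (v' := w - p) (h := x - w) hwp (by linarith)
      (by linarith)
    rw [show w - p + (x - w) = x - p by ring, show w - l + (x - w) = x - l by ring] at h1
    exact h1
  have hr : ∀ l : ℕ, l < p → (w - ((p + 1 + l : ℕ) : ℝ)) *
      Real.log ((x - ((p + 1 + l : ℕ) : ℝ)) / (w - ((p + 1 + l : ℕ) : ℝ))) ≤ lam := by
    intro l hlp
    have hlp' : (l : ℝ) + 1 ≤ p := by exact_mod_cast hlp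
    push_cast
    have h1 := log_mono_v (v := w - p) (v' := w - (p + 1 + l)) (h := x - w) (by linarith)
      (by have : (0 : ℝ) ≤ l := Nat.cast_nonneg l; linarith) (by linarith)
    rw [show w - p + (x - w) = x - p by ring,
      show w - (p + 1 + l) + (x - w) = x - (p + 1 + l) by ring] at h1
    exact h1
  have hz : lam * Az p w ≤ Real.log (P0 (p + 1) x / P0 (p + 1) w) := by
    rw [P0_prod, P0_prod, ← prod_div_distrib, Real.log_prod]
    · rw [Az, mul_sum]
      apply sum_le_sum
      intro l hl1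
      rw [mem_range] at hl1
      have hlp : (l : ℝ) ≤ p := by exact_mod_cast (by omega : l ≤ p)
      have hwl : 0 < w - l := by linarith
      have h1 := hl l hlp
      rw [mul_one_div, div_le_iff₀ hwl]
      linarith
    · intro l hl1
      rw [mem_range] at hl1
      have hlp : (l : ℝ) ≤ p := by exact_mod_cast (by omega : l ≤ p)
      exact (div_pos (by linarith) (by linarith)).ne'
  have hq : Real.log (Qr p x / Qr p w) ≤ lam * Ar p w := by
    rw [Qr, Qr, ← prod_div_distrib, Real.log_prod]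
    · rw [Ar, mul_sum]
      apply sum_le_sum
      intro l hl1
      rw [mem_range] at hl1
      have hlp' : (l : ℝ) + 1 ≤ p := by exact_mod_cast hl1
      have hwl : 0 < w - ((p + 1 + l : ℕ) : ℝ) := by push_cast; linarith
      have h1 := hr l hl1
      rw [mul_one_div, le_div_iff₀ hwl]
      linarith
    · intro l hl1
      rw [mem_range] at hl1
      have hlp' : (l : ℝ) + 1 ≤ p := by exact_mod_cast hl1
      push_cast
      exact (div_pos (by linarith) (by linarith)).ne'
  have hAz : 0 < Az p w := by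
    apply sum_pos
    · intro l hl1
      rw [mem_range] at hl1
      have hlp : (l : ℝ) ≤ p := by exact_mod_cast (by omega : l ≤ p)
      exact div_pos one_pos (by linarith)
    · exact ⟨0, mem_range.mpr (by omega)⟩
  have hAr : 0 ≤ Ar p w := by
    apply sum_nonneg
    intro l hl1
    rw [mem_range] at hl1
    have hlp' : (l : ℝ) + 1 ≤ p := by exact_mod_cast hl1
    push_cast
    exact (div_pos one_pos (by linarith)).le
  calc Az p w * Real.log (Qr p x / Qr p w) ≤ Az p w * (lam * Ar p w) :=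
        mul_le_mul_of_nonneg_left hq hAz.le
    _ = Ar p w * (lam * Az p w) := by ring
    _ ≤ _ := mul_le_mul_of_nonneg_left hz hAr

/-- The comparison. -/
theorem ratio {p : ℕ} (hp : 1 ≤ p) {w : ℝ} (hw : 2 * (p : ℝ) * (p + 1) ≤ w) :
    ∃ β : ℝ, (p : ℝ) / (p + 1) ≤ β ∧ β ≤ 1 ∧ ∀ x : ℝ, 2 * (p : ℝ) < x →
      P0 (2 * p + 1) x / P0 (2 * p + 1) w ≤ (P0 (p + 1) x / P0 (p + 1) w) *
        (1 + β * (P0 (p + 1) x / P0 (p + 1) w - 1)) ∧
      (P0 (2 * p + 1) x / P0 (2 * p + 1) w) *
        (1 + β / (1 + β) * (1 - P0 (2 * p + 1) x / P0 (2 * p + 1) w)) ≤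
        P0 (p + 1) x / P0 (p + 1) w := by
  have hp1 : (1 : ℝ) ≤ p := by exact_mod_cast hp
  have hw2 : 2 * (p : ℝ) < w := by nlinarith
  have hAz : 0 < Az p w := by
    apply sum_pos
    · intro l hl1
      rw [mem_range] at hl1
      have hlp : (l : ℝ) ≤ p := by exact_mod_cast (by omega : l ≤ p)
      exact div_pos one_pos (by linarith)
    · exact ⟨0, mem_range.mpr (by omega)⟩
  have hAz1 : ((p : ℝ) + 1) / w ≤ Az p w := by
    have h1 : ∑ l ∈ range (p + 1), 1 / w ≤ Az p w := by
      apply sum_le_sum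
      intro l hl1
      rw [mem_range] at hl1
      have hlp : (l : ℝ) ≤ p := by exact_mod_cast (by omega : l ≤ p)
      have h0 : (0 : ℝ) ≤ l := Nat.cast_nonneg l
      apply one_div_le_one_div_of_le (by linarith)
      linarith
    rw [sum_const, card_range, nsmul_eq_mul] at h1
    push_cast at h1
    rw [mul_one_div] at h1
    exact h1
  have hAz2 : Az p w ≤ ((p : ℝ) + 1) / (w - p) := by
    have h1 : Az p w ≤ ∑ l ∈ range (p + 1), 1 / (w - p) := by
      apply sum_le_sum
      intro l hl1
      rw [mem_range] at hl1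
      have hlp : (l : ℝ) ≤ p := by exact_mod_cast (by omega : l ≤ p)
      apply one_div_le_one_div_of_le (by linarith)
      linarith
    rw [sum_const, card_range, nsmul_eq_mul] at h1
    push_cast at h1
    rw [mul_one_div] at h1
    exact h1
  have hAr1 : Ar p w ≤ (p : ℝ) / (w - 2 * p) := by
    have h1 : Ar p w ≤ ∑ l ∈ range p, 1 / (w - 2 * p) := by
      apply sum_le_sum
      intro l hl1
      rw [mem_range] at hl1
      have hlp' : (l : ℝ) + 1 ≤ p := by exact_mod_cast hl1
      push_cast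
      apply one_div_le_one_div_of_le (by linarith)
      linarith
    rw [sum_const, card_range, nsmul_eq_mul, mul_one_div] at h1
    exact h1
  have hAr2 : (p : ℝ) / (w - p) ≤ Ar p w := by
    have h1 : ∑ l ∈ range p, 1 / (w - p) ≤ Ar p w := by
      apply sum_le_sum
      intro l hl1
      rw [mem_range] at hl1
      have hlp' : (l : ℝ) + 1 ≤ p := by exact_mod_cast hl1
      have h0 : (0 : ℝ) ≤ l := Nat.cast_nonneg l
      push_cast
      apply one_div_le_one_div_of_le (by linarith)
      linarith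
    rw [sum_const, card_range, nsmul_eq_mul, mul_one_div] at h1
    exact h1
  set β : ℝ := Ar p w / Az p w with hβ
  have hβ1 : β ≤ 1 := by
    rw [hβ, div_le_one hAz]
    refine hAr1.trans (le_trans ?_ hAz1)
    rw [div_le_div_iff₀ (by linarith) (by linarith)]
    nlinarith
  have hβ2 : (p : ℝ) / (p + 1) ≤ β := by
    rw [hβ, le_div_iff₀ hAz]
    refine le_trans (mul_le_mul_of_nonneg_left hAz2 (by positivity)) (le_trans ?_ hAr2)
    have : (p : ℝ) / (p + 1) * ((p + 1) / (w - p)) = p / (w - p) := by field_simp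
    rw [this]
  have hβ0 : 0 < β := lt_of_lt_of_le (by positivity) hβ2
  refine ⟨β, hβ2, hβ1, ?_⟩
  intro x hx
  have hzx : 0 < P0 (p + 1) x := P0_pos (by push_cast; linarith)
  have hzw : 0 < P0 (p + 1) w := P0_pos (by push_cast; linarith)
  have hqx : 0 < Qr p x := by
    apply prod_pos
    intro l hl1
    rw [mem_range] at hl1
    have hlp' : (l : ℝ) + 1 ≤ p := by exact_mod_cast hl1
    push_cast
    linarith
  have hqw : 0 < Qr p w := by
    apply prod_pos
    intro l hl1
    rw [mem_range] at hl1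
    have hlp' : (l : ℝ) + 1 ≤ p := by exact_mod_cast hl1
    push_cast
    linarith
  set z : ℝ := P0 (p + 1) x / P0 (p + 1) w with hz
  set ρ : ℝ := Qr p x / Qr p w with hρ
  have hz0 : 0 < z := div_pos hzx hzw
  have hρ0 : 0 < ρ := div_pos hqx hqw
  have hlog : Real.log ρ ≤ β * Real.log z := by
    have h1 := log_ratio (p := p) (w := w) (x := x) hw2 hx
    rw [hβ, div_mul_eq_mul_div, le_div_iff₀ hAz]
    linarith
  have e1 : P0 (2 * p + 1) x / P0 (2 * p + 1) w = z * ρ := by
    rw [P0_split, P0_split, hz, hρ, mul_div_mul_comm]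
  rw [e1]
  constructor
  · apply mul_le_mul_of_nonneg_left _ hz0.le
    have h1 := rpow_one_add_le_one_add_mul_self (s := z - 1) (by linarith) hβ0.le hβ1
    rw [show 1 + (z - 1) = z by ring] at h1
    refine le_trans ?_ h1
    rw [← Real.log_le_log_iff hρ0 (Real.rpow_pos_of_pos hz0 _), Real.log_rpow hz0]
    exact hlog
  · set ζ : ℝ := z * ρ with hζ
    have hζ0 : 0 < ζ := mul_pos hz0 hρ0
    have h1 : Real.log ζ = Real.log z + Real.log ρ := Real.log_mul hz0.ne' hρ0.ne'
    have h2 : Real.log ρ ≤ β / (1 + β) * Real.log ζ := by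
      rw [h1, div_mul_eq_mul_div, le_div_iff₀ (by linarith)]
      linarith
    have h3 : Real.log ζ ≤ ζ - 1 := Real.log_le_sub_one_of_pos hζ0
    have h4 : 0 ≤ β / (1 + β) := by positivity
    have h5 : 1 + β / (1 + β) * (1 - ζ) ≤ 1 / ρ := by
      have h6 : 1 / ρ = Real.exp (-Real.log ρ) := by
        rw [Real.exp_neg, Real.exp_log hρ0, one_div]
      rw [h6]
      have h7 := Real.add_one_le_exp (-Real.log ρ)
      have h8 := mul_le_mul_of_nonneg_left h3 h4
      linarith
    have h6 := mul_le_mul_of_nonneg_left h5 hζ0.le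
    have h7 : ζ * (1 / ρ) = z := by rw [hζ]; field_simp
    rw [h7] at h6
    exact h6

end Pool.Agent.Lib.MP_455133_co.LS
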