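import Mathlib
import Pool.Agent.Lib.MP_455133_co.LS.Herm2
import Pool.Agent.Lib.MP_455133_co.LS.Ratio
import Pool.Agent.Lib.MP_455133_co.LS.Num1

/-!
One step of the induction: the numerical part.
-/

namespace Pool.Agent.Lib.MP_455133_co.LS

open Finset Pool.Agent.Lib.MP_455133_co.LR

/-- the potential, as a function of the two parameters -/
noncomputable def Gp (κ x : ℝ) : ℝ := 1 / (x + 1) - κ / 2 / (x + 1) ^ 2
noncomputable def Hp (κ x : ℝ) : ℝ := κ / 2 / (x + 1) ^ 2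

theorem hasDerivAt_inv_pow {x : ℝ} (hx : 0 < x + 1) (k : ℕ) :
    HasDerivAt (fun t : ℝ => 1 / (t + 1) ^ (k + 1)) (-(((k : ℝ) + 1) / (x + 1) ^ (k + 2))) x := by
  have h1 : HasDerivAt (fun t : ℝ => (t + 1) ^ (k + 1)) (((k : ℝ) + 1) * (x + 1) ^ k) x := by
    have h := ((hasDerivAt_id x).add_const (1 : ℝ)).pow (k + 1)
    refine h.congr_deriv ?_
    simp [id]
  have h2 := h1.inv (pow_ne_zero _ hx.ne')
  have h3 : HasDerivAt (fun t : ℝ => 1 / (t + 1) ^ (k + 1))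
      (-(((k : ℝ) + 1) * (x + 1) ^ k) / ((x + 1) ^ (k + 1)) ^ 2) x := by
    refine h2.congr_of_eventuallyEq ?_
    filter_upwards with t
    simp only [Pi.inv_apply, one_div]
  refine h3.congr_deriv ?_
  have hne := hx.ne'
  field_simp
  ring

theorem P0_diff (i : ℕ) (y : ℝ) :
    P0 (i + 1) y - P0 (i + 1) (y - 1) = ((i : ℝ) + 1) * P0 i (y - 1) := by
  rw [P0_shift]
  have : P0 (i + 1) (y - 1) = P0 i (y - 1) * (y - 1 - i) := rfl
  rw [this]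
  ring

theorem P1_pos {i : ℕ} {x : ℝ} (hx : 0 < x) (h : ((i + 1 : ℕ) : ℝ) < x + 1) :
    0 < P1 (i + 1) x := by
  have h1 := P1_ge h.le
  have h2 : 0 < P0 (i + 1) x := P0_pos h
  have h3 : 0 < P1 (i + 1) x * x := lt_of_lt_of_le (by push_cast; positivity) h1
  exact pos_of_mul_pos_left h3 hx.le

/-- the interpolation inequality for falling products, quadratic form -/
theorem herm_P0 {i : ℕ} {G g g1 : ℝ → ℝ} {c y B A : ℝ} (hcy : c ≤ y - 1) (hc0 : 0 < c)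
    (hi : ((i + 1 : ℕ) : ℝ) < c + 1)
    (hG : ∀ x, c ≤ x → HasDerivAt G (-(g x)) x) (hg : ∀ x, c ≤ x → HasDerivAt g (-(g1 x)) x)
    (q1 : ∀ x, c ≤ x → 0 ≤ g x) (q2 : ∀ x, c ≤ x → 0 ≤ g1 x)
    (q3 : ∀ x x', c ≤ x → x ≤ x' → g1 x' ≤ g1 x)
    (hA : A = G (y - 1) - G y) (hApos : 0 < A)
    (hB : A + B = ((i : ℝ) + 1) * P0 i (y - 1) * g (y - 1) / P1 (i + 1) (y - 1))
    {z d : ℝ} (hz : c ≤ z) (hzy : z ≤ y)
    (hd : P0 (i + 1) y - P0 (i + 1) z = ((i + 1).factorial : ℝ) * d) :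
    A * ((i.factorial : ℝ) * d / P0 i (y - 1)) - B * ((i.factorial : ℝ) * d / P0 i (y - 1) -
      ((i.factorial : ℝ) * d / P0 i (y - 1)) ^ 2) ≤ G z - G y := by
  have hle : ∀ x, c ≤ x → ((i + 1 : ℕ) : ℝ) < x + 1 := fun x hx => lt_of_lt_of_le hi (by linarith)
  have hP : 0 < P0 i (y - 1) := by
    apply P0_pos
    have := hle (y - 1) hcy
    push_cast at this
    linarith
  have h := herm2 (f := P0 (i + 1)) (f1 := P1 (i + 1)) (f2 := P2 (i + 1)) (f3 := P3 (i + 1))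
    (G := G) (g := g) (g1 := g1) (c := c) (y := y) hcy
    (fun x => hasDerivAt_P0 _ x) (fun x => hasDerivAt_P1 _ x) (fun x => hasDerivAt_P2 _ x)
    (fun x hx => P1_pos (hc0.trans_le hx) (hle x hx))
    (fun x hx => (P_nonneg (hle x hx).le).2.2.1)
    (fun x hx => (P_ineq (hle x hx).le).2.2) hG hg q1 q2 q3
    (K := ((i : ℝ) + 1) * P0 i (y - 1)) (A := A) (c' := B / A) (P0_diff i y).symm hA
    (by rw [mul_add, mul_one, mul_div_cancel₀ _ hApos.ne', hB]) hz hzy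
  rw [hd] at h
  have e1 : ((i + 1).factorial : ℝ) * d / (((i : ℝ) + 1) * P0 i (y - 1)) =
      (i.factorial : ℝ) * d / P0 i (y - 1) := by
    rw [Nat.factorial_succ]
    push_cast
    field_simp
  rw [e1] at h
  refine le_trans (le_of_eq ?_) h
  field_simp
  ring

/-- upper bound for the derivative quotient -/
theorem deriv_quot {i : ℕ} {y : ℝ} (hy : 0 < y - 1) (hi : ((i + 1 : ℕ) : ℝ) < y) :
    ((i : ℝ) + 1) * P0 i (y - 1) / P1 (i + 1) (y - 1) ≤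
      (y - (((i : ℝ) + 1) + 1) / 2) / (y - ((i : ℝ) + 1)) := by
  have hlt : ((i + 1 : ℕ) : ℝ) < (y - 1) + 1 := by linarith
  have h1 := P1_ge2 hlt
  have hP1 := P1_pos hy hlt
  have hP : 0 < P0 i (y - 1) := by apply P0_pos; push_cast at hi; linarith
  have e1 : P0 (i + 1) (y - 1) = P0 i (y - 1) * (y - 1 - i) := rfl
  push_cast at hi h1
  rw [e1] at h1
  rw [div_le_div_iff₀ hP1 (by linarith)]
  have e2 : y - 1 - ((i : ℝ) + 1 - 1) / 2 = y - (((i : ℝ) + 1) + 1) / 2 := by ring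
  rw [e2] at h1
  nlinarith

theorem A1_eq (κ y : ℝ) : Gp κ (y - 1) - Gp κ y =
    (1 / y - κ / 2 / y ^ 2) - (1 / (y + 1) - κ / 2 / (y + 1) ^ 2) := by
  rw [Gp, Gp, show y - 1 + 1 = y by ring]

theorem A2_eq (κ y : ℝ) : Hp κ (y - 1) - Hp κ y = κ / 2 / y ^ 2 - κ / 2 / (y + 1) ^ 2 := by
  rw [Hp, Hp, show y - 1 + 1 = y by ring]

theorem A1_pos {κ y : ℝ} (hκ : 0 < κ) (hy : 2 * κ ≤ y) : 0 < Gp κ (y - 1) - Gp κ y := by
  have hy0 : 0 < y := by linarith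
  have e : Gp κ (y - 1) - Gp κ y =
      (2 * y * (y + 1) - κ * (2 * y + 1)) / (2 * y ^ 2 * (y + 1) ^ 2) := by
    rw [A1_eq]
    have : y + 1 ≠ 0 := by positivity
    field_simp
    ring
  rw [e]
  apply div_pos _ (by positivity)
  have : κ * (2 * y + 1) ≤ y / 2 * (2 * y + 1) :=
    mul_le_mul_of_nonneg_right (by linarith) (by linarith)
  nlinarith

theorem A1_le {κ y : ℝ} (hκ : 0 < κ) (hy : 2 * κ ≤ y) :
    Gp κ (y - 1) - Gp κ y ≤ 1 / y ^ 2 - κ / y ^ 3 := by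
  have hy0 : 0 < y := by linarith
  have e : 1 / y ^ 2 - κ / y ^ 3 - (Gp κ (y - 1) - Gp κ y) =
      (2 * y * (y + 1) - κ * (3 * y + 2)) / (2 * y ^ 3 * (y + 1) ^ 2) := by
    rw [A1_eq]
    have : y + 1 ≠ 0 := by positivity
    field_simp
    ring
  have h3 : 0 ≤ (2 * y * (y + 1) - κ * (3 * y + 2)) / (2 * y ^ 3 * (y + 1) ^ 2) := by
    apply div_nonneg _ (by positivity)
    have : κ * (3 * y + 2) ≤ y / 2 * (3 * y + 2) :=
      mul_le_mul_of_nonneg_right (by linarith) (by linarith)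
    nlinarith
  linarith

theorem A2_pos {κ y : ℝ} (hκ : 0 < κ) (hy0 : 0 < y) : 0 < Hp κ (y - 1) - Hp κ y := by
  have e : Hp κ (y - 1) - Hp κ y = κ * (2 * y + 1) / (2 * y ^ 2 * (y + 1) ^ 2) := by
    rw [A2_eq]
    have : y + 1 ≠ 0 := by positivity
    field_simp
    ring
  rw [e]
  positivity

theorem A2_le {κ y : ℝ} (hκ : 0 < κ) (hy0 : 0 < y) : Hp κ (y - 1) - Hp κ y ≤ κ / y ^ 3 := by
  have e : κ / y ^ 3 - (Hp κ (y - 1) - Hp κ y) =
      κ * (3 * y + 2) / (2 * y ^ 3 * (y + 1) ^ 2) := by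
    rw [A2_eq]
    have : y + 1 ≠ 0 := by positivity
    field_simp
    ring
  have h3 : 0 ≤ κ * (3 * y + 2) / (2 * y ^ 3 * (y + 1) ^ 2) := by positivity
  linarith

theorem T_ge {i : ℕ} {y : ℝ} (hi : ((i + 1 : ℕ) : ℝ) < y) :
    1 ≤ ((i : ℝ) + 1) * P0 i (y - 1) / P1 (i + 1) (y - 1) := by
  have hi' := hi
  push_cast at hi'
  have hi0 : (0 : ℝ) ≤ i := Nat.cast_nonneg i
  rw [one_le_div (P1_pos (by linarith) (by push_cast; linarith))]
  have h1 := tangent_le (f := P0 (i + 1)) (f' := P1 (i + 1)) (c := y - 1)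
    (fun x => hasDerivAt_P0 _ x) (fun x x' hx hxx' =>
      mvt_le (F' := P2 (i + 1)) hxx' (fun t _ _ => hasDerivAt_P1 _ t)
        (fun t h3 _ => (P_nonneg (by push_cast; linarith)).2.2.1))
    (x := y - 1) (y := y) le_rfl (by linarith)
  have h2 := P0_diff i y
  linarith

theorem level1 {p : ℕ} {κ y : ℝ} (hκ : (p : ℝ) + 2 ≤ κ) (hy : 2 * κ ≤ y) :
    0 ≤ ((p : ℝ) + 1 + 1) * P0 (p + 1) (y - 1) / P1 (p + 1 + 1) (y - 1) *
      (1 / y ^ 2 - κ / y ^ 3) - (Gp κ (y - 1) - Gp κ y) ∧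
    y * (((p : ℝ) + 1 + 1) * P0 (p + 1) (y - 1) / P1 (p + 1 + 1) (y - 1) *
      (1 / y ^ 2 - κ / y ^ 3) - (Gp κ (y - 1) - Gp κ y)) ≤ ((p : ℝ) + 3) / (2 * y ^ 2) := by
  have hp0 : (0 : ℝ) ≤ p := Nat.cast_nonneg p
  have hκ0 : 0 < κ := by linarith
  have hy0 : 0 < y := by linarith
  have h1 := T_ge (i := p + 1) (y := y) (by push_cast; linarith)
  have h2 := deriv_quot (i := p + 1) (y := y) (by linarith) (by push_cast; linarith)
  push_cast at h1 h2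
  have h3 := A1_pos hκ0 hy
  have h4 := A1_le hκ0 hy
  have h5 : 0 ≤ 1 / y ^ 2 - κ / y ^ 3 := h3.le.trans h4
  have h6 := mul_le_mul_of_nonneg_right h1 h5
  have h7 := mul_le_mul_of_nonneg_right h2 h5
  constructor
  · linarith
  · have h8 := coef_phi (i := (p : ℝ) + 1 + 1) (y := y) (κ := κ) (by linarith) (by linarith)
      (by linarith)
    have eg : 1 / y ^ 2 - κ / y ^ 3 = (y - κ) / y ^ 3 := by field_simp
    have h9 : y * (((p : ℝ) + 1 + 1) * P0 (p + 1) (y - 1) / P1 (p + 1 + 1) (y - 1) *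
      (1 / y ^ 2 - κ / y ^ 3) - (Gp κ (y - 1) - Gp κ y)) ≤
      y * ((y - (((p : ℝ) + 1 + 1) + 1) / 2) / (y - ((p : ℝ) + 1 + 1)) * ((y - κ) / y ^ 3) -
      ((1 / y - κ / 2 / y ^ 2) - (1 / (y + 1) - κ / 2 / (y + 1) ^ 2))) := by
      apply mul_le_mul_of_nonneg_left _ hy0.le
      rw [A1_eq, ← eg]
      linarith
    refine h9.trans (h8.trans (le_of_eq ?_))
    ring

theorem level2 {p : ℕ} {κ y : ℝ} (hκ : 0 < κ) (hy : 2 * (p : ℝ) + 2 < y) :
    0 ≤ (2 * (p : ℝ) + 1 + 1) * P0 (2 * p + 1) (y - 1) / P1 (2 * p + 1 + 1) (y - 1) *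
      (κ / y ^ 3) - (Hp κ (y - 1) - Hp κ y) ∧
    y * ((2 * (p : ℝ) + 1 + 1) * P0 (2 * p + 1) (y - 1) / P1 (2 * p + 1 + 1) (y - 1) *
      (κ / y ^ 3) - (Hp κ (y - 1) - Hp κ y)) ≤
      κ * (2 * (p : ℝ) + 4) / (2 * y ^ 2 * (y - (2 * p + 2))) := by
  have hp0 : (0 : ℝ) ≤ p := Nat.cast_nonneg p
  have hy0 : 0 < y := by linarith
  have h1 := T_ge (i := 2 * p + 1) (y := y) (by push_cast; linarith)
  have h2 := deriv_quot (i := 2 * p + 1) (y := y) (by linarith) (by push_cast; linarith)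
  push_cast at h1 h2
  have h3 := A2_pos hκ hy0
  have h4 := A2_le hκ hy0
  have h5 : 0 ≤ κ / y ^ 3 := h3.le.trans h4
  have h6 := mul_le_mul_of_nonneg_right h1 h5
  have h7 := mul_le_mul_of_nonneg_right h2 h5
  constructor
  · linarith
  · have h8 := coef_psi (B := 2 * (p : ℝ) + 1 + 1) (Y := y) (κ := κ) (by linarith)
      (by linarith) hκ.le
    have h9 : y * ((2 * (p : ℝ) + 1 + 1) * P0 (2 * p + 1) (y - 1) /
      P1 (2 * p + 1 + 1) (y - 1) * (κ / y ^ 3) - (Hp κ (y - 1) - Hp κ y)) ≤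
      y * ((y - ((2 * (p : ℝ) + 1 + 1) + 1) / 2) / (y - (2 * (p : ℝ) + 1 + 1)) * (κ / y ^ 3) -
      (κ / 2 / y ^ 2 - κ / 2 / (y + 1) ^ 2)) := by
      apply mul_le_mul_of_nonneg_left _ hy0.le
      rw [A2_eq]
      linarith
    refine h9.trans (h8.trans (le_of_eq ?_))
    have e : y - (2 * (p : ℝ) + 1 + 1) = y - (2 * p + 2) := by ring
    rw [e]
    ring

theorem hexact {a y Y : ℝ} (hy : 0 < y) (hY : 0 < Y) :
    (Gp (a / 2) (y - 1) - Gp (a / 2) y) * y + (Hp (a / 2) (Y - 1) - Hp (a / 2) Y) * Y -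
      (Gp (a / 2) y + Hp (a / 2) Y) = a / 4 * (1 / (Y * (Y + 1)) - 1 / (y * (y + 1))) := by
  rw [A1_eq, A2_eq, Gp, Hp]
  have h1 : y + 1 ≠ 0 := by positivity
  have h2 : Y + 1 ≠ 0 := by positivity
  have e1 : (1 / y - a / 2 / 2 / y ^ 2 - (1 / (y + 1) - a / 2 / 2 / (y + 1) ^ 2)) * y -
      (1 / (y + 1) - a / 2 / 2 / (y + 1) ^ 2) = - (a / 4 * (1 / (y * (y + 1)))) := by
    field_simp
    ring
  have e2 : (a / 2 / 2 / Y ^ 2 - a / 2 / 2 / (Y + 1) ^ 2) * Y - a / 2 / 2 / (Y + 1) ^ 2 =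
      a / 4 * (1 / (Y * (Y + 1))) := by
    field_simp
    ring
  linarith

theorem gp_bound {p : ℕ} {a κ y B z d : ℝ} (hκ : 0 < κ) (hκa : 2 * κ = a)
    (hp2 : (p : ℝ) + 2 < a) (hay : a ≤ y)
    (hB : (Gp κ (y - 1) - Gp κ y) + B = ((p : ℝ) + 1 + 1) * P0 (p + 1) (y - 1) *
      (1 / y ^ 2 - κ / y ^ 3) / P1 (p + 1 + 1) (y - 1)) (hz1 : a - 1 ≤ z) (hz2 : z ≤ y)
    (hz3 : P0 (p + 2) y - P0 (p + 2) z = ((p + 2).factorial : ℝ) * d) :
    (Gp κ (y - 1) - Gp κ y) * (((p + 1).factorial : ℝ) * d / P0 (p + 1) (y - 1)) -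
      B * (((p + 1).factorial : ℝ) * d / P0 (p + 1) (y - 1) -
      (((p + 1).factorial : ℝ) * d / P0 (p + 1) (y - 1)) ^ 2) ≤ Gp κ z - Gp κ y := by
  have hp0 : (0 : ℝ) ≤ p := Nat.cast_nonneg p
  refine herm_P0 (i := p + 1) (G := Gp κ)
    (g := fun x => 1 / (x + 1) ^ 2 - κ * (1 / (x + 1) ^ 3))
    (g1 := fun x => 2 / (x + 1) ^ 3 - κ * (3 / (x + 1) ^ 4)) (c := a - 1) (y := y)
    (B := B) (A := Gp κ (y - 1) - Gp κ y) (by linarith) (by linarith)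
    (by push_cast; linarith)
    ?_ ?_ ?_ ?_ ?_ rfl (A1_pos hκ (by linarith)) ?_ hz1 hz2 hz3
  · intro x hx
    have hx1 : 0 < x + 1 := by linarith
    have e1 := hasDerivAt_inv_pow hx1 0
    have e2 := (hasDerivAt_inv_pow hx1 1).const_mul (κ / 2)
    have e3 := e1.sub e2
    have e4 : HasDerivAt (Gp κ) (-(((0 : ℕ) : ℝ) + 1) / (x + 1) ^ (0 + 2) -
        κ / 2 * -((((1 : ℕ) : ℝ) + 1) / (x + 1) ^ (1 + 2))) x := by
      refine (e3.congr_deriv (by ring)).congr_of_eventuallyEq ?_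
      filter_upwards with t
      simp only [Gp, Pi.sub_apply, zero_add, pow_one]
      ring
    refine e4.congr_deriv ?_
    push_cast
    ring
  · intro x hx
    have hx1 : 0 < x + 1 := by linarith
    have e1 := hasDerivAt_inv_pow hx1 1
    have e2 := (hasDerivAt_inv_pow hx1 2).const_mul κ
    refine (e1.sub e2).congr_deriv ?_
    push_cast
    ring
  · intro x hx
    have hx1 : 0 < x + 1 := by linarith
    have e : 1 / (x + 1) ^ 2 - κ * (1 / (x + 1) ^ 3) = (x + 1 - κ) / (x + 1) ^ 3 := by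
      field_simp
    rw [e]
    apply div_nonneg (by linarith) (by positivity)
  · intro x hx
    have hx1 : 0 < x + 1 := by linarith
    have e : 2 / (x + 1) ^ 3 - κ * (3 / (x + 1) ^ 4) =
        (2 * (x + 1) - 3 * κ) / (x + 1) ^ 4 := by
      field_simp
    rw [e]
    apply div_nonneg (by linarith) (by positivity)
  · intro x x' hx hxx'
    refine mvt_ge (F := fun t => 2 / (t + 1) ^ 3 - κ * (3 / (t + 1) ^ 4))
      (F' := fun t => -(6 / (t + 1) ^ 4 - κ * (12 / (t + 1) ^ 5))) hxx' ?_ ?_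
    · intro t ht _
      have hx1 : 0 < t + 1 := by linarith
      have e1 := (hasDerivAt_inv_pow hx1 2).const_mul 2
      have e2 := (hasDerivAt_inv_pow hx1 3).const_mul (3 * κ)
      have e3 := e1.sub e2
      refine (e3.congr_of_eventuallyEq ?_).congr_deriv ?_
      · filter_upwards with s
        simp only [Pi.sub_apply]
        ring
      · push_cast
        ring
    · intro t ht _
      have hx1 : 0 < t + 1 := by linarith
      have e : -(6 / (t + 1) ^ 4 - κ * (12 / (t + 1) ^ 5)) =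
          -((6 * (t + 1) - 12 * κ) / (t + 1) ^ 5) := by
        field_simp
      rw [e, neg_nonpos]
      apply div_nonneg (by linarith) (by positivity)
  · have e : y - 1 + 1 = y := by ring
    rw [e, hB]
    push_cast
    ring

theorem hp_bound {p : ℕ} {a κ y B z d : ℝ} (hκ : 0 < κ)
    (hp2 : 2 * (p : ℝ) + 3 < a) (hay : a ≤ y)
    (hB : (Hp κ (y - 1) - Hp κ y) + B = (2 * (p : ℝ) + 1 + 1) * P0 (2 * p + 1) (y - 1) *
      (κ / y ^ 3) / P1 (2 * p + 1 + 1) (y - 1)) (hz1 : a - 1 ≤ z) (hz2 : z ≤ y)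
    (hz3 : P0 (2 * p + 2) y - P0 (2 * p + 2) z = ((2 * p + 2).factorial : ℝ) * d) :
    (Hp κ (y - 1) - Hp κ y) * (((2 * p + 1).factorial : ℝ) * d / P0 (2 * p + 1) (y - 1)) -
      B * (((2 * p + 1).factorial : ℝ) * d / P0 (2 * p + 1) (y - 1) -
      (((2 * p + 1).factorial : ℝ) * d / P0 (2 * p + 1) (y - 1)) ^ 2) ≤ Hp κ z - Hp κ y := by
  have hp0 : (0 : ℝ) ≤ p := Nat.cast_nonneg p
  refine herm_P0 (i := 2 * p + 1) (G := Hp κ)
    (g := fun x => κ * (1 / (x + 1) ^ 3))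
    (g1 := fun x => 3 * κ * (1 / (x + 1) ^ 4)) (c := a - 1) (y := y)
    (B := B) (A := Hp κ (y - 1) - Hp κ y) (by linarith) (by linarith)
    (by push_cast; linarith)
    ?_ ?_ ?_ ?_ ?_ rfl (A2_pos hκ (by linarith)) ?_ hz1 hz2 hz3
  · intro x hx
    have hx1 : 0 < x + 1 := by linarith
    have e2 := (hasDerivAt_inv_pow hx1 1).const_mul (κ / 2)
    have e4 : HasDerivAt (Hp κ) (κ / 2 * -((((1 : ℕ) : ℝ) + 1) / (x + 1) ^ (1 + 2))) x := by
      refine e2.congr_of_eventuallyEq ?_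
      filter_upwards with t
      simp only [Hp]
      ring
    refine e4.congr_deriv ?_
    push_cast
    ring
  · intro x hx
    have hx1 : 0 < x + 1 := by linarith
    have e2 := (hasDerivAt_inv_pow hx1 2).const_mul κ
    refine e2.congr_deriv ?_
    push_cast
    ring
  · intro x hx
    have hx1 : 0 < x + 1 := by linarith
    positivity
  · intro x hx
    have hx1 : 0 < x + 1 := by linarith
    positivity
  · intro x x' hx hxx'
    have hx1 : 0 < x + 1 := by linarith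
    apply mul_le_mul_of_nonneg_left _ (by positivity)
    apply one_div_le_one_div_of_le (by positivity)
    apply pow_le_pow_left₀ hx1.le
    linarith
  · have e : y - 1 + 1 = y := by ring
    rw [e, hB]
    push_cast
    ring

theorem up_level {ι : Type*} (U : Finset ι) (d D : ι → ℝ) {p : ℕ} {y Y : ℝ} (hp : 1 ≤ p)
    (hY : 2 * (p : ℝ) + 3 ≤ Y) (hy : 2 * (p : ℝ) * (p + 1) ≤ y - 1) (hYy : Y ≤ y)
    (hd : ∑ u ∈ U, ((p + 1).factorial : ℝ) * d u = P0 (p + 2) y)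
    (hD : ∑ u ∈ U, ((2 * p + 1).factorial : ℝ) * D u = P0 (2 * p + 2) Y)
    (hdnn : ∀ u ∈ U, 0 ≤ d u)
    (hv : ∀ u ∈ U, (D u = 0 ∧ 0 ≤ d u) ∨ ∃ x : ℝ, 2 * (p : ℝ) < x ∧
      ((2 * p + 1).factorial : ℝ) * D u = P0 (2 * p + 1) x ∧
      P0 (p + 1) x ≤ ((p + 1).factorial : ℝ) * d u) :
    (p : ℝ) / (p + 1) * ((y - ∑ u ∈ U, (((p + 1).factorial : ℝ) * d u /
      P0 (p + 1) (y - 1)) ^ 2) / y) ≤ 1 - P0 (2 * p + 2) Y / P0 (2 * p + 2) y := by
  have hp' : (1 : ℝ) ≤ p := by exact_mod_cast hp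
  have hfac1 : (0 : ℝ) < ((p + 1).factorial : ℝ) := by exact_mod_cast Nat.factorial_pos _
  have hy0 : 0 < y := by linarith
  have hPy : 0 < P0 (p + 1) (y - 1) := P0_pos (by push_cast; linarith)
  have hPy2 : 0 < P0 (2 * p + 1) (y - 1) := P0_pos (by push_cast; linarith)
  obtain ⟨β, hβ1, hβ2, hβ3⟩ := ratio (p := p) (by omega) (w := y - 1) hy
  have hpp : (0 : ℝ) < (p : ℝ) / (p + 1) := by positivity
  have hβ0 : 0 < β := hpp.trans_le hβ1
  obtain ⟨h, hh⟩ : ∃ h : ι → ℝ, ∀ u, h u = ((p + 1).factorial : ℝ) * d u / P0 (p + 1) (y - 1) :=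
    ⟨_, fun _ => rfl⟩
  have hsumh : ∑ u ∈ U, h u = y := by
    rw [sum_congr rfl fun u _ => hh u, ← sum_div, hd, P0_shift (p + 1) y]
    field_simp
  rw [sum_congr rfl fun u _ => by rw [← hh u]]
  obtain ⟨S1, hS1⟩ : ∃ S1, S1 = ∑ u ∈ U, h u ^ 2 := ⟨_, rfl⟩
  rw [← hS1]
  have h1 : ∀ u ∈ U, ((2 * p + 1).factorial : ℝ) * D u / P0 (2 * p + 1) (y - 1) ≤
      h u * (1 + β * (h u - 1)) := by
    intro u hu
    have hhu : 0 ≤ h u := by
      rw [hh]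
      exact div_nonneg (mul_nonneg hfac1.le (hdnn u hu)) hPy.le
    rcases hv u hu with h2 | ⟨x, hx, h2, h3⟩
    · rw [h2.1, mul_zero, zero_div]
      apply mul_nonneg hhu
      have := mul_nonneg hβ0.le hhu
      linarith
    · rw [h2]
      refine ((hβ3 x hx).1).trans ?_
      obtain ⟨t, ht⟩ : ∃ t, t = P0 (p + 1) x / P0 (p + 1) (y - 1) := ⟨_, rfl⟩
      rw [← ht]
      have ht0 : 0 ≤ t := by rw [ht]; exact (div_pos (P0_pos (by push_cast; linarith)) hPy).le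
      have hth : t ≤ h u := by
        rw [ht, hh]
        exact div_le_div_of_nonneg_right h3 hPy.le
      have h4 : h u * (1 + β * (h u - 1)) - t * (1 + β * (t - 1)) =
          (h u - t) * (1 - β + β * (h u + t)) := by ring
      have h5 : 0 ≤ (h u - t) * (1 - β + β * (h u + t)) := by
        apply mul_nonneg (by linarith)
        have : 0 ≤ β * (h u + t) := by positivity
        linarith
      linarith
  have h2 := sum_le_sum h1
  rw [← sum_div, hD] at h2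
  have h3 : ∑ u ∈ U, h u * (1 + β * (h u - 1)) = y + β * (S1 - y) := by
    have : ∀ u ∈ U, h u * (1 + β * (h u - 1)) = h u + β * (h u ^ 2 - h u) := fun u _ => by ring
    rw [sum_congr rfl this, sum_add_distrib, ← mul_sum, sum_sub_distrib, hsumh, hS1]
  rw [h3] at h2
  obtain ⟨k, hk⟩ : ∃ k, k = P0 (2 * p + 2) Y / P0 (2 * p + 2) y := ⟨_, rfl⟩
  have hk1 : k ≤ 1 := by
    rw [hk, div_le_one (P0_pos (by push_cast; linarith))]
    exact P0_mono (by push_cast; linarith) hYy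
  have h4 : P0 (2 * p + 2) Y / P0 (2 * p + 1) (y - 1) = y * k := by
    rw [hk, P0_shift (2 * p + 1) y]
    field_simp
  rw [h4] at h2
  rw [← hk]
  obtain ⟨X1, hX1⟩ : ∃ X1, X1 = (y - S1) / y := ⟨_, rfl⟩
  rw [← hX1]
  have h5 : β * X1 ≤ 1 - k := by
    rw [hX1, mul_div_assoc', div_le_iff₀ hy0]
    linarith
  rcases le_or_gt X1 0 with h6 | h6
  · have : (p : ℝ) / (p + 1) * X1 ≤ 0 := mul_nonpos_of_nonneg_of_nonpos hpp.le h6
    linarith
  · have := mul_le_mul_of_nonneg_right hβ1 h6.le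
    linarith

theorem down_level {ι : Type*} (U : Finset ι) (d D : ι → ℝ) {p : ℕ} {y Y : ℝ} (hp : 1 ≤ p)
    (hY : 2 * (p : ℝ) * (p + 1) ≤ Y - 1) (hY2 : 2 * (p : ℝ) + 3 ≤ Y) (hYy : Y ≤ y)
    (hd : ∑ u ∈ U, ((p + 1).factorial : ℝ) * d u = P0 (p + 2) y)
    (hD : ∑ u ∈ U, ((2 * p + 1).factorial : ℝ) * D u = P0 (2 * p + 2) Y)
    (hv : ∀ u ∈ U, (D u = 0 ∧ 0 ≤ d u) ∨ ∃ x : ℝ, 2 * (p : ℝ) < x ∧
      ((2 * p + 1).factorial : ℝ) * D u = P0 (2 * p + 1) x ∧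
      P0 (p + 1) x ≤ ((p + 1).factorial : ℝ) * d u) :
    (p : ℝ) / (2 * p + 1) * ((Y - ∑ u ∈ U, (((2 * p + 1).factorial : ℝ) * D u /
      P0 (2 * p + 1) (Y - 1)) ^ 2) / Y) ≤ P0 (p + 2) y / P0 (p + 2) Y - 1 := by
  have hp' : (1 : ℝ) ≤ p := by exact_mod_cast hp
  have hfac1 : (0 : ℝ) < ((p + 1).factorial : ℝ) := by exact_mod_cast Nat.factorial_pos _
  have hY0 : 0 < Y := by linarith
  have hPY : 0 < P0 (2 * p + 1) (Y - 1) := P0_pos (by push_cast; linarith)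
  have hPY2 : 0 < P0 (p + 1) (Y - 1) := P0_pos (by push_cast; linarith)
  obtain ⟨β, hβ1, hβ2, hβ3⟩ := ratio (p := p) (by omega) (w := Y - 1) hY
  have hpp : (0 : ℝ) < (p : ℝ) / (p + 1) := by positivity
  have hβ0 : 0 < β := hpp.trans_le hβ1
  have hγ : (p : ℝ) / (2 * p + 1) ≤ β / (1 + β) := by
    rw [div_le_div_iff₀ (by positivity) (by positivity)]
    rw [div_le_iff₀ (by positivity)] at hβ1
    linarith
  obtain ⟨ζ, hζ⟩ : ∃ ζ : ι → ℝ, ∀ u, ζ u = ((2 * p + 1).factorial : ℝ) * D u /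
    P0 (2 * p + 1) (Y - 1) := ⟨_, fun _ => rfl⟩
  have hsumζ : ∑ u ∈ U, ζ u = Y := by
    rw [sum_congr rfl fun u _ => hζ u, ← sum_div, hD, P0_shift (2 * p + 1) Y]
    field_simp
  rw [sum_congr rfl fun u _ => by rw [← hζ u]]
  obtain ⟨S2, hS2⟩ : ∃ S2, S2 = ∑ u ∈ U, ζ u ^ 2 := ⟨_, rfl⟩
  rw [← hS2]
  have h1 : ∀ u ∈ U, ζ u * (1 + β / (1 + β) * (1 - ζ u)) ≤
      ((p + 1).factorial : ℝ) * d u / P0 (p + 1) (Y - 1) := by
    intro u hu
    rcases hv u hu with h2 | ⟨x, hx, h2, h3⟩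
    · have h3 : ζ u = 0 := by rw [hζ, h2.1, mul_zero, zero_div]
      rw [h3, zero_mul]
      exact div_nonneg (mul_nonneg hfac1.le h2.2) hPY2.le
    · have h4 : ζ u = P0 (2 * p + 1) x / P0 (2 * p + 1) (Y - 1) := by
        rw [hζ, h2]
      rw [h4]
      refine ((hβ3 x hx).2).trans ?_
      exact div_le_div_of_nonneg_right h3 hPY2.le
  have h2 := sum_le_sum h1
  rw [← sum_div, hd] at h2
  have h3 : ∑ u ∈ U, ζ u * (1 + β / (1 + β) * (1 - ζ u)) = Y + β / (1 + β) * (Y - S2) := by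
    have : ∀ u ∈ U, ζ u * (1 + β / (1 + β) * (1 - ζ u)) =
        ζ u + β / (1 + β) * (ζ u - ζ u ^ 2) := fun u _ => by ring
    rw [sum_congr rfl this, sum_add_distrib, ← mul_sum, sum_sub_distrib, hsumζ, hS2]
  rw [h3] at h2
  obtain ⟨E, hE⟩ : ∃ E, E = P0 (p + 2) y / P0 (p + 2) Y := ⟨_, rfl⟩
  have hE1 : 1 ≤ E := by
    rw [hE, one_le_div (P0_pos (by push_cast; linarith))]
    exact P0_mono (by push_cast; linarith) hYy
  have h4 : P0 (p + 2) y / P0 (p + 1) (Y - 1) = Y * E := by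
    rw [hE, P0_shift (p + 1) Y]
    field_simp
  rw [h4] at h2
  rw [← hE]
  obtain ⟨X2, hX2⟩ : ∃ X2, X2 = (Y - S2) / Y := ⟨_, rfl⟩
  rw [← hX2]
  have h5 : β / (1 + β) * X2 ≤ E - 1 := by
    rw [hX2, mul_div_assoc', div_le_iff₀ hY0]
    linarith
  rcases le_or_gt X2 0 with h6 | h6
  · have : (p : ℝ) / (2 * p + 1) * X2 ≤ 0 :=
      mul_nonpos_of_nonneg_of_nonpos (by positivity) h6
    linarith
  · have := mul_le_mul_of_nonneg_right hγ h6.le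
    linarith

/-- `B (y - S) ≤ c max 0 ((y - S) / y)` -/
theorem fin_term {B y S c : ℝ} (hy : 0 < y) (hB : 0 ≤ B) (hBc : y * B ≤ c) :
    B * (y - S) ≤ c * max 0 ((y - S) / y) := by
  have e : B * (y - S) = (y * B) * ((y - S) / y) := by field_simp
  rw [e]
  have h1 : (y * B) * ((y - S) / y) ≤ (y * B) * max 0 ((y - S) / y) :=
    mul_le_mul_of_nonneg_left (le_max_right _ _) (by positivity)
  exact h1.trans (mul_le_mul_of_nonneg_right hBc (le_max_left _ _))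

theorem step2 {ι : Type*} (U : Finset ι) (d D z Z : ι → ℝ) {p : ℕ} {a y Y : ℝ} (hp : 10 ≤ p)
    (ha : 6 * ((p : ℝ) + 2) ^ 2 ≤ a) (haY : a ≤ Y) (hYy : Y ≤ y)
    (hd : ∑ u ∈ U, ((p + 1).factorial : ℝ) * d u = P0 (p + 2) y)
    (hD : ∑ u ∈ U, ((2 * p + 1).factorial : ℝ) * D u = P0 (2 * p + 2) Y)
    (hz1 : ∀ u ∈ U, a - 1 ≤ z u) (hz2 : ∀ u ∈ U, z u ≤ y)
    (hz3 : ∀ u ∈ U, P0 (p + 2) y - P0 (p + 2) (z u) = ((p + 2).factorial : ℝ) * d u)
    (hZ1 : ∀ u ∈ U, a - 1 ≤ Z u) (hZ2 : ∀ u ∈ U, Z u ≤ Y)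
    (hZ3 : ∀ u ∈ U, P0 (2 * p + 2) Y - P0 (2 * p + 2) (Z u) = ((2 * p + 2).factorial : ℝ) * D u)
    (hv : ∀ u ∈ U, (D u = 0 ∧ 0 ≤ d u) ∨ ∃ x : ℝ, 2 * (p : ℝ) < x ∧
      ((2 * p + 1).factorial : ℝ) * D u = P0 (2 * p + 1) x ∧
      P0 (p + 1) x ≤ ((p + 1).factorial : ℝ) * d u) :
    Gp (a / 2) y + Hp (a / 2) Y ≤
      ∑ u ∈ U, ((Gp (a / 2) (z u) - Gp (a / 2) y) + (Hp (a / 2) (Z u) - Hp (a / 2) Y)) := by
  have hp' : (10 : ℝ) ≤ p := by exact_mod_cast hp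
  have h72 : 72 * ((p : ℝ) + 2) ≤ a := by nlinarith
  have hw : 2 * (p : ℝ) * (p + 1) ≤ a - 1 := by nlinarith
  have hy0 : 0 < y := by linarith
  have hY0 : 0 < Y := by linarith
  have hfac1 : (0 : ℝ) < ((p + 1).factorial : ℝ) := by exact_mod_cast Nat.factorial_pos _
  have hdnn : ∀ u ∈ U, 0 ≤ d u := by
    intro u hu
    rcases hv u hu with h1 | ⟨x, hx, -, h2⟩
    · exact h1.2
    · have h3 : 0 < P0 (p + 1) x := P0_pos (by push_cast; linarith)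
      exact (pos_of_mul_pos_right (h3.trans_le h2) hfac1.le).le
  have hPy : 0 < P0 (p + 1) (y - 1) := P0_pos (by push_cast; linarith)
  have hPY : 0 < P0 (2 * p + 1) (Y - 1) := P0_pos (by push_cast; linarith)
  have hup := up_level U d D (p := p) (by omega) (by linarith) (by linarith) hYy hd hD hdnn hv
  have hdown := down_level U d D (p := p) (by omega) (by linarith) (by linarith) hYy hd hD hv
  have hl1 := level1 (p := p) (κ := a / 2) (y := y) (by linarith) (by linarith)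
  have hl2 := level2 (p := p) (κ := a / 2) (y := Y) (by linarith) (by linarith)
  obtain ⟨B1, hB1⟩ : ∃ B1, B1 = ((p : ℝ) + 1 + 1) * P0 (p + 1) (y - 1) /
    P1 (p + 1 + 1) (y - 1) * (1 / y ^ 2 - a / 2 / y ^ 3) -
    (Gp (a / 2) (y - 1) - Gp (a / 2) y) := ⟨_, rfl⟩
  obtain ⟨B2, hB2⟩ : ∃ B2, B2 = (2 * (p : ℝ) + 1 + 1) * P0 (2 * p + 1) (Y - 1) /
    P1 (2 * p + 1 + 1) (Y - 1) * (a / 2 / Y ^ 3) -
    (Hp (a / 2) (Y - 1) - Hp (a / 2) Y) := ⟨_, rfl⟩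
  rw [← hB1] at hl1
  rw [← hB2] at hl2
  have hex := hexact (a := a) hy0 hY0
  obtain ⟨A1, hA1⟩ : ∃ A1, A1 = Gp (a / 2) (y - 1) - Gp (a / 2) y := ⟨_, rfl⟩
  obtain ⟨A2, hA2⟩ : ∃ A2, A2 = Hp (a / 2) (Y - 1) - Hp (a / 2) Y := ⟨_, rfl⟩
  rw [← hA1, ← hA2] at hex
  obtain ⟨S1, hS1⟩ : ∃ S1, S1 = ∑ u ∈ U, (((p + 1).factorial : ℝ) * d u /
    P0 (p + 1) (y - 1)) ^ 2 := ⟨_, rfl⟩
  obtain ⟨S2, hS2⟩ : ∃ S2, S2 = ∑ u ∈ U, (((2 * p + 1).factorial : ℝ) * D u /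
    P0 (2 * p + 1) (Y - 1)) ^ 2 := ⟨_, rfl⟩
  rw [← hS1] at hup
  rw [← hS2] at hdown
  have hsum1 : ∑ u ∈ U, ((p + 1).factorial : ℝ) * d u / P0 (p + 1) (y - 1) = y := by
    rw [← sum_div, hd, P0_shift (p + 1) y]
    field_simp
  have hsum2 : ∑ u ∈ U, ((2 * p + 1).factorial : ℝ) * D u / P0 (2 * p + 1) (Y - 1) = Y := by
    rw [← sum_div, hD, P0_shift (2 * p + 1) Y]
    field_simp
  have hL1 : A1 * y - B1 * (y - S1) ≤ ∑ u ∈ U, (Gp (a / 2) (z u) - Gp (a / 2) y) := by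
    have h1 : ∀ u ∈ U, A1 * (((p + 1).factorial : ℝ) * d u / P0 (p + 1) (y - 1)) -
        B1 * (((p + 1).factorial : ℝ) * d u / P0 (p + 1) (y - 1) -
        (((p + 1).factorial : ℝ) * d u / P0 (p + 1) (y - 1)) ^ 2) ≤
        Gp (a / 2) (z u) - Gp (a / 2) y := by
      intro u hu
      rw [hA1]
      refine gp_bound (a := a) (by linarith) (by ring) (by linarith) (by linarith) ?_
        (hz1 u hu) (hz2 u hu) (hz3 u hu)
      rw [hB1]
      ring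
    have h2 := sum_le_sum h1
    rw [sum_sub_distrib, ← mul_sum, ← mul_sum, sum_sub_distrib, hsum1, ← hS1] at h2
    exact h2
  have hL2 : A2 * Y - B2 * (Y - S2) ≤ ∑ u ∈ U, (Hp (a / 2) (Z u) - Hp (a / 2) Y) := by
    have h1 : ∀ u ∈ U, A2 * (((2 * p + 1).factorial : ℝ) * D u / P0 (2 * p + 1) (Y - 1)) -
        B2 * (((2 * p + 1).factorial : ℝ) * D u / P0 (2 * p + 1) (Y - 1) -
        (((2 * p + 1).factorial : ℝ) * D u / P0 (2 * p + 1) (Y - 1)) ^ 2) ≤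
        Hp (a / 2) (Z u) - Hp (a / 2) Y := by
      intro u hu
      rw [hA2]
      refine hp_bound (a := a) (by linarith) (by linarith) (by linarith) ?_
        (hZ1 u hu) (hZ2 u hu) (hZ3 u hu)
      rw [hB2]
      ring
    have h2 := sum_le_sum h1
    rw [sum_sub_distrib, ← mul_sum, ← mul_sum, sum_sub_distrib, hsum2, ← hS2] at h2
    exact h2
  have hS1nn : 0 ≤ S1 := by rw [hS1]; exact sum_nonneg fun u _ => sq_nonneg _
  have hS2nn : 0 ≤ S2 := by rw [hS2]; exact sum_nonneg fun u _ => sq_nonneg _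
  have hX1le : (y - S1) / y ≤ 1 := by rw [div_le_one hy0]; linarith
  have hX2le : (Y - S2) / Y ≤ 1 := by rw [div_le_one hY0]; linarith
  have hstar := star_num (p := p) hp (a := a) (y := y) (Y := Y) (X1 := (y - S1) / y)
    (X2 := (Y - S2) / Y) ha haY hYy rfl rfl hX1le hup hX2le hdown
  have hfin1 := fin_term (S := S1) hy0 hl1.1 hl1.2
  have hfin2 := fin_term (S := S2) hY0 hl2.1 hl2.2
  rw [sum_add_distrib]
  linarith

end Pool.Agent.Lib.MP_455133_co.LS
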