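import Mathlib
import Pool.Agent.Lib.MP_455133_co.LS.Step2

/-!
The potential in two levels lies above the chord: the inequality between real numbers.
-/

namespace Pool.Agent.Lib.MP_455133_co.LS

open Finset Pool.Agent.Lib.MP_455133_co.LR

theorem tan_Gp {κ x t : ℝ} (hκ : 0 < κ) (hx : 2 * κ ≤ x + 1) (ht : 2 * κ ≤ t + 1) :
    Gp κ t - (t + 1 - κ) / (t + 1) ^ 3 * (x - t) ≤ Gp κ x := by
  have hx0 : 0 < x + 1 := by linarith
  have ht0 : 0 < t + 1 := by linarith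
  have e : Gp κ x - (Gp κ t - (t + 1 - κ) / (t + 1) ^ 3 * (x - t)) =
      (x - t) ^ 2 / ((x + 1) * (t + 1) ^ 2) *
        (1 - κ / 2 * (1 / (x + 1) + 2 / (t + 1))) := by
    rw [Gp, Gp]
    field_simp
    ring
  have h1 : κ * (1 / (x + 1)) ≤ 1 / 2 := by
    rw [mul_one_div, div_le_iff₀ hx0]
    linarith
  have h2 : κ * (2 / (t + 1)) ≤ 1 := by
    rw [mul_div_assoc', div_le_iff₀ ht0]
    linarith
  have h3 : 0 ≤ (x - t) ^ 2 / ((x + 1) * (t + 1) ^ 2) *
        (1 - κ / 2 * (1 / (x + 1) + 2 / (t + 1))) := by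
    apply mul_nonneg (by positivity)
    nlinarith
  linarith

theorem tan_Hp {κ x t : ℝ} (hκ : 0 < κ) (hx0 : 0 < x + 1) (ht0 : 0 < t + 1) :
    Hp κ t - κ / (t + 1) ^ 3 * (x - t) ≤ Hp κ x := by
  have e : Hp κ x - (Hp κ t - κ / (t + 1) ^ 3 * (x - t)) =
      κ / 2 * (x - t) ^ 2 / ((x + 1) * (t + 1) ^ 2) * (1 / (x + 1) + 2 / (t + 1)) := by
    rw [Hp, Hp]
    field_simp
    ring
  have h3 : 0 ≤ κ / 2 * (x - t) ^ 2 / ((x + 1) * (t + 1) ^ 2) *
      (1 / (x + 1) + 2 / (t + 1)) := by positivity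
  linarith

/-- the tangent, in terms of the falling products -/
theorem tan_P0 {i : ℕ} {x t w : ℝ} (hw : 0 ≤ w) (hx : ((i + 1 : ℕ) : ℝ) ≤ x + 1)
    (ht : ((i + 1 : ℕ) : ℝ) < t + 1) (ht0 : 0 < t) :
    w * (x - t) ≤ w / P1 (i + 1) t * (P0 (i + 1) x - P0 (i + 1) t) := by
  have h1 := tangent_le (f := P0 (i + 1)) (f' := P1 (i + 1)) (c := ((i + 1 : ℕ) : ℝ) - 1)
    (fun x => hasDerivAt_P0 _ x) (fun x x' hx hxx' =>
      mvt_le (F' := P2 (i + 1)) hxx' (fun t _ _ => hasDerivAt_P1 _ t)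
        (fun t h3 _ => (P_nonneg (by linarith)).2.2.1))
    (x := t) (y := x) (by linarith) (by linarith)
  have hP := P1_pos ht0 ht
  have h2 : P1 (i + 1) t * (x - t) ≤ P0 (i + 1) x - P0 (i + 1) t := by linarith
  have h3 := mul_le_mul_of_nonneg_left h2 (div_nonneg hw hP.le)
  have e : w / P1 (i + 1) t * (P1 (i + 1) t * (x - t)) = w * (x - t) := by
    field_simp
  linarith

/-- the quotients at the left end -/
theorem quot_left {i : ℕ} {M : ℝ} (h : ((i + 1 : ℕ) : ℝ) < M) (hM : 1 < M) :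
    ((i : ℝ) + 1) * P0 i (M - 1) / P1 (i + 1) (M - 1) ≤ (M - 1) / (M - (i + 1)) := by
  have hlt : ((i + 1 : ℕ) : ℝ) < (M - 1) + 1 := by linarith
  have h1 := P1_ge hlt.le
  have hP1 := P1_pos (by linarith) hlt
  have e1 : P0 (i + 1) (M - 1) = P0 i (M - 1) * (M - 1 - i) := rfl
  push_cast at h1 h
  rw [e1] at h1
  rw [div_le_div_iff₀ hP1 (by linarith)]
  have e2 : M - 1 - (i : ℝ) = M - (i + 1) := by ring
  rw [e2] at h1
  linarith

/-- the quotients at the right end -/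
theorem quot_right {i : ℕ} {M : ℝ} (h : ((i + 1 : ℕ) : ℝ) < M) (hM : 0 < M) :
    (M - i) / M ≤ ((i : ℝ) + 1) * P0 i (M - 1) / P1 (i + 1) M := by
  have hlt : ((i + 1 : ℕ) : ℝ) < M + 1 := by linarith
  have h1 := P1_le hlt.le
  have hP1 := P1_pos hM hlt
  rw [P0_shift] at h1
  push_cast at h1 h
  rw [div_le_div_iff₀ hM hP1]
  have e2 : M + 1 - ((i : ℝ) + 1) = M - i := by ring
  rw [e2] at h1
  linarith

theorem chord_fin {j κ M β T0 T1 S0 S1 : ℝ} (hj : 12 ≤ j) (hκ : 3 * j ^ 2 ≤ κ)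
    (hM : 2 * κ ≤ M) (hβ : 10 / 11 ≤ β) (hT0 : T0 ≤ (M - 1) / (M - j))
    (hT1 : (M - (j - 1)) / M ≤ T1) (hS0 : S0 ≤ (M - 1) / (M - (2 * j - 2)))
    (hS1 : (M - (2 * j - 3)) / M ≤ S1) :
    T0 * ((M - κ) / M ^ 3) - T1 * ((M + 1 - κ) / (M + 1) ^ 3) ≤
      β * (S1 * (κ / (M + 1) ^ 3)) - (S0 * (κ / M ^ 3) - S1 * (κ / (M + 1) ^ 3)) := by
  have hM6 : 6 * j ^ 2 ≤ M := by linarith
  have h72 : 72 * j ≤ M := by nlinarith
  have hM0 : 864 ≤ M := by nlinarith
  have hMp : 0 < M := by linarith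
  have hκ0 : 0 < κ := by nlinarith
  have hκj : 36 * j ≤ κ := by nlinarith
  -- comparison of the cubes
  have hc : (1 - 3 / M) / M ^ 3 ≤ 1 / (M + 1) ^ 3 := by
    rw [div_le_div_iff₀ (by positivity) (by positivity)]
    have e : (1 - 3 / M) * (M + 1) ^ 3 = 1 * M ^ 3 - (6 * M ^ 2 + 8 * M + 3) / M := by
      field_simp
      ring
    have : 0 ≤ (6 * M ^ 2 + 8 * M + 3) / M := by positivity
    linarith
  have h3M : 3 / M ≤ 1 / 288 := by
    rw [div_le_div_iff₀ hMp (by norm_num)]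
    linarith
  obtain ⟨c, hcd⟩ : ∃ c, c = 1 / M ^ 3 := ⟨_, rfl⟩
  have hc0 : 0 < c := by rw [hcd]; positivity
  obtain ⟨c', hcd'⟩ : ∃ c', c' = 1 / (M + 1) ^ 3 := ⟨_, rfl⟩
  have hc1 : (1 - 3 / M) * c ≤ c' := by
    rw [hcd, hcd', mul_one_div]
    exact hc
  have hS1' : 35 / 36 ≤ S1 := by
    refine le_trans ?_ hS1
    rw [div_le_div_iff₀ (by norm_num) hMp]
    linarith
  have hS0' : S0 ≤ 36 / 35 := by
    refine hS0.trans ?_
    rw [div_le_div_iff₀ (by linarith) (by norm_num)]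
    linarith
  have hT1' : 1 - (j - 1) / M ≤ T1 := by
    refine le_trans (le_of_eq ?_) hT1
    field_simp
  have hT1p : 0 ≤ T1 := by
    refine le_trans ?_ hT1
    apply div_nonneg (by linarith) hMp.le
  have e1 : (M - κ) / M ^ 3 = (M - κ) * c := by rw [hcd, mul_one_div]
  have e2 : (M + 1 - κ) / (M + 1) ^ 3 = (M + 1 - κ) * c' := by rw [hcd', mul_one_div]
  have e3 : κ / M ^ 3 = κ * c := by rw [hcd, mul_one_div]
  have e4 : κ / (M + 1) ^ 3 = κ * c' := by rw [hcd', mul_one_div]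
  rw [e1, e2, e3, e4]
  -- the right side
  have r1 : 287 / 288 * c ≤ c' := by
    refine le_trans ?_ hc1
    apply mul_le_mul_of_nonneg_right _ hc0.le
    linarith
  have hc0' : 0 < c' := by linarith
  have r2 : 4 / 5 * (κ * c) ≤
      β * (S1 * (κ * c')) - (S0 * (κ * c) - S1 * (κ * c')) := by
    have r3 : 35 / 36 * (κ * c') ≤ S1 * (κ * c') :=
      mul_le_mul_of_nonneg_right hS1' (by positivity)
    have r4 : 0 ≤ S1 * (κ * c') := by
      have : 0 ≤ S1 := by linarith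
      positivity
    have r5 : 10 / 11 * (S1 * (κ * c')) ≤ β * (S1 * (κ * c')) :=
      mul_le_mul_of_nonneg_right hβ r4
    have r6 : S0 * (κ * c) ≤ 36 / 35 * (κ * c) :=
      mul_le_mul_of_nonneg_right hS0' (by positivity)
    have r7 : κ * (287 / 288 * c) ≤ κ * c' := mul_le_mul_of_nonneg_left r1 hκ0.le
    linarith [mul_pos hκ0 hc0]
  -- the left side
  have l1 : T1 * ((M - κ) * ((1 - 3 / M) * c)) ≤ T1 * ((M + 1 - κ) * c') := by
    apply mul_le_mul_of_nonneg_left _ hT1p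
    have l2 : (M - κ) * ((1 - 3 / M) * c) ≤ (M - κ) * c' :=
      mul_le_mul_of_nonneg_left hc1 (by linarith)
    linarith
  have l3 : T0 * ((M - κ) * c) - T1 * ((M - κ) * ((1 - 3 / M) * c)) =
      (M - κ) * c * (T0 - T1 * (1 - 3 / M)) := by ring
  have hT0' : T0 ≤ 1 + (36 / 35) * ((j - 1) / M) := by
    refine hT0.trans ?_
    have q1 : (M - 1) / (M - j) = 1 + (j - 1) / (M - j) := by
      have : M - j ≠ 0 := by intro h; linarith
      field_simp
      ring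
    rw [q1]
    have q2 : (j - 1) / (M - j) ≤ 36 / 35 * ((j - 1) / M) := by
      rw [div_le_iff₀ (by linarith)]
      have q3 : 36 / 35 * ((j - 1) / M) * (M - j) = (j - 1) * (36 / 35 * ((M - j) / M)) := by
        field_simp
      rw [q3]
      have q4 : 1 ≤ 36 / 35 * ((M - j) / M) := by
        rw [mul_div_assoc', le_div_iff₀ hMp]
        linarith
      nlinarith
    linarith
  have l4 : T0 - T1 * (1 - 3 / M) ≤ (3 * j) / M := by
    have q1 : (1 - (j - 1) / M) * (1 - 3 / M) ≤ T1 * (1 - 3 / M) :=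
      mul_le_mul_of_nonneg_right hT1' (by linarith)
    have q2 : (j - 1) / M * (3 / M) ≥ 0 := by
      have : 0 ≤ j - 1 := by linarith
      positivity
    have q3 : (3 * j) / M = 3 * ((j - 1) / M) + 3 / M := by ring
    have q4 : 0 ≤ (j - 1) / M := div_nonneg (by linarith) hMp.le
    have q5 : (1 - (j - 1) / M) * (1 - 3 / M) = 1 - (j - 1) / M - 3 / M +
      (j - 1) / M * (3 / M) := by ring
    linarith
  have l5 : (M - κ) * c * (T0 - T1 * (1 - 3 / M)) ≤ M * c * (3 * j / M) := by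
    have q1 : (M - κ) * c * (T0 - T1 * (1 - 3 / M)) ≤ (M - κ) * c * (3 * j / M) :=
      mul_le_mul_of_nonneg_left l4 (mul_nonneg (by linarith) hc0.le)
    refine q1.trans ?_
    apply mul_le_mul_of_nonneg_right _ (by positivity)
    apply mul_le_mul_of_nonneg_right _ hc0.le
    linarith
  have l6 : M * c * (3 * j / M) = 3 * j * c := by field_simp
  have l7 : 3 * j * c ≤ 4 / 5 * (κ * c) := by
    have : 3 * j ≤ 4 / 5 * κ := by linarith
    nlinarith
  linarith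

/-- the inequality between the chord and the potential -/
theorem chord_in {p : ℕ} (hp : 10 ≤ p) {a M y Y z v β : ℝ} (ha : 6 * ((p : ℝ) + 2) ^ 2 ≤ a)
    (hM : a ≤ M) (hy : a ≤ y) (hY : a ≤ Y) (hz0 : 0 ≤ z) (hz1 : z ≤ 1)
    (hβ : (p : ℝ) / (p + 1) ≤ β) (hv : v = z * (1 - β * (1 - z)))
    (h1 : P0 (p + 2) y = P0 (p + 2) (M - 1) + z * (((p : ℝ) + 1 + 1) * P0 (p + 1) (M - 1)))
    (h2 : P0 (2 * p + 2) Y ≤ P0 (2 * p + 2) (M - 1) +
      v * ((2 * (p : ℝ) + 1 + 1) * P0 (2 * p + 1) (M - 1))) :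
    1 / M - z / (M * (M + 1)) ≤ Gp (a / 2) y + Hp (a / 2) Y := by
  have hp' : (10 : ℝ) ≤ p := by exact_mod_cast hp
  obtain ⟨κ, hκ⟩ : ∃ κ, κ = a / 2 := ⟨_, rfl⟩
  obtain ⟨j, hj⟩ : ∃ j : ℝ, j = p + 2 := ⟨_, rfl⟩
  have ha2 : a = 2 * κ := by linarith
  rw [← hκ]
  rw [← hj, ha2] at ha
  rw [ha2] at hM hy hY
  have hj12 : 12 ≤ j := by linarith
  have h72 : 72 * j ≤ M := by nlinarith
  have hbig : 72 * j ≤ y := by nlinarith
  have hBig : 72 * j ≤ Y := by nlinarith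
  have hM0 : 0 < M := by linarith
  have hκ0 : 0 < κ := by nlinarith
  have hMκ : 72 * j ≤ 2 * κ := by nlinarith
  -- the quotients
  set T0 : ℝ := ((p + 1 : ℕ) + 1 : ℝ) * P0 (p + 1) (M - 1) / P1 (p + 1 + 1) (M - 1) with hT0
  set T1 : ℝ := ((p + 1 : ℕ) + 1 : ℝ) * P0 (p + 1) (M - 1) / P1 (p + 1 + 1) M with hT1
  set S0 : ℝ := ((2 * p + 1 : ℕ) + 1 : ℝ) * P0 (2 * p + 1) (M - 1) / P1 (2 * p + 1 + 1) (M - 1)
    with hS0
  set S1 : ℝ := ((2 * p + 1 : ℕ) + 1 : ℝ) * P0 (2 * p + 1) (M - 1) / P1 (2 * p + 1 + 1) M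
    with hS1
  have b1 := quot_left (i := p + 1) (M := M) (by push_cast; linarith) (by linarith)
  have b2 := quot_right (i := p + 1) (M := M) (by push_cast; linarith) (by linarith)
  have b3 := quot_left (i := 2 * p + 1) (M := M) (by push_cast; linarith) (by linarith)
  have b4 := quot_right (i := 2 * p + 1) (M := M) (by push_cast; linarith) (by linarith)
  rw [← hT0] at b1
  rw [← hT1] at b2
  rw [← hS0] at b3
  rw [← hS1] at b4
  have hβ' : 10 / 11 ≤ β := by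
    refine le_trans ?_ hβ
    rw [div_le_div_iff₀ (by norm_num) (by positivity)]
    linarith
  have hfin := chord_fin (j := j) (κ := κ) (M := M) (β := β) (T0 := T0) (T1 := T1) (S0 := S0)
    (S1 := S1) hj12 (by linarith) hM hβ' (by
      refine b1.trans (le_of_eq ?_)
      rw [hj]; push_cast; ring) (by
      refine le_trans (le_of_eq ?_) b2
      rw [hj]; push_cast; ring) (by
      refine b3.trans (le_of_eq ?_)
      rw [hj]; push_cast; ring) (by
      refine le_trans (le_of_eq ?_) b4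
      rw [hj]; push_cast; ring)
  -- tangents of the first function
  have hd1 : P0 (p + 1 + 1) M - P0 (p + 1 + 1) (M - 1) =
      (((p + 1 : ℕ) : ℝ) + 1) * P0 (p + 1) (M - 1) := P0_diff (p + 1) M
  have hd2 : P0 (2 * p + 1 + 1) M - P0 (2 * p + 1 + 1) (M - 1) =
      (((2 * p + 1 : ℕ) : ℝ) + 1) * P0 (2 * p + 1) (M - 1) := P0_diff (2 * p + 1) M
  have c1 : Gp κ (M - 1) - z * (T0 * ((M - κ) / M ^ 3)) ≤ Gp κ y := by
    have k1 := tan_Gp (κ := κ) (x := y) (t := M - 1) hκ0 (by linarith) (by linarith)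
    have k2 := tan_P0 (i := p + 1) (x := y) (t := M - 1) (w := (M - κ) / M ^ 3)
      (div_nonneg (by linarith) (by positivity)) (by push_cast; linarith)
      (by push_cast; linarith) (by linarith)
    rw [show M - 1 + 1 = M by ring] at k1
    have k3 : P0 (p + 1 + 1) y - P0 (p + 1 + 1) (M - 1) =
        z * ((((p + 1 : ℕ) : ℝ) + 1) * P0 (p + 1) (M - 1)) := by
      have : P0 (p + 1 + 1) y = P0 (p + 2) y := rfl
      rw [this, h1]
      push_cast
      ring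
    rw [k3] at k2
    have k4 : (M - κ) / M ^ 3 / P1 (p + 1 + 1) (M - 1) *
        (z * ((((p + 1 : ℕ) : ℝ) + 1) * P0 (p + 1) (M - 1))) =
        z * (T0 * ((M - κ) / M ^ 3)) := by
      rw [hT0]; ring
    rw [k4] at k2
    linarith
  have c2 : Gp κ M + (1 - z) * (T1 * ((M + 1 - κ) / (M + 1) ^ 3)) ≤ Gp κ y := by
    have k1 := tan_Gp (κ := κ) (x := y) (t := M) hκ0 (by linarith) (by linarith)
    have k2 := tan_P0 (i := p + 1) (x := y) (t := M) (w := (M + 1 - κ) / (M + 1) ^ 3)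
      (div_nonneg (by linarith) (by positivity)) (by push_cast; linarith)
      (by push_cast; linarith) (by linarith)
    have k3 : P0 (p + 1 + 1) y - P0 (p + 1 + 1) M =
        -((1 - z) * ((((p + 1 : ℕ) : ℝ) + 1) * P0 (p + 1) (M - 1))) := by
      have e1 : P0 (p + 1 + 1) y = P0 (p + 2) y := rfl
      have e2 : P0 (p + 1 + 1) (M - 1) = P0 (p + 2) (M - 1) := rfl
      rw [e2] at hd1
      have e3 : P0 (p + 1 + 1) M = P0 (p + 2) (M - 1) +
        (((p + 1 : ℕ) : ℝ) + 1) * P0 (p + 1) (M - 1) := by linarith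
      rw [e1, h1, e3]
      push_cast
      ring
    rw [k3] at k2
    have k4 : (M + 1 - κ) / (M + 1) ^ 3 / P1 (p + 1 + 1) M *
        -((1 - z) * ((((p + 1 : ℕ) : ℝ) + 1) * P0 (p + 1) (M - 1))) =
        -((1 - z) * (T1 * ((M + 1 - κ) / (M + 1) ^ 3))) := by
      rw [hT1]; ring
    rw [k4] at k2
    linarith
  -- tangents of the second function
  have hPM : 0 < P1 (2 * p + 1 + 1) M :=
    P1_pos hM0 (by push_cast; linarith)
  have hPM1 : 0 < P1 (2 * p + 1 + 1) (M - 1) :=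
    P1_pos (by linarith) (by push_cast; linarith)
  have c3 : Hp κ (M - 1) - v * (S0 * (κ / M ^ 3)) ≤ Hp κ Y := by
    have k1 := tan_Hp (κ := κ) (x := Y) (t := M - 1) hκ0 (by linarith) (by linarith)
    have k2 := tan_P0 (i := 2 * p + 1) (x := Y) (t := M - 1) (w := κ / M ^ 3)
      (by positivity) (by push_cast; linarith)
      (by push_cast; linarith) (by linarith)
    rw [show M - 1 + 1 = M by ring] at k1
    have k3 : P0 (2 * p + 1 + 1) Y - P0 (2 * p + 1 + 1) (M - 1) ≤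
        v * ((((2 * p + 1 : ℕ) : ℝ) + 1) * P0 (2 * p + 1) (M - 1)) := by
      have e1 : P0 (2 * p + 1 + 1) Y = P0 (2 * p + 2) Y := rfl
      have e2 : P0 (2 * p + 1 + 1) (M - 1) = P0 (2 * p + 2) (M - 1) := rfl
      rw [e1, e2]
      push_cast
      linarith
    have k5 := mul_le_mul_of_nonneg_left k3
      (show 0 ≤ κ / M ^ 3 / P1 (2 * p + 1 + 1) (M - 1) by positivity)
    have k4 : κ / M ^ 3 / P1 (2 * p + 1 + 1) (M - 1) *
        (v * ((((2 * p + 1 : ℕ) : ℝ) + 1) * P0 (2 * p + 1) (M - 1))) =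
        v * (S0 * (κ / M ^ 3)) := by
      rw [hS0]; ring
    rw [k4] at k5
    linarith
  have c4 : Hp κ M + (1 - v) * (S1 * (κ / (M + 1) ^ 3)) ≤ Hp κ Y := by
    have k1 := tan_Hp (κ := κ) (x := Y) (t := M) hκ0 (by linarith) (by linarith)
    have k2 := tan_P0 (i := 2 * p + 1) (x := Y) (t := M) (w := κ / (M + 1) ^ 3)
      (by positivity) (by push_cast; linarith)
      (by push_cast; linarith) (by linarith)
    have k3 : P0 (2 * p + 1 + 1) Y - P0 (2 * p + 1 + 1) M ≤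
        -((1 - v) * ((((2 * p + 1 : ℕ) : ℝ) + 1) * P0 (2 * p + 1) (M - 1))) := by
      have e1 : P0 (2 * p + 1 + 1) Y = P0 (2 * p + 2) Y := rfl
      have e2 : P0 (2 * p + 1 + 1) (M - 1) = P0 (2 * p + 2) (M - 1) := rfl
      rw [e2] at hd2
      have e3 : P0 (2 * p + 1 + 1) M = P0 (2 * p + 2) (M - 1) +
        (((2 * p + 1 : ℕ) : ℝ) + 1) * P0 (2 * p + 1) (M - 1) := by linarith
      rw [e1, e3]
      push_cast
      linarith
    have k5 := mul_le_mul_of_nonneg_left k3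
      (show 0 ≤ κ / (M + 1) ^ 3 / P1 (2 * p + 1 + 1) M by positivity)
    have k4 : κ / (M + 1) ^ 3 / P1 (2 * p + 1 + 1) M *
        -((1 - v) * ((((2 * p + 1 : ℕ) : ℝ) + 1) * P0 (2 * p + 1) (M - 1))) =
        -((1 - v) * (S1 * (κ / (M + 1) ^ 3))) := by
      rw [hS1]; ring
    rw [k4] at k5
    linarith
  -- the combination
  obtain ⟨g0, hg0⟩ : ∃ g0, g0 = T0 * ((M - κ) / M ^ 3) := ⟨_, rfl⟩
  obtain ⟨g1, hg1⟩ : ∃ g1, g1 = T1 * ((M + 1 - κ) / (M + 1) ^ 3) := ⟨_, rfl⟩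
  obtain ⟨H0, hH0⟩ : ∃ H0, H0 = S0 * (κ / M ^ 3) := ⟨_, rfl⟩
  obtain ⟨H1, hH1⟩ : ∃ H1, H1 = S1 * (κ / (M + 1) ^ 3) := ⟨_, rfl⟩
  rw [← hg0] at c1 hfin
  rw [← hg1] at c2 hfin
  rw [← hH0] at c3 hfin
  rw [← hH1] at c4 hfin
  have hH10 : H1 ≤ H0 := by
    have hPP : P1 (2 * p + 1 + 1) (M - 1) ≤ P1 (2 * p + 1 + 1) M := by
      refine mvt_le (F' := P2 (2 * p + 1 + 1)) (by linarith) (fun t _ _ => hasDerivAt_P1 _ t)
        (fun t h3 _ => (P_nonneg (by push_cast; linarith)).2.2.1)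
    have hPn : 0 ≤ P0 (2 * p + 1) (M - 1) := (P_nonneg (by push_cast; linarith)).1
    have hSS : S1 ≤ S0 := by
      rw [hS0, hS1]
      exact div_le_div_of_nonneg_left (by positivity) hPM1 hPP
    have hS0p : 0 ≤ S0 := by rw [hS0]; positivity
    have hkk : κ / (M + 1) ^ 3 ≤ κ / M ^ 3 := by
      apply div_le_div_of_nonneg_left hκ0.le (by positivity)
      exact pow_le_pow_left₀ hM0.le (by linarith) 3
    rw [hH0, hH1]
    exact mul_le_mul hSS hkk (by positivity) hS0p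
  have s1 : (1 - z) * (Gp κ (M - 1) - z * g0) + z * (Gp κ M + (1 - z) * g1) ≤ Gp κ y := by
    have t1 := mul_le_mul_of_nonneg_left c1 (show 0 ≤ 1 - z by linarith)
    have t2 := mul_le_mul_of_nonneg_left c2 hz0
    linarith
  have s2 : (1 - z) * (Hp κ (M - 1) - v * H0) + z * (Hp κ M + (1 - v) * H1) ≤ Hp κ Y := by
    have t1 := mul_le_mul_of_nonneg_left c3 (show 0 ≤ 1 - z by linarith)
    have t2 := mul_le_mul_of_nonneg_left c4 hz0
    linarith
  have e0 : Gp κ (M - 1) + Hp κ (M - 1) = 1 / M := by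
    rw [Gp, Hp, show M - 1 + 1 = M by ring]; ring
  have e1 : Gp κ M + Hp κ M = 1 / (M + 1) := by
    rw [Gp, Hp]; ring
  have e2 : (1 - z) * (1 / M) + z * (1 / (M + 1)) = 1 / M - z / (M * (M + 1)) := by
    field_simp
    ring
  have s3 : 0 ≤ z * (1 - z) * ((β * H1 - (H0 - H1)) - (g0 - g1) + β * (1 - z) * (H0 - H1)) := by
    apply mul_nonneg (mul_nonneg hz0 (by linarith))
    have : 0 ≤ β * (1 - z) * (H0 - H1) :=
      mul_nonneg (mul_nonneg (by linarith) (by linarith)) (by linarith)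
    linarith
  have s4 : z * (1 - z) * ((β * H1 - (H0 - H1)) - (g0 - g1) + β * (1 - z) * (H0 - H1)) =
      z * (1 - v) * H1 - (1 - z) * v * H0 - z * (1 - z) * (g0 - g1) := by
    rw [hv]; ring
  have s5 : (1 - z) * (Gp κ (M - 1) - z * g0) + z * (Gp κ M + (1 - z) * g1) +
      ((1 - z) * (Hp κ (M - 1) - v * H0) + z * (Hp κ M + (1 - v) * H1)) =
      (1 - z) * (Gp κ (M - 1) + Hp κ (M - 1)) + z * (Gp κ M + Hp κ M) +
      (z * (1 - v) * H1 - (1 - z) * v * H0 - z * (1 - z) * (g0 - g1)) := by ring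
  rw [e0, e1, e2, ← s4] at s5
  linarith

end Pool.Agent.Lib.MP_455133_co.LS
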