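import Pool.Agent.Lib.MP_455133_co.LR.KKR
import Pool.Agent.Lib.MP_455133_co.LR.KK2
import Pool.Agent.Lib.MP_455133_co.LR.Chord

/-!
Iterated forms of the Kruskal-Katona theorem: shadows on the level `i` of families of `(i + l)`-sets, for a real
parameter, with one term and with two terms.
-/

set_option linter.unusedSectionVars false

namespace Pool.Agent.Lib.MP_455133_co.LR

open Finset

open scoped FinsetFamily

section

variable {V : Type*} [Fintype V] [DecidableEq V]

/-- The theorem of Lovász, iterated: `F` a nonempty family of `(i + l)`-sets, `|F| ≥ binom(x, i + l)`, `x ≥ i + l - 1` real: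
the members of `F` contain at least `binom(x, i)` sets with `i` elements. -/
theorem kk_iter {i l : ℕ} {F G : Finset (Finset V)} (hF : ∀ e ∈ F, e.card = i + l) (hne : F.Nonempty)
    (hG : ∀ e ∈ F, ∀ S, S ⊆ e → S.card = i → S ∈ G) {x : ℝ} (hx : (i : ℝ) + l ≤ x + 1)
    (h : P0 (i + l) x ≤ ((i + l).factorial : ℝ) * (F.card : ℝ)) : P0 i x ≤ (i.factorial : ℝ) * (G.card : ℝ) := by
  induction l generalizing F with
  | zero =>
    have h1 : F ⊆ G := fun e he => hG e he e (Subset.refl e) (hF e he)
    have h2 : (F.card : ℝ) ≤ (G.card : ℝ) := by exact_mod_cast card_le_card h1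
    exact h.trans (mul_le_mul_of_nonneg_left h2 (Nat.cast_nonneg _))
  | succ l ih =>
    push_cast at hx
    have hFs : ∀ e ∈ ∂ F, ∃ f ∈ F, e ⊆ f ∧ e.card = i + l := by
      intro e he
      obtain ⟨f, hf, a, ha, rfl⟩ := mem_shadow_iff.1 he
      refine ⟨f, hf, erase_subset a f, ?_⟩
      rw [card_erase_of_mem ha, hF f hf]
      omega
    have hne' : (∂ F).Nonempty := by
      obtain ⟨f, hf⟩ := hne
      have h1 : f.Nonempty := by
        rw [← card_pos, hF f hf]
        omega
      obtain ⟨a, ha⟩ := h1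
      exact ⟨f.erase a, mem_shadow_iff.2 ⟨f, hf, a, ha, rfl⟩⟩
    refine ih (F := ∂ F) (fun e he => (hFs e he).choose_spec.2.2) hne' (fun e he S hS hSc => ?_) (by linarith) ?_
    · obtain ⟨f, hf, hef, _⟩ := hFs e he
      exact hG f hf S (hS.trans hef) hSc
    · exact KKR_ge (m := i + l) (fun e he => hF e he) hne (by push_cast; linarith) h

end

/-- One step of `kk_two_iter`. -/
theorem KKC_step {n i m : ℕ} {F : Finset (Finset (Fin n))} (hi : 1 ≤ i) (hF : ∀ e ∈ F, e.card = i + 1) {x : ℝ}
    (hx : (i : ℝ) ≤ x) (hxm : x ≤ m) (h : (m.choose (i + 1) : ℝ) + bb i x ≤ F.card) :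
    (m.choose i : ℝ) + bb (i - 1) x ≤ (∂ F).card := by
  have him : i ≤ m := by exact_mod_cast hx.trans hxm
  have hfac : (0 : ℝ) < (i.factorial : ℝ) := by exact_mod_cast i.factorial_pos
  have hfac' : (0 : ℝ) < ((i - 1).factorial : ℝ) := by exact_mod_cast (i - 1).factorial_pos
  have hb0 : 0 < bb i x := div_pos (P0_pos (by linarith)) hfac
  have hbm : bb i x ≤ (m.choose i : ℝ) := by
    rw [← bb_nat]
    exact div_le_div_of_nonneg_right (P0_mono (by linarith) hxm) hfac.le
  rcases eq_or_lt_of_le him with he | hlt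
  · -- `m = i`
    subst he
    have hx1 : x = (i : ℝ) := le_antisymm hxm hx
    have hFp : F.Nonempty := by
      rw [← card_pos]
      have h1 : (0 : ℝ) < F.card := by
        have h2 : (0 : ℝ) ≤ (i.choose (i + 1) : ℝ) := Nat.cast_nonneg _
        linarith
      exact_mod_cast h1
    obtain ⟨f, hf⟩ := hFp
    have h1 : f.image (fun a => f.erase a) ⊆ ∂ F := by
      intro e he
      obtain ⟨a, ha, rfl⟩ := mem_image.1 he
      exact mem_shadow_iff.2 ⟨f, hf, a, ha, rfl⟩
    have h2 : (f.image fun a => f.erase a).card = i + 1 := by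
      rw [card_image_of_injOn, hF f hf]
      intro a ha b hb hab
      by_contra hne
      have h3 : a ∈ f.erase b := mem_erase.2 ⟨hne, ha⟩
      have h4 : a ∉ f.erase a := fun h => (mem_erase.1 h).1 rfl
      exact h4 (by rw [show f.erase a = f.erase b from hab]; exact h3)
    have h3 : (i : ℝ) + 1 ≤ ((∂ F).card : ℝ) := by
      have h4 := card_le_card h1
      rw [h2] at h4
      exact_mod_cast h4
    have h5 : i.choose (i - 1) = i := by
      obtain ⟨k, rfl⟩ : ∃ k, i = k + 1 := ⟨i - 1, by omega⟩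
      rw [Nat.add_sub_cancel, Nat.choose_succ_self_right]
    rw [hx1, bb_nat, Nat.choose_self, h5]
    push_cast
    linarith
  · have hp1 : ∃ p : ℕ, 1 ≤ p ∧ p ≤ m.choose i ∧ m.choose (i + 1) + p ≤ F.card ∧ bb i x ≤ p := by
      have hle : m.choose (i + 1) ≤ F.card := by
        have h1 : (m.choose (i + 1) : ℝ) ≤ (F.card : ℝ) := by linarith
        exact_mod_cast h1
      refine ⟨min (m.choose i) (F.card - m.choose (i + 1)), ?_, min_le_left _ _, ?_, ?_⟩
      · refine le_min (Nat.choose_pos him) ?_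
        have h1 : (m.choose (i + 1) : ℝ) < (F.card : ℝ) := by linarith
        have h2 : m.choose (i + 1) < F.card := by exact_mod_cast h1
        omega
      · have := min_le_right (m.choose i) (F.card - m.choose (i + 1))
        omega
      · rw [Nat.cast_min, Nat.cast_sub hle]
        exact le_min hbm (by linarith)
    obtain ⟨p, hp1, hpm, hpF, hbp⟩ := hp1
    obtain ⟨F', hF'F, hF'c⟩ := exists_subset_card_eq hpF
    obtain ⟨𝒞, h𝒞, h𝒞c, hsh⟩ := kk_two (fun A hA => hF A (hF'F hA)) hlt hp1 hpm hF'c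
    have hne : 𝒞.Nonempty := by
      rw [← card_pos, h𝒞c]
      omega
    obtain ⟨k, rfl⟩ : ∃ k, i = k + 1 := ⟨i - 1, by omega⟩
    rw [Nat.add_sub_cancel] at hfac' ⊢
    have h1 := KKR_ge (m := k) h𝒞 hne (x := x) (by push_cast at hx; linarith) (by
      rw [h𝒞c]
      unfold bb at hbp
      rwa [div_le_iff₀' hfac] at hbp)
    have h2 : bb k x ≤ ((∂ 𝒞).card : ℝ) := by
      unfold bb
      rw [div_le_iff₀' hfac']
      exact h1
    have h3 : ((m.choose (k + 1) + (∂ 𝒞).card : ℕ) : ℝ) ≤ ((∂ F').card : ℝ) := by exact_mod_cast hsh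
    have h4 : ((∂ F').card : ℝ) ≤ ((∂ F).card : ℝ) := by
      exact_mod_cast card_le_card (shadow_mono hF'F)
    push_cast at h3
    linarith

/-- The two-term form, iterated: `F` a family of `(i + l)`-sets with at least `C(m, i + l) + binom(x, i + l - 1)` members,
`i + l - 1 ≤ x ≤ m`: the members of `F` contain at least `C(m, i) + binom(x, i - 1)` sets with `i` elements. -/
theorem kk_two_iter {n i l m : ℕ} {F G : Finset (Finset (Fin n))} (hi : 1 ≤ i) (hF : ∀ e ∈ F, e.card = i + l)
    (hG : ∀ e ∈ F, ∀ S, S ⊆ e → S.card = i → S ∈ G) {x : ℝ} (hx : (i : ℝ) + l ≤ x + 1) (hxm : x ≤ m)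
    (h : (m.choose (i + l) : ℝ) + bb (i + l - 1) x ≤ F.card) : (m.choose i : ℝ) + bb (i - 1) x ≤ G.card := by
  induction l generalizing F with
  | zero =>
    have h1 : F ⊆ G := fun e he => hG e he e (Subset.refl e) (hF e he)
    have h2 : (F.card : ℝ) ≤ (G.card : ℝ) := by exact_mod_cast card_le_card h1
    exact h.trans h2
  | succ l ih =>
    push_cast at hx
    have hFs : ∀ e ∈ ∂ F, ∃ f ∈ F, e ⊆ f ∧ e.card = i + l := by
      intro e he
      obtain ⟨f, hf, a, ha, rfl⟩ := mem_shadow_iff.1 he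
      refine ⟨f, hf, erase_subset a f, ?_⟩
      rw [card_erase_of_mem ha, hF f hf]
      omega
    refine ih (F := ∂ F) (fun e he => (hFs e he).choose_spec.2.2) (fun e he S hS hSc => ?_) (by linarith) ?_
    · obtain ⟨f, hf, hef, _⟩ := hFs e he
      exact hG f hf S (hS.trans hef) hSc
    · exact KKC_step (i := i + l) (by omega) hF (by push_cast; linarith) hxm h

end Pool.Agent.Lib.MP_455133_co.LR
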