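import Mathlib
import Pool.Agent.Lib.MP_455133_co.LR.CoreA
import Pool.Agent.Lib.MP_455133_co.LS.KKC
import Pool.Agent.Lib.MP_455133_co.LS.Step2

/-!
The induction with the potential in two levels: `p+2`-sets (edges) and complete `2p+2`-sets.
-/

set_option linter.unusedSectionVars false

namespace Pool.Agent.Lib.MP_455133_co.LS

open Finset Pool.Agent.Lib.MP_455133_co.LR

variable {V : Type*} [Fintype V] [DecidableEq V]

open Classical in
/-- the complete `i`-sets of `L` inside `W` -/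
noncomputable def cl (j i : ℕ) (L : Finset (Finset V)) (W : Finset V) : Finset (Finset V) :=
  (W.powersetCard i).filter (isK j L)

theorem mem_cl {j i : ℕ} {L : Finset (Finset V)} {W A : Finset V} :
    A ∈ cl j i L W ↔ (A ⊆ W ∧ A.card = i) ∧ isK j L A := by
  simp [cl, mem_powersetCard]

theorem isK_sub {j : ℕ} {L : Finset (Finset V)} {A A' : Finset V} (h : isK j L A)
    (hA : A' ⊆ A) : isK j L A' := fun R hR hRc => h R (hR.trans hA) hRc

theorem cl_erase {j i : ℕ} {L : Finset (Finset V)} {W : Finset V} (u : V) :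
    cl j i L (W.erase u) = (cl j i L W).filter fun A => u ∉ A := by
  ext A
  rw [mem_filter, mem_cl, mem_cl, subset_erase]
  tauto

theorem card_cl_erase {j i : ℕ} {L : Finset (Finset V)} {W : Finset V} (u : V) :
    (cl j i L (W.erase u)).card + ((cl j i L W).filter fun A => u ∈ A).card =
      (cl j i L W).card := by
  rw [cl_erase, add_comm]
  exact card_filter_add_card_filter_not (s := cl j i L W) (fun A => u ∈ A)

theorem sum_cl_deg {j i : ℕ} {L : Finset (Finset V)} {W : Finset V} :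
    ∑ u ∈ W, ((cl j i L W).filter fun A => u ∈ A).card = i * (cl j i L W).card := by
  rw [sum_deg fun e he => (mem_cl.mp he).1.1, sum_congr rfl fun e he => (mem_cl.mp he).1.2,
    sum_const, smul_eq_mul, mul_comm]

theorem cl_ge {j i : ℕ} {L : Finset (Finset V)} {W K : Finset V} (hK : K ⊆ W)
    (hKK : isK j L K) : K.card.choose i ≤ (cl j i L W).card := by
  rw [← card_powersetCard]
  apply card_le_card
  intro A hA
  rw [mem_powersetCard] at hA
  rw [mem_cl]
  exact ⟨⟨hA.1.trans hK, hA.2⟩, isK_sub hKK hA.1⟩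

/-! ### Parameters -/

theorem P0_lt {i : ℕ} {x y : ℝ} (h : (i : ℝ) ≤ y) (hyx : y < x) :
    P0 (i + 1) y < P0 (i + 1) x := by
  have h1 : P0 i y ≤ P0 i x := P0_mono (by linarith) hyx.le
  have h2 : 0 < P0 i x := P0_pos (by linarith)
  have e1 : P0 (i + 1) y = P0 i y * (y - i) := rfl
  have e2 : P0 (i + 1) x = P0 i x * (x - i) := rfl
  rw [e1, e2]
  have h3 : P0 i y * (y - i) ≤ P0 i x * (y - i) := mul_le_mul_of_nonneg_right h1 (by linarith)
  have h4 : P0 i x * (y - i) < P0 i x * (x - i) := mul_lt_mul_of_pos_left (by linarith) h2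
  linarith

theorem P0_le_imp {i : ℕ} {x y : ℝ} (hx : (i : ℝ) ≤ x) (hy : (i : ℝ) ≤ y)
    (h : P0 (i + 1) y ≤ P0 (i + 1) x) : y ≤ x := by
  by_contra hlt
  push Not at hlt
  have := P0_lt hx hlt
  linarith

theorem exists_par (i N : ℕ) : ∃ y : ℝ, (i : ℝ) ≤ y ∧
    P0 (i + 1) y = ((i + 1).factorial : ℝ) * (N : ℝ) := by
  set v : ℝ := ((i + 1).factorial : ℝ) * (N : ℝ) with hv
  have hv0 : 0 ≤ v := by positivity
  have h1 : ∀ l : ℕ, (l : ℝ) ≤ i → 1 ≤ P0 l ((i : ℝ) + v + 1) := by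
    intro l
    induction l with
    | zero => intro _; simp [P0]
    | succ l ih =>
      intro hl
      push_cast at hl
      simp only [P0]
      have h2 := ih (by linarith)
      have h3 : 1 ≤ (i : ℝ) + v + 1 - l := by linarith
      nlinarith
  have h2 : v ≤ P0 (i + 1) ((i : ℝ) + v + 1) := by
    have h3 := h1 i le_rfl
    have e : P0 (i + 1) ((i : ℝ) + v + 1) = P0 i ((i : ℝ) + v + 1) * (v + 1) := by
      simp only [P0]; ring
    rw [e]
    nlinarith
  have h0 : P0 (i + 1) (i : ℝ) = 0 := by simp [P0]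
  obtain ⟨y, hy, hy2⟩ := intermediate_value_Icc (f := P0 (i + 1)) (a := (i : ℝ))
    (b := (i : ℝ) + v + 1) (by linarith) (continuous_P0 (i + 1)).continuousOn
    (show v ∈ Set.Icc (P0 (i + 1) (i : ℝ)) (P0 (i + 1) ((i : ℝ) + v + 1)) from
      ⟨by rw [h0]; exact hv0, h2⟩)
  exact ⟨y, hy.1, hy2⟩

theorem par_ge {i b N : ℕ} {y : ℝ} (hib : i ≤ b) (hy : (i : ℝ) ≤ y)
    (h : P0 (i + 1) y = ((i + 1).factorial : ℝ) * (N : ℝ)) (hN : b.choose (i + 1) ≤ N) :
    (b : ℝ) ≤ y := by
  apply P0_le_imp hy (by exact_mod_cast hib)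
  rw [h, P0_nat]
  apply mul_le_mul_of_nonneg_left _ (by positivity)
  exact_mod_cast hN

theorem kk_vertex {p : ℕ} {L : Finset (Finset V)} {W : Finset V} (u : V)
    (h : 0 < ((cl (p + 2) (2 * p + 2) L W).filter fun A => u ∈ A).card) :
    ∃ x : ℝ, 2 * (p : ℝ) < x ∧
      ((2 * p + 1).factorial : ℝ) *
        (((cl (p + 2) (2 * p + 2) L W).filter fun A => u ∈ A).card : ℝ) = P0 (2 * p + 1) x ∧
      P0 (p + 1) x ≤ ((p + 1).factorial : ℝ) *
        (((cl (p + 2) (p + 2) L W).filter fun A => u ∈ A).card : ℝ) := by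
  set F := ((cl (p + 2) (2 * p + 2) L W).filter fun A => u ∈ A).image fun A => A.erase u with hF
  set G := ((cl (p + 2) (p + 2) L W).filter fun A => u ∈ A).image fun A => A.erase u with hG
  have hinj : ∀ 𝒮 : Finset (Finset V), ((𝒮.filter fun A => u ∈ A).image
      fun A => A.erase u).card = (𝒮.filter fun A => u ∈ A).card := by
    intro 𝒮
    rw [card_image_of_injOn]
    intro e he e' he' h
    simp only [coe_filter, Set.mem_setOf_eq] at he he'
    have h' : e.erase u = e'.erase u := h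
    rw [← insert_erase he.2, ← insert_erase he'.2, h']
  have hFc : F.card = ((cl (p + 2) (2 * p + 2) L W).filter fun A => u ∈ A).card := hinj _
  have hGc : G.card = ((cl (p + 2) (p + 2) L W).filter fun A => u ∈ A).card := hinj _
  rw [← hFc] at h
  rw [← hFc, ← hGc]
  obtain ⟨x, hx1, hx2⟩ := exists_par (2 * p) F.card
  have hpos : (0 : ℝ) < F.card := by exact_mod_cast h
  have hfac : (0 : ℝ) < ((2 * p + 1).factorial : ℝ) := by exact_mod_cast Nat.factorial_pos _
  push_cast at hx1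
  have hx3 : 2 * (p : ℝ) < x := by
    rcases lt_or_eq_of_le hx1 with h1 | h1
    · exact h1
    · exfalso
      have h2 : P0 (2 * p + 1) x = 0 := by
        have e : P0 (2 * p + 1) x = P0 (2 * p) x * (x - ((2 * p : ℕ) : ℝ)) := rfl
        rw [e, ← h1]
        push_cast
        ring
      rw [h2] at hx2
      have := mul_pos hfac hpos
      linarith
  refine ⟨x, hx3, hx2.symm, ?_⟩
  have hF1 : ∀ e ∈ F, e.card = (p + 1) + p := by
    intro e he
    rw [hF, mem_image] at he
    obtain ⟨A, hA, rfl⟩ := he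
    rw [mem_filter, mem_cl] at hA
    rw [card_erase_of_mem hA.2, hA.1.1.2]
    omega
  have hG1 : ∀ e ∈ F, ∀ S, S ⊆ e → S.card = p + 1 → S ∈ G := by
    intro e he S hS hSc
    rw [hF, mem_image] at he
    obtain ⟨A, hA, rfl⟩ := he
    rw [mem_filter, mem_cl] at hA
    have huS : u ∉ S := fun h => absurd (hS h) (notMem_erase _ _)
    have hins : insert u S ⊆ A := insert_subset hA.2 (hS.trans (erase_subset _ _))
    rw [hG, mem_image]
    refine ⟨insert u S, ?_, erase_insert huS⟩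
    rw [mem_filter, mem_cl]
    refine ⟨⟨⟨hins.trans hA.1.1.1, ?_⟩, isK_sub hA.1.2 hins⟩, mem_insert_self _ _⟩
    rw [card_insert_of_notMem huS, hSc]
  have hk := kk_iter (i := p + 1) (l := p) hF1 (card_pos.mp h) hG1 (x := x)
    (by push_cast; linarith) (by
      rw [show p + 1 + p = 2 * p + 1 by ring]
      exact hx2.le)
  exact hk

theorem kk_global {p : ℕ} {L : Finset (Finset V)} {W : Finset V} {y Y : ℝ}
    (hy : ((p + 1 : ℕ) : ℝ) ≤ y) (hY : ((2 * p + 1 : ℕ) : ℝ) ≤ Y)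
    (hy2 : P0 (p + 2) y = ((p + 2).factorial : ℝ) * ((cl (p + 2) (p + 2) L W).card : ℝ))
    (hY2 : P0 (2 * p + 2) Y = ((2 * p + 2).factorial : ℝ) *
      ((cl (p + 2) (2 * p + 2) L W).card : ℝ))
    (hne : 0 < (cl (p + 2) (2 * p + 2) L W).card) : Y ≤ y := by
  have hk := kk_iter (i := p + 2) (l := p) (F := cl (p + 2) (2 * p + 2) L W)
    (G := cl (p + 2) (p + 2) L W) (fun e he => by rw [(mem_cl.mp he).1.2]; omega)
    (card_pos.mp hne) (by
      intro e he S hS hSc
      rw [mem_cl] at he ⊢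
      exact ⟨⟨hS.trans he.1.1, hSc⟩, isK_sub he.2 hS⟩) (x := Y)
    (by push_cast at hY ⊢; linarith) (by
      rw [show p + 2 + p = 2 * p + 2 by ring]
      exact hY2.le)
  rw [← hy2] at hk
  have hp0 : (0 : ℝ) ≤ p := Nat.cast_nonneg p
  exact P0_le_imp (i := p + 1) hy (by push_cast at hY ⊢; linarith) hk

/-- values at small sets -/
theorem terminal {a z Z : ℝ} (ha : 1 ≤ a) (hz : a - 1 ≤ z) (hZ : a - 1 ≤ Z) :
    a * (Gp (a / 2) z + Hp (a / 2) Z) ≤ 1 := by
  have ha0 : 0 < a := by linarith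
  have h1 : Gp (a / 2) z ≤ 1 / a - a / 2 / 2 / a ^ 2 := by
    rw [Gp]
    obtain ⟨t, ht⟩ : ∃ t, t = 1 / (z + 1) := ⟨_, rfl⟩
    have ht1 : t ≤ 1 / a := by rw [ht]; exact one_div_le_one_div_of_le ha0 (by linarith)
    have ht0 : 0 ≤ t := by rw [ht]; exact (div_pos one_pos (by linarith)).le
    have e1 : a / 2 / 2 / (z + 1) ^ 2 = a / 4 * t ^ 2 := by
      rw [ht]
      have : z + 1 ≠ 0 := by intro h; linarith
      field_simp
      ring
    have e2 : a / 2 / 2 / a ^ 2 = a / 4 * (1 / a) ^ 2 := by field_simp; ring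
    rw [e1, e2, ← ht]
    obtain ⟨s, hs⟩ : ∃ s, s = 1 / a := ⟨_, rfl⟩
    rw [← hs] at ht1 ⊢
    have h3 : s * a = 1 := by rw [hs]; field_simp
    have h4 : (s - a / 4 * s ^ 2) - (t - a / 4 * t ^ 2) =
        (s - t) * (1 - a / 4 * (s + t)) := by ring
    have h5 : 0 ≤ (s - t) * (1 - a / 4 * (s + t)) := by
      apply mul_nonneg (by linarith)
      have h6 : a * t ≤ a * s := mul_le_mul_of_nonneg_left ht1 ha0.le
      nlinarith
    linarith
  have h2 : Hp (a / 2) Z ≤ a / 2 / 2 / a ^ 2 := by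
    rw [Hp]
    apply div_le_div_of_nonneg_left (by positivity) (by positivity)
    apply pow_le_pow_left₀ ha0.le
    linarith
  have h3 := mul_le_mul_of_nonneg_left (add_le_add h1 h2) ha0.le
  have h4 : a * (1 / a - a / 2 / 2 / a ^ 2 + a / 2 / 2 / a ^ 2) = 1 := by field_simp; ring
  linarith

theorem core2 {p a : ℕ} (hp : 10 ≤ p) (ha : 6 * (p + 2) ^ 2 ≤ a) {L : Finset (Finset V)} :
    ∀ (n : ℕ) (W : Finset V), W.card = n → HasK (p + 2) a L W → ∀ y Y : ℝ,
      ((p + 1 : ℕ) : ℝ) ≤ y → ((2 * p + 1 : ℕ) : ℝ) ≤ Y →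
      P0 (p + 2) y = ((p + 2).factorial : ℝ) * ((cl (p + 2) (p + 2) L W).card : ℝ) →
      P0 (2 * p + 2) Y = ((2 * p + 2).factorial : ℝ) *
        ((cl (p + 2) (2 * p + 2) L W).card : ℝ) →
      (a : ℝ) * (Gp ((a : ℝ) / 2) y + Hp ((a : ℝ) / 2) Y) ≤ RR (p + 2) a L n W := by
  have haR : 6 * ((p : ℝ) + 2) ^ 2 ≤ a := by exact_mod_cast ha
  have hbig : 2 * p + 3 ≤ a := by nlinarith
  have hbigR : 2 * (p : ℝ) + 3 ≤ a := by exact_mod_cast hbig
  have ha1 : (1 : ℝ) ≤ a := by linarith [(Nat.cast_nonneg p : (0 : ℝ) ≤ p)]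
  intro n
  induction n with
  | zero =>
    intro W hW hK
    exfalso
    obtain ⟨K, h1, h2, -⟩ := hK
    have := card_le_card h1
    omega
  | succ n ih =>
    intro W hW hK y Y hy hY hy2 hY2
    obtain ⟨K, hKW, hKc, hKK⟩ := hK
    have hK : HasK (p + 2) a L W := ⟨K, hKW, hKc, hKK⟩
    have hN1 : a.choose (p + 1 + 1) ≤ (cl (p + 2) (p + 2) L W).card := by
      rw [← hKc]; exact cl_ge hKW hKK
    have hN2 : a.choose (2 * p + 1 + 1) ≤ (cl (p + 2) (2 * p + 2) L W).card := by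
      rw [← hKc]; exact cl_ge hKW hKK
    have hya : (a : ℝ) ≤ y := par_ge (by omega) hy hy2 hN1
    have hYa : (a : ℝ) ≤ Y := par_ge (by omega) hY hY2 hN2
    have hpos2 : 0 < (cl (p + 2) (2 * p + 2) L W).card :=
      lt_of_lt_of_le (Nat.choose_pos (by omega)) hN2
    have hYy : Y ≤ y := kk_global hy hY hy2 hY2 hpos2
    set d : V → ℝ := fun u => (((cl (p + 2) (p + 2) L W).filter fun A => u ∈ A).card : ℝ)
      with hd
    set D : V → ℝ := fun u => (((cl (p + 2) (2 * p + 2) L W).filter fun A => u ∈ A).card : ℝ)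
      with hD
    -- each deletion
    have hstep : ∀ u ∈ W, ∃ z Z : ℝ, ((a : ℝ) - 1 ≤ z ∧ z ≤ y ∧
        P0 (p + 2) y - P0 (p + 2) z = ((p + 2).factorial : ℝ) * d u) ∧
        ((a : ℝ) - 1 ≤ Z ∧ Z ≤ Y ∧
        P0 (2 * p + 2) Y - P0 (2 * p + 2) Z = ((2 * p + 2).factorial : ℝ) * D u) ∧
        (a : ℝ) * (Gp ((a : ℝ) / 2) z + Hp ((a : ℝ) / 2) Z) ≤ RR (p + 2) a L n (W.erase u) := by
      intro u hu
      obtain ⟨z, hz1, hz2⟩ := exists_par (p + 1) (cl (p + 2) (p + 2) L (W.erase u)).card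
      obtain ⟨Z, hZ1, hZ2⟩ := exists_par (2 * p + 1)
        (cl (p + 2) (2 * p + 2) L (W.erase u)).card
      have hKe : K.erase u ⊆ W.erase u := erase_subset_erase u hKW
      have hKeK : isK (p + 2) L (K.erase u) := isK_sub hKK (erase_subset _ _)
      have hKec : a - 1 ≤ (K.erase u).card := by
        rw [← hKc]; exact pred_card_le_card_erase
      have hM1 : (a - 1).choose (p + 1 + 1) ≤ (cl (p + 2) (p + 2) L (W.erase u)).card :=
        (Nat.choose_le_choose _ hKec).trans (cl_ge hKe hKeK)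
      have hM2 : (a - 1).choose (2 * p + 1 + 1) ≤
          (cl (p + 2) (2 * p + 2) L (W.erase u)).card :=
        (Nat.choose_le_choose _ hKec).trans (cl_ge hKe hKeK)
      have hza := par_ge (by omega) hz1 hz2 hM1
      have hZa := par_ge (by omega) hZ1 hZ2 hM2
      have hac : ((a - 1 : ℕ) : ℝ) = (a : ℝ) - 1 := by
        push_cast [Nat.cast_sub (show 1 ≤ a by omega)]; ring
      rw [hac] at hza hZa
      have hc1 := card_cl_erase (j := p + 2) (i := p + 2) (L := L) (W := W) u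
      have hc2 := card_cl_erase (j := p + 2) (i := 2 * p + 2) (L := L) (W := W) u
      have hc1' : ((cl (p + 2) (p + 2) L (W.erase u)).card : ℝ) + d u =
          ((cl (p + 2) (p + 2) L W).card : ℝ) := by
        simp only [hd]; exact_mod_cast hc1
      have hc2' : ((cl (p + 2) (2 * p + 2) L (W.erase u)).card : ℝ) + D u =
          ((cl (p + 2) (2 * p + 2) L W).card : ℝ) := by
        simp only [hD]; exact_mod_cast hc2
      have hf1 : (0 : ℝ) < ((p + 1 + 1).factorial : ℝ) := by exact_mod_cast Nat.factorial_pos _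
      have hf2 : (0 : ℝ) < ((2 * p + 1 + 1).factorial : ℝ) := by
        exact_mod_cast Nat.factorial_pos _
      have hd0 : 0 ≤ d u := Nat.cast_nonneg _
      have hD0 : 0 ≤ D u := Nat.cast_nonneg _
      refine ⟨z, Z, ⟨hza, ?_, ?_⟩, ⟨hZa, ?_, ?_⟩, ?_⟩
      · apply P0_le_imp hy hz1
        rw [hz2, show p + 1 + 1 = p + 2 by rfl, hy2]
        apply mul_le_mul_of_nonneg_left _ hf1.le
        linarith
      · rw [hy2, show P0 (p + 2) z = P0 (p + 1 + 1) z by rfl, hz2, ← hc1']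
        ring
      · apply P0_le_imp hY hZ1
        rw [hZ2, show 2 * p + 1 + 1 = 2 * p + 2 by rfl, hY2]
        apply mul_le_mul_of_nonneg_left _ hf2.le
        linarith
      · rw [hY2, show P0 (2 * p + 2) Z = P0 (2 * p + 1 + 1) Z by rfl, hZ2, ← hc2']
        ring
      · by_cases hKu : HasK (p + 2) a L (W.erase u)
        · exact ih (W.erase u) (by rw [card_erase_of_mem hu, hW]; rfl) hKu z Z hz1 hZ1 hz2 hZ2
        · rw [RR_neg hKu]
          exact terminal ha1 hza hZa
    choose! z Z hz hZ hRR using hstep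
    have hsd : ∑ u ∈ W, ((p + 1).factorial : ℝ) * d u = P0 (p + 2) y := by
      rw [← mul_sum]
      have h1 := sum_cl_deg (j := p + 2) (i := p + 2) (L := L) (W := W)
      have h2 : ∑ u ∈ W, d u = ((p : ℝ) + 2) * ((cl (p + 2) (p + 2) L W).card : ℝ) := by
        simp only [hd]
        exact_mod_cast h1
      rw [h2, hy2, show (p + 2).factorial = (p + 2) * (p + 1).factorial from
        Nat.factorial_succ (p + 1)]
      push_cast
      ring
    have hsD : ∑ u ∈ W, ((2 * p + 1).factorial : ℝ) * D u = P0 (2 * p + 2) Y := by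
      rw [← mul_sum]
      have h1 := sum_cl_deg (j := p + 2) (i := 2 * p + 2) (L := L) (W := W)
      have h2 : ∑ u ∈ W, D u = (2 * (p : ℝ) + 2) *
          ((cl (p + 2) (2 * p + 2) L W).card : ℝ) := by
        simp only [hD]
        exact_mod_cast h1
      rw [h2, hY2, show (2 * p + 2).factorial = (2 * p + 2) * (2 * p + 1).factorial from
        Nat.factorial_succ (2 * p + 1)]
      push_cast
      ring
    have hnum := step2 W d D z Z (p := p) (a := (a : ℝ)) (y := y) (Y := Y) hp haR hYa hYy hsd hsD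
      (fun u hu => (hz u hu).1) (fun u hu => (hz u hu).2.1) (fun u hu => (hz u hu).2.2)
      (fun u hu => (hZ u hu).1) (fun u hu => (hZ u hu).2.1) (fun u hu => (hZ u hu).2.2) (by
        intro u hu
        rcases Nat.eq_zero_or_pos
          ((cl (p + 2) (2 * p + 2) L W).filter fun A => u ∈ A).card with h0 | h0
        · left
          refine ⟨?_, Nat.cast_nonneg _⟩
          simp only [hD]
          exact_mod_cast h0
        · right
          exact kk_vertex u h0)
    have hR := RR_pos (n := n) hK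
    have h1 := sum_le_sum hRR
    rw [← hR, ← mul_sum] at h1
    have h2 : ∑ u ∈ W, (Gp ((a : ℝ) / 2) (z u) + Hp ((a : ℝ) / 2) (Z u)) =
        ∑ u ∈ W, ((Gp ((a : ℝ) / 2) (z u) - Gp ((a : ℝ) / 2) y) +
          (Hp ((a : ℝ) / 2) (Z u) - Hp ((a : ℝ) / 2) Y)) +
        ((n : ℝ) + 1) * (Gp ((a : ℝ) / 2) y + Hp ((a : ℝ) / 2) Y) := by
      have e : ∀ u ∈ W, (Gp ((a : ℝ) / 2) (z u) + Hp ((a : ℝ) / 2) (Z u)) =
          ((Gp ((a : ℝ) / 2) (z u) - Gp ((a : ℝ) / 2) y) +
          (Hp ((a : ℝ) / 2) (Z u) - Hp ((a : ℝ) / 2) Y)) +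
          (Gp ((a : ℝ) / 2) y + Hp ((a : ℝ) / 2) Y) := fun u _ => by ring
      rw [sum_congr rfl e, sum_add_distrib, sum_const, hW, nsmul_eq_mul]
      push_cast
      ring
    rw [h2] at h1
    have h3 : (a : ℝ) * (((n : ℝ) + 2) * (Gp ((a : ℝ) / 2) y + Hp ((a : ℝ) / 2) Y)) ≤
        ((n : ℝ) + 2) * RR (p + 2) a L (n + 1) W := by
      refine le_trans ?_ h1
      apply mul_le_mul_of_nonneg_left _ (by linarith)
      linarith
    have h4 : ((n : ℝ) + 2) * ((a : ℝ) * (Gp ((a : ℝ) / 2) y + Hp ((a : ℝ) / 2) Y)) ≤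
        ((n : ℝ) + 2) * RR (p + 2) a L (n + 1) W := by linarith
    exact le_of_mul_le_mul_left h4 (by positivity)

end Pool.Agent.Lib.MP_455133_co.LS
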