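import Mathlib
import Pool.Agent.Lib.MP_455133_co.LR.Link
import Pool.Agent.Lib.MP_455133_co.LS.Core2
import Pool.Agent.Lib.MP_455133_co.LS.ChordR

/-!
The chord inequality from the potential in two levels.
-/

namespace Pool.Agent.Lib.MP_455133_co.LS

open Finset Pool.Agent.Lib.MP_455133_co.LR

theorem cl_self {V : Type*} [Fintype V] [DecidableEq V] {j : ℕ} {L : Finset (Finset V)}
    {W : Finset V} (hL : ∀ e ∈ L, e.card = j) (hW : su L ⊆ W) : cl j j L W = L := by
  ext A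
  rw [mem_cl]
  constructor
  · rintro ⟨⟨-, h2⟩, h3⟩
    exact h3 A (Subset.refl A) h2
  · intro hA
    refine ⟨⟨fun x hx => hW (mem_su.mpr ⟨A, hA, hx⟩), hL A hA⟩, ?_⟩
    intro R hR hRc
    have : R = A := eq_of_subset_of_card_le hR (by rw [hRc, hL A hA])
    rw [this]
    exact hA

/-- the number of complete `2p+2`-sets -/
theorem KB_le {n p m : ℕ} {L : Finset (Finset (Fin n))} {W : Finset (Fin n)}
    (hL : ∀ e ∈ L, e.card = p + 2) (hW : su L ⊆ W) (hm : 2 * p + 1 ≤ m) {β z : ℝ}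
    (hβ0 : 0 ≤ β) (hβ1 : β ≤ 1)
    (hβ : ∀ x : ℝ, 2 * (p : ℝ) < x →
      P0 (2 * p + 1) x / P0 (2 * p + 1) (m : ℝ) ≤ (P0 (p + 1) x / P0 (p + 1) (m : ℝ)) *
        (1 + β * (P0 (p + 1) x / P0 (p + 1) (m : ℝ) - 1)))
    (hz0 : 0 ≤ z) (hz1 : z < 1)
    (hz : (L.card : ℝ) = (m.choose (p + 2) : ℝ) + z * (m.choose (p + 1) : ℝ)) :
    ((cl (p + 2) (2 * p + 2) L W).card : ℝ) ≤ (m.choose (2 * p + 2) : ℝ) +
      z * (1 - β * (1 - z)) * (m.choose (2 * p + 1) : ℝ) := by
  have hv0 : 0 ≤ z * (1 - β * (1 - z)) := by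
    apply mul_nonneg hz0
    nlinarith
  have hC1 : (0 : ℝ) < (m.choose (p + 1) : ℝ) := by
    exact_mod_cast Nat.choose_pos (by omega : p + 1 ≤ m)
  have hC2 : (0 : ℝ) < (m.choose (2 * p + 1) : ℝ) := by exact_mod_cast Nat.choose_pos hm
  have hmR : 2 * (p : ℝ) + 1 ≤ m := by exact_mod_cast hm
  have hfac : (0 : ℝ) < ((2 * p + 1).factorial : ℝ) := by exact_mod_cast Nat.factorial_pos _
  have hfac1 : (0 : ℝ) < ((p + 1).factorial : ℝ) := by exact_mod_cast Nat.factorial_pos _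
  set F := cl (p + 2) (2 * p + 2) L W with hF
  have hkk : ∀ x : ℝ, 2 * (p : ℝ) + 1 ≤ x → x ≤ m →
      (m.choose (2 * p + 2) : ℝ) + bb (2 * p + 1) x ≤ (F.card : ℝ) →
      bb (p + 1) x ≤ z * (m.choose (p + 1) : ℝ) := by
    intro x hx hxm h
    have h1 := kk_two_iter (n := n) (i := p + 2) (l := p) (m := m) (F := F)
      (G := cl (p + 2) (p + 2) L W) (by omega) (fun e he => by rw [(mem_cl.mp he).1.2]; omega)
      (by
        intro e he S hS hSc
        rw [hF, mem_cl] at he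
        rw [mem_cl]
        exact ⟨⟨hS.trans he.1.1, hSc⟩, isK_sub he.2 hS⟩) (x := x)
      (by push_cast; linarith) hxm (by
        rw [show p + 2 + p = 2 * p + 2 by ring, show 2 * p + 2 - 1 = 2 * p + 1 by omega]
        exact h)
    rw [cl_self hL hW, show p + 2 - 1 = p + 1 by omega] at h1
    linarith
  rcases Nat.lt_or_ge (m.choose (2 * p + 2)) F.card with hlt | hge
  swap
  · have h1 : (F.card : ℝ) ≤ (m.choose (2 * p + 2) : ℝ) := by exact_mod_cast hge
    have h2 : 0 ≤ z * (1 - β * (1 - z)) * (m.choose (2 * p + 1) : ℝ) :=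
      mul_nonneg hv0 hC2.le
    linarith
  obtain ⟨q, hq⟩ : ∃ q, F.card = m.choose (2 * p + 2) + q :=
    ⟨F.card - m.choose (2 * p + 2), by omega⟩
  have hq1 : 1 ≤ q := by omega
  have hqR : (F.card : ℝ) = (m.choose (2 * p + 2) : ℝ) + q := by rw [hq]; push_cast; ring
  rcases Nat.lt_or_ge q (m.choose (2 * p + 1)) with hqlt | hqge
  swap
  · exfalso
    have h1 := hkk m hmR le_rfl (by
      rw [hqR, bb_nat]
      have : (m.choose (2 * p + 1) : ℝ) ≤ q := by exact_mod_cast hqge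
      linarith)
    rw [bb_nat] at h1
    nlinarith
  obtain ⟨x, hx1, hx2⟩ := exists_par (2 * p) q
  have hxge := par_ge (b := 2 * p + 1) (by omega) hx1 hx2 (by rw [Nat.choose_self]; exact hq1)
  push_cast at hx1 hxge
  have hPm2 : P0 (2 * p + 1) (m : ℝ) = ((2 * p + 1).factorial : ℝ) * (m.choose (2 * p + 1) : ℝ) :=
    P0_nat _ _
  have hPm1 : P0 (p + 1) (m : ℝ) = ((p + 1).factorial : ℝ) * (m.choose (p + 1) : ℝ) :=
    P0_nat _ _
  have hxm : x ≤ m := by
    apply P0_le_imp (i := 2 * p) (by push_cast; linarith) (by push_cast; linarith)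
    rw [hx2, hPm2]
    apply mul_le_mul_of_nonneg_left _ hfac.le
    exact_mod_cast hqlt.le
  have hbbx : bb (2 * p + 1) x = q := by
    unfold bb
    rw [hx2]
    field_simp
  have h1 := hkk x hxge hxm (by rw [hqR, hbbx])
  have h2 := hβ x (by linarith)
  obtain ⟨t, ht⟩ : ∃ t, t = P0 (p + 1) x / P0 (p + 1) (m : ℝ) := ⟨_, rfl⟩
  have htz : t ≤ z := by
    rw [ht, hPm1, div_le_iff₀ (mul_pos hfac1 hC1)]
    unfold bb at h1
    rw [div_le_iff₀ hfac1] at h1
    linarith
  have ht0 : 0 ≤ t := by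
    rw [ht]
    exact div_nonneg (P_nonneg (by push_cast; linarith)).1 (P_nonneg (by push_cast; linarith)).1
  rw [← ht, hx2, hPm2] at h2
  have e1 : ((2 * p + 1).factorial : ℝ) * (q : ℝ) /
      (((2 * p + 1).factorial : ℝ) * (m.choose (2 * p + 1) : ℝ)) =
      (q : ℝ) / (m.choose (2 * p + 1) : ℝ) := by field_simp
  rw [e1, div_le_iff₀ hC2] at h2
  have h3 : t * (1 + β * (t - 1)) ≤ z * (1 - β * (1 - z)) := by
    have : z * (1 - β * (1 - z)) - t * (1 + β * (t - 1)) =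
        (z - t) * ((1 - β) + β * (z + t)) := by ring
    have h4 : 0 ≤ (z - t) * ((1 - β) + β * (z + t)) := by
      apply mul_nonneg (by linarith)
      have : 0 ≤ β * (z + t) := mul_nonneg hβ0 (by linarith)
      linarith
    linarith
  have h4 := mul_le_mul_of_nonneg_right h3 hC2.le
  rw [hqR]
  linarith

/-- the chord inequality, from the potential in two levels -/
theorem chordK2 {p a m : ℕ} (hp : 10 ≤ p) (ha : 6 * (p + 2) ^ 2 ≤ a)
    (ham : a ≤ m + 1) : ChordK p a m := by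
  intro n L hL W hW hK
  have haR : 6 * ((p : ℝ) + 2) ^ 2 ≤ a := by exact_mod_cast ha
  have hbig : 2 * p + 3 ≤ a := by nlinarith
  have hamR : (a : ℝ) ≤ m + 1 := by exact_mod_cast ham
  have hbigR : 2 * (p : ℝ) + 3 ≤ a := by exact_mod_cast hbig
  have hp0 : (10 : ℝ) ≤ p := by exact_mod_cast hp
  have hapos : (0 : ℝ) < a := by linarith
  have hpm : p + 1 ≤ m := by omega
  have hC1 : (0 : ℝ) < (m.choose (p + 1) : ℝ) := by exact_mod_cast Nat.choose_pos hpm
  obtain ⟨K, hKW, hKc, hKK⟩ := hK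
  have hK : HasK (p + 2) a L W := ⟨K, hKW, hKc, hKK⟩
  obtain ⟨y, hy, hy2⟩ := exists_par (p + 1) (cl (p + 2) (p + 2) L W).card
  obtain ⟨Y, hY, hY2⟩ := exists_par (2 * p + 1) (cl (p + 2) (2 * p + 2) L W).card
  have hN1 : a.choose (p + 1 + 1) ≤ (cl (p + 2) (p + 2) L W).card := by
    rw [← hKc]; exact cl_ge hKW hKK
  have hN2 : a.choose (2 * p + 1 + 1) ≤ (cl (p + 2) (2 * p + 2) L W).card := by
    rw [← hKc]; exact cl_ge hKW hKK
  have hya : (a : ℝ) ≤ y := par_ge (by omega) hy hy2 hN1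
  have hYa : (a : ℝ) ≤ Y := par_ge (by omega) hY hY2 hN2
  have hpos2 : 0 < (cl (p + 2) (2 * p + 2) L W).card :=
    lt_of_lt_of_le (Nat.choose_pos (by omega)) hN2
  have hYy : Y ≤ y := kk_global hy hY hy2 hY2 hpos2
  have hcore := core2 (V := Fin n) hp ha (L := L) W.card W rfl hK y Y hy hY hy2 hY2
  rw [cl_self hL hW] at hy2
  refine le_trans ?_ hcore
  have hM0 : (0 : ℝ) < (m : ℝ) + 1 := by positivity
  have hf : (0 : ℝ) < ((p + 1 + 1).factorial : ℝ) := by exact_mod_cast Nat.factorial_pos _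
  have hf1 : (0 : ℝ) < ((p + 1).factorial : ℝ) := by exact_mod_cast Nat.factorial_pos _
  have hff : ((p + 1 + 1).factorial : ℝ) = ((p : ℝ) + 2) * ((p + 1).factorial : ℝ) := by
    rw [Nat.factorial_succ (p + 1)]
    push_cast
    ring
  have hPm2 : P0 (p + 1 + 1) (m : ℝ) = ((p + 1 + 1).factorial : ℝ) * (m.choose (p + 2) : ℝ) :=
    P0_nat _ _
  have hPm1 : P0 (p + 1) (m : ℝ) = ((p + 1).factorial : ℝ) * (m.choose (p + 1) : ℝ) :=
    P0_nat _ _
  have hmp1 : ((p + 1 : ℕ) : ℝ) ≤ m := by exact_mod_cast hpm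
  -- outside of the interval
  have hout : (a : ℝ) / (y + 1) ≤
      (a : ℝ) * (Gp ((a : ℝ) / 2) y + Hp ((a : ℝ) / 2) Y) := by
    have h1 : Gp ((a : ℝ) / 2) y + Hp ((a : ℝ) / 2) y = 1 / (y + 1) := by
      rw [Gp, Hp]; ring
    have h2 : Hp ((a : ℝ) / 2) y ≤ Hp ((a : ℝ) / 2) Y := by
      rw [Hp, Hp]
      apply div_le_div_of_nonneg_left (by positivity) (pow_pos (by linarith) 2)
      exact pow_le_pow_left₀ (by linarith) (by linarith) 2
    have h3 : 1 / (y + 1) ≤ Gp ((a : ℝ) / 2) y + Hp ((a : ℝ) / 2) Y := by linarith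
    have h4 := mul_le_mul_of_nonneg_left h3 hapos.le
    rw [mul_one_div] at h4
    exact h4
  rcases le_or_gt y (m : ℝ) with hym | hym
  · -- small families
    refine le_trans ?_ hout
    have h1 := ch_left (i := p + 1 + 1) (x := (m : ℝ)) (y := y) (by push_cast at hy ⊢; linarith)
      hym
    rw [Nat.add_sub_cancel, hPm2, hy2, hPm1, hff] at h1
    have h2 : (m.choose (p + 2) : ℝ) - (L.card : ℝ) ≤ ((m : ℝ) - y) * (m.choose (p + 1) : ℝ) := by
      have h3 : ((p : ℝ) + 2) * ((p + 1).factorial : ℝ) *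
          ((m.choose (p + 2) : ℝ) - (L.card : ℝ)) ≤ ((p : ℝ) + 2) * ((p + 1).factorial : ℝ) *
          (((m : ℝ) - y) * (m.choose (p + 1) : ℝ)) := by
        push_cast at h1
        linarith
      exact le_of_mul_le_mul_left h3 (by positivity)
    have e1 : (a : ℝ) / (m + 1) - (a : ℝ) / (((m : ℝ) + 1) * (m + 2) * (m.choose (p + 1) : ℝ)) *
        ((L.card : ℝ) - (m.choose (p + 2) : ℝ)) = (a : ℝ) / (m + 1) +
        (a : ℝ) / (((m : ℝ) + 1) * (m + 2) * (m.choose (p + 1) : ℝ)) *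
        ((m.choose (p + 2) : ℝ) - (L.card : ℝ)) := by ring
    have h3 := mul_le_mul_of_nonneg_left h2 (show 0 ≤ (a : ℝ) /
      (((m : ℝ) + 1) * (m + 2) * (m.choose (p + 1) : ℝ)) by positivity)
    have e2 : (a : ℝ) / (((m : ℝ) + 1) * (m + 2) * (m.choose (p + 1) : ℝ)) *
        (((m : ℝ) - y) * (m.choose (p + 1) : ℝ)) =
        (a : ℝ) * (m - y) / (((m : ℝ) + 1) * (m + 2)) := by
      field_simp
    have h4 : (a : ℝ) * (m - y) / (((m : ℝ) + 1) * (m + 2)) ≤
        (a : ℝ) * (m - y) / (((m : ℝ) + 1) * (y + 1)) := by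
      apply div_le_div_of_nonneg_left (mul_nonneg hapos.le (by linarith))
        (mul_pos hM0 (by linarith))
      apply mul_le_mul_of_nonneg_left _ hM0.le
      linarith
    have hy1 : y + 1 ≠ 0 := by
      intro h; linarith
    have e3 : (a : ℝ) / (y + 1) - (a : ℝ) / (m + 1) =
        (a : ℝ) * (m - y) / (((m : ℝ) + 1) * (y + 1)) := by
      field_simp
      ring
    rw [e1]
    linarith
  rcases le_or_gt ((m : ℝ) + 1) y with hym1 | hym1
  · -- large families
    refine le_trans ?_ hout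
    have h1 := ch_right (i := p + 1 + 1) (x := (m : ℝ)) (y := y) (by push_cast; linarith)
      hym1
    rw [Nat.add_sub_cancel, hPm2, hy2, hPm1, hff] at h1
    have h2 : (y - m) * (m.choose (p + 1) : ℝ) ≤ (L.card : ℝ) - (m.choose (p + 2) : ℝ) := by
      have h3 : ((p : ℝ) + 2) * ((p + 1).factorial : ℝ) *
          ((y - m) * (m.choose (p + 1) : ℝ)) ≤ ((p : ℝ) + 2) * ((p + 1).factorial : ℝ) *
          ((L.card : ℝ) - (m.choose (p + 2) : ℝ)) := by
        push_cast at h1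
        linarith
      exact le_of_mul_le_mul_left h3 (by positivity)
    have h3 := mul_le_mul_of_nonneg_left h2 (show 0 ≤ (a : ℝ) /
      (((m : ℝ) + 1) * (m + 2) * (m.choose (p + 1) : ℝ)) by positivity)
    have e2 : (a : ℝ) / (((m : ℝ) + 1) * (m + 2) * (m.choose (p + 1) : ℝ)) *
        ((y - m) * (m.choose (p + 1) : ℝ)) =
        (a : ℝ) * (y - m) / (((m : ℝ) + 1) * (m + 2)) := by
      field_simp
    have h4 : (a : ℝ) * (y - m) / (((m : ℝ) + 1) * (y + 1)) ≤
        (a : ℝ) * (y - m) / (((m : ℝ) + 1) * (m + 2)) := by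
      apply div_le_div_of_nonneg_left (mul_nonneg hapos.le (by linarith))
        (by positivity)
      apply mul_le_mul_of_nonneg_left _ hM0.le
      linarith
    have hy1 : y + 1 ≠ 0 := by
      intro h; linarith
    have e3 : (a : ℝ) / (m + 1) - (a : ℝ) / (y + 1) =
        (a : ℝ) * (y - m) / (((m : ℝ) + 1) * (y + 1)) := by
      field_simp
      ring
    linarith
  · -- inside
    obtain ⟨z, hzd⟩ : ∃ z, z = ((L.card : ℝ) - (m.choose (p + 2) : ℝ)) / (m.choose (p + 1) : ℝ) :=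
      ⟨_, rfl⟩
    have hz : (L.card : ℝ) = (m.choose (p + 2) : ℝ) + z * (m.choose (p + 1) : ℝ) := by
      rw [hzd]
      field_simp
      ring
    have hcm : ((m + 1).choose (p + 2) : ℝ) =
        (m.choose (p + 1) : ℝ) + (m.choose (p + 2) : ℝ) := by
      exact_mod_cast Nat.choose_succ_succ' m (p + 1)
    have hgt : (m.choose (p + 2) : ℝ) < (L.card : ℝ) := by
      have h1 := P0_lt (i := p + 1) hmp1 hym
      rw [hPm2, hy2] at h1
      exact lt_of_mul_lt_mul_left h1 hf.le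
    have hlt : (L.card : ℝ) < ((m + 1).choose (p + 2) : ℝ) := by
      have h1 := P0_lt (i := p + 1) (x := ((m + 1 : ℕ) : ℝ)) hy (by push_cast; linarith)
      rw [P0_nat, hy2] at h1
      exact lt_of_mul_lt_mul_left h1 hf.le
    have hz0 : 0 < z := by
      rw [hzd]
      exact div_pos (by linarith) hC1
    have hz1 : z < 1 := by
      rw [hzd, div_lt_one hC1]
      linarith
    have hm2 : 2 * p + 1 ≤ m := by omega
    obtain ⟨β, hβ1, hβ2, hβ3⟩ := ratio (p := p) (by omega) (w := (m : ℝ)) (by nlinarith)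
    have hβ0 : 0 ≤ β := le_trans (by positivity) hβ1
    have hKB := KB_le (W := W) hL hW hm2 hβ0 hβ2 (fun x hx => (hβ3 x hx).1) hz0.le hz1 hz
    have hin := chord_in (p := p) (a := (a : ℝ)) (M := (m : ℝ) + 1) (y := y) (Y := Y) (z := z)
      (v := z * (1 - β * (1 - z))) (β := β) hp haR hamR hya hYa hz0.le hz1.le hβ1 rfl (by
        rw [show (m : ℝ) + 1 - 1 = m by ring, hPm1]
        have e1 : P0 (p + 2) y = P0 (p + 1 + 1) y := rfl
        have e2 : P0 (p + 2) (m : ℝ) = P0 (p + 1 + 1) (m : ℝ) := rfl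
        rw [e1, e2, hy2, hPm2, hz, hff]
        ring) (by
        rw [show (m : ℝ) + 1 - 1 = m by ring]
        have e1 : P0 (2 * p + 2) Y = P0 (2 * p + 1 + 1) Y := rfl
        have hg : (0 : ℝ) < ((2 * p + 1 + 1).factorial : ℝ) := by
          exact_mod_cast Nat.factorial_pos _
        have hgg : ((2 * p + 1 + 1).factorial : ℝ) =
            (2 * (p : ℝ) + 2) * ((2 * p + 1).factorial : ℝ) := by
          rw [Nat.factorial_succ (2 * p + 1)]
          push_cast
          ring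
        have e2 : P0 (2 * p + 2) (m : ℝ) =
          ((2 * p + 1 + 1).factorial : ℝ) * (m.choose (2 * p + 2) : ℝ) := P0_nat _ _
        have e3 : P0 (2 * p + 1) (m : ℝ) =
          ((2 * p + 1).factorial : ℝ) * (m.choose (2 * p + 1) : ℝ) := P0_nat _ _
        rw [e1, e2, e3, hY2]
        have h5 := mul_le_mul_of_nonneg_left hKB hg.le
        refine h5.trans (le_of_eq ?_)
        rw [hgg]
        ring)
    have h6 := mul_le_mul_of_nonneg_left hin hapos.le
    refine le_trans (le_of_eq ?_) h6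
    rw [hz]
    field_simp
    ring

theorem chordAt2 {p a m : ℕ} (hp : 10 ≤ p) (ha : 6 * (p + 2) ^ 2 ≤ a)
    (hm : (p + 3) * a ≤ (p + 2) * (m + 2)) : ChordAt p a m := by
  have hpa : p + 3 ≤ a := by nlinarith
  have ham : a ≤ m + 1 := by
    by_contra hc
    push Not at hc
    have h1 : (p + 3) * (m + 2) ≤ (p + 3) * a := Nat.mul_le_mul_left _ (by omega)
    nlinarith
  exact chordAt_of_K hm (by omega) (chordK2 hp ha ham)

end Pool.Agent.Lib.MP_455133_co.LS
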