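import Mathlib
import Pool.Agent.Lib.MP_455133_co.Upper

/-!
For `r` larger than `C sqrt (s log s)` the block construction is not optimal: random blocks of the right size
are better.
-/

namespace Pool.Agent.Lib.MP_455133_co

open Finset

/-- the quotient of four binomial coefficients, one factor -/
private theorem Conv_factor {n s k t m i : ℝ} (hk : 2 ≤ k) (hi : 1 ≤ i) (his : i ≤ s - 1) (hs : 2 ≤ s)
    (ht : t = k * (s - 1) + 1) (hm : n - k + 1 ≤ k * m) (hn : 2 * t ≤ n) (hD : k * (s - 1) ≤ n - (k - 1) - k * i) :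
    (s - i) * (n - i) ≤ (1 - (i - 1) / (4 * s) + 2 / (s - 1)) * ((t - i) * (m - i)) := by
  have hs0 : 0 < s := by linarith
  have hs1 : 0 < s - 1 := by linarith
  have hk0 : 0 < k := by linarith
  set D := n - (k - 1) - k * i with hDdef
  have hD0 : 0 < D := lt_of_lt_of_le (by positivity) hD
  have hti : 0 < t - i := by
    rw [ht]
    nlinarith
  have hkm : D ≤ k * (m - i) := by
    rw [hDdef]
    nlinarith
  have hid : k * ((s - i) * (n - i)) = (t - i) * D - (k - 1) * ((i - 1) * (n - t) - 2 * (t - i)) := by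
    rw [hDdef, ht]
    ring
  have hco : 0 ≤ 1 - (i - 1) / (4 * s) + 2 / (s - 1) := by
    have h1 : (i - 1) / (4 * s) ≤ 1 := by
      rw [div_le_one (by positivity)]
      linarith
    have h2 : 0 ≤ 2 / (s - 1) := by positivity
    linarith
  have h3 : (1 - (i - 1) / (4 * s) + 2 / (s - 1)) * ((t - i) * D) ≤
      k * ((1 - (i - 1) / (4 * s) + 2 / (s - 1)) * ((t - i) * (m - i))) := by
    have h4 : (t - i) * D ≤ (t - i) * (k * (m - i)) := mul_le_mul_of_nonneg_left hkm hti.le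
    calc (1 - (i - 1) / (4 * s) + 2 / (s - 1)) * ((t - i) * D)
        ≤ (1 - (i - 1) / (4 * s) + 2 / (s - 1)) * ((t - i) * (k * (m - i))) := mul_le_mul_of_nonneg_left h4 hco
      _ = k * ((1 - (i - 1) / (4 * s) + 2 / (s - 1)) * ((t - i) * (m - i))) := by ring
  have h5 : 2 * (k - 1) * (t - i) ≤ 2 / (s - 1) * ((t - i) * D) := by
    rw [div_mul_eq_mul_div, le_div_iff₀ hs1]
    have h6 : (k - 1) * (s - 1) ≤ D := by nlinarith
    have h7 := mul_le_mul_of_nonneg_left h6 hti.le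
    nlinarith
  have h8 : (i - 1) / (4 * s) * ((t - i) * D) ≤ (k - 1) * ((i - 1) * (n - t)) := by
    have h9 : (t - i) * D ≤ 4 * s * ((k - 1) * (n - t)) := by
      have h10 : t - i ≤ k * s := by rw [ht]; nlinarith
      have h11 : D ≤ 2 * (n - t) := by
        rw [hDdef]
        nlinarith
      have h12 : (t - i) * D ≤ (k * s) * (2 * (n - t)) := mul_le_mul h10 h11 hD0.le (by positivity)
      have h13 : 0 ≤ n - t := by linarith
      have h14 : k * s * (2 * (n - t)) ≤ 4 * s * ((k - 1) * (n - t)) := by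
        have h15 : 0 ≤ s * (n - t) := by positivity
        nlinarith
      linarith
    rw [div_mul_eq_mul_div, div_le_iff₀ (by positivity)]
    have h16 := mul_le_mul_of_nonneg_left h9 (by linarith : 0 ≤ i - 1)
    nlinarith
  have h17 : k * ((s - i) * (n - i)) ≤ k * ((1 - (i - 1) / (4 * s) + 2 / (s - 1)) * ((t - i) * (m - i))) := by
    refine le_trans ?_ h3
    rw [hid]
    have h18 : (1 - (i - 1) / (4 * s) + 2 / (s - 1)) * ((t - i) * D) =
        (t - i) * D - (i - 1) / (4 * s) * ((t - i) * D) + 2 / (s - 1) * ((t - i) * D) := by ring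
    rw [h18]
    nlinarith
  exact le_of_mul_le_mul_left h17 hk0

private theorem Conv_desc (a r : ℕ) (h : r ≤ a) :
    ((a.choose r : ℕ) : ℝ) * (r.factorial : ℝ) = ∏ i ∈ range r, ((a : ℝ) - i) := by
  have h1 : a.descFactorial r = r.factorial * a.choose r := Nat.descFactorial_eq_factorial_mul_choose a r
  have h2 : ((a.descFactorial r : ℕ) : ℝ) = ∏ i ∈ range r, ((a : ℝ) - i) := by
    rw [Nat.descFactorial_eq_prod_range, Nat.cast_prod]
    refine prod_congr rfl fun i hi => ?_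
    rw [Nat.cast_sub (by have := mem_range.1 hi; omega)]
  rw [← h2, h1]
  push_cast
  ring

private theorem Conv_sum (j : ℕ) : ∑ i ∈ range j, (i : ℝ) = (j : ℝ) * (j - 1) / 2 := by
  induction j with
  | zero => simp
  | succ j ih => rw [sum_range_succ, ih]; push_cast; ring

private theorem Conv_exp : Real.exp (5 / 2) ≤ 12.2 := by
  have h1 : Real.exp (5 / 2) ^ 2 = Real.exp 1 ^ 5 := by
    rw [← Real.exp_nat_mul, ← Real.exp_nat_mul]
    norm_num
  have h2 := Real.exp_one_lt_d9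
  have h3 : Real.exp 1 ^ 5 ≤ 2.7182818286 ^ 5 := by
    have := (Real.exp_pos 1).le
    gcongr
  have h4 : Real.exp (5 / 2) ^ 2 ≤ 12.2 ^ 2 := by
    rw [h1]
    refine h3.trans ?_
    norm_num
  exact (abs_le_of_sq_le_sq' h4 (by norm_num)).2

/-- the quotient of four binomial coefficients -/
private theorem Conv_quot {n r s k : ℕ} (hk : 2 ≤ k) (hr1 : 1 ≤ r) (hrs : r < s)
    (h1 : 2 * (k * (s - 1) + 1) ≤ n) :
    ((s.choose r : ℕ) : ℝ) * (n.choose r : ℕ) ≤ 4 * 12.2 * Real.exp (-((r : ℝ) ^ 2 / (8 * s))) *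
      (((k * (s - 1) + 1).choose r : ℕ) * ((n / k).choose r : ℕ)) := by
  have hk0 : 0 < k := by omega
  obtain ⟨q, rfl⟩ : ∃ q, s = q + 1 := ⟨s - 1, by omega⟩
  rw [Nat.add_sub_cancel] at h1 ⊢
  have hq1 : 1 ≤ q := by omega
  have hrq : r ≤ q := by omega
  set m := n / k with hm
  set t := k * q + 1 with ht
  have hqt : q ≤ k * q := Nat.le_mul_of_pos_left q hk0
  have hdm := Nat.div_add_mod n k
  have hmod := Nat.mod_lt n hk0
  have hmn : n < k * m + k := by rw [hm]; omega
  have hmq : q + 1 ≤ m := by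
    by_contra hcon
    have h2 : m ≤ q := by omega
    have h3 : k * m ≤ k * q := Nat.mul_le_mul_left k h2
    have h4 : k ≤ k * q := Nat.le_mul_of_pos_right k hq1
    omega
  have hrt : r ≤ t := by omega
  have hrm : r ≤ m := by omega
  have hrn : r ≤ n := by omega
  have e1 := Conv_desc (q + 1) r (by omega)
  have e2 := Conv_desc n r hrn
  have e3 := Conv_desc t r hrt
  have e4 := Conv_desc m r hrm
  have hf : (0 : ℝ) < (r.factorial : ℝ) := by exact_mod_cast Nat.factorial_pos r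
  -- casts
  have hkR : (2 : ℝ) ≤ k := by exact_mod_cast hk
  have hqR : (1 : ℝ) ≤ q := by exact_mod_cast hq1
  have htR : (t : ℝ) = k * q + 1 := by rw [ht]; push_cast; ring
  have hnR : 2 * (t : ℝ) ≤ n := by exact_mod_cast h1
  have hmR : (n : ℝ) - k + 1 ≤ k * m := by
    have : (n : ℝ) + 1 ≤ k * m + k := by exact_mod_cast hmn
    linarith
  have hrqR : (r : ℝ) ≤ q := by exact_mod_cast hrq
  have key : ∏ i ∈ range r, ((((q + 1 : ℕ) : ℝ) - i) * ((n : ℝ) - i)) ≤
      4 * 12.2 * Real.exp (-((r : ℝ) ^ 2 / (8 * ((q + 1 : ℕ) : ℝ)))) *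
        ∏ i ∈ range r, (((t : ℝ) - i) * ((m : ℝ) - i)) := by
    obtain ⟨r', rfl⟩ : ∃ r', r = r' + 1 := ⟨r - 1, by omega⟩
    rw [prod_range_succ', prod_range_succ']
    push_cast
    have hr'R : (r' : ℝ) + 1 ≤ q := by exact_mod_cast hrqR
    have hmR1 : (q : ℝ) + 1 ≤ m := by exact_mod_cast hmq
    -- the first factor
    have g0 : ((q : ℝ) + 1 - 0) * ((n : ℝ) - 0) ≤ 4 * (((t : ℝ) - 0) * ((m : ℝ) - 0)) := by
      have a1 : (k : ℝ) * (q + 1) ≤ 2 * t := by rw [htR]; nlinarith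
      have a2 : (n : ℝ) ≤ 2 * (k * m) := by
        have : 2 * (k : ℝ) ≤ n := by rw [htR] at hnR; nlinarith
        linarith
      have a3 : (k : ℝ) * (((q : ℝ) + 1 - 0) * ((n : ℝ) - 0)) ≤ k * (4 * (((t : ℝ) - 0) * ((m : ℝ) - 0))) := by
        have a4 : ((k : ℝ) * (q + 1)) * n ≤ (2 * t) * (2 * (k * m)) := mul_le_mul a1 a2 (by positivity) (by positivity)
        linarith
      exact le_of_mul_le_mul_left a3 (by positivity)
    -- the other factors
    have g1 : ∀ i ∈ range r', ((q : ℝ) + 1 - (i + 1)) * ((n : ℝ) - (i + 1)) ≤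
        Real.exp (-((i : ℝ) / (4 * (q + 1))) + 2 / q) * (((t : ℝ) - (i + 1)) * ((m : ℝ) - (i + 1))) := by
      intro i hi
      have hi' : i < r' := mem_range.1 hi
      have hiR : (i : ℝ) + 1 ≤ r' := by exact_mod_cast hi'
      have hi0 : (0 : ℝ) ≤ i := by positivity
      have b1 := Conv_factor (n := n) (s := (q : ℝ) + 1) (k := k) (t := t) (m := m) (i := (i : ℝ) + 1) hkR
        (by linarith) (by linarith) (by linarith) (by rw [htR]; ring) hmR hnR
        (by rw [htR] at hnR; nlinarith)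
      refine b1.trans (mul_le_mul_of_nonneg_right ?_ ?_)
      · have b2 := Real.add_one_le_exp (-((i : ℝ) / (4 * (q + 1))) + 2 / q)
        have b3 : (i : ℝ) + 1 - 1 = i := by ring
        have b4 : (q : ℝ) + 1 - 1 = q := by ring
        rw [b3, b4]
        linarith
      · have b5 : (0 : ℝ) ≤ (t : ℝ) - (i + 1) := by rw [htR]; nlinarith
        have b6 : (0 : ℝ) ≤ (m : ℝ) - (i + 1) := by linarith
        positivity
    have g2 : ∏ i ∈ range r', (((q : ℝ) + 1 - (i + 1)) * ((n : ℝ) - (i + 1))) ≤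
        ∏ i ∈ range r', (Real.exp (-((i : ℝ) / (4 * (q + 1))) + 2 / q) * (((t : ℝ) - (i + 1)) * ((m : ℝ) - (i + 1)))) := by
      refine prod_le_prod (fun i hi => ?_) g1
      have hi' : i < r' := mem_range.1 hi
      have hiR : (i : ℝ) + 1 ≤ r' := by exact_mod_cast hi'
      have c1 : (0 : ℝ) ≤ (q : ℝ) + 1 - (i + 1) := by linarith
      have c2 : (0 : ℝ) ≤ (n : ℝ) - (i + 1) := by
        have : (q : ℝ) ≤ n := by rw [htR] at hnR; nlinarith
        linarith
      positivity
    have g2' : ∏ i ∈ range r', (Real.exp (-((i : ℝ) / (4 * (q + 1))) + 2 / q) * (((t : ℝ) - (i + 1)) * ((m : ℝ) - (i + 1)))) =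
        Real.exp (∑ i ∈ range r', (-((i : ℝ) / (4 * (q + 1))) + 2 / q)) *
          ∏ i ∈ range r', (((t : ℝ) - (i + 1)) * ((m : ℝ) - (i + 1))) := by
      rw [prod_mul_distrib, ← Real.exp_sum]
    rw [g2'] at g2
    have g3 : ∑ i ∈ range r', (-((i : ℝ) / (4 * (q + 1))) + 2 / q) ≤ 5 / 2 - (((r' : ℝ) + 1) ^ 2 / (8 * (q + 1))) := by
      rw [sum_add_distrib, sum_neg_distrib, ← sum_div, sum_const, card_range, nsmul_eq_mul]
      have d1 := Conv_sum r'
      rw [d1]
      have hq0 : (0 : ℝ) < q := by linarith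
      have d2 : (r' : ℝ) * (2 / q) ≤ 2 := by
        rw [mul_div_assoc', div_le_iff₀ hq0]
        linarith
      have d3 : ((r' : ℝ) + 1) ^ 2 / (8 * (q + 1)) - (r' : ℝ) * (r' - 1) / 2 / (4 * (q + 1)) =
          (3 * r' + 1) / (8 * (q + 1)) := by
        field_simp
        ring
      have d4 : (3 * (r' : ℝ) + 1) / (8 * (q + 1)) ≤ 1 / 2 := by
        rw [div_le_iff₀ (by positivity)]
        linarith
      linarith
    have g4 : Real.exp (∑ i ∈ range r', (-((i : ℝ) / (4 * (q + 1))) + 2 / q)) ≤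
        12.2 * Real.exp (-(((r' : ℝ) + 1) ^ 2 / (8 * (q + 1)))) := by
      refine (Real.exp_le_exp.2 g3).trans ?_
      rw [sub_eq_add_neg, Real.exp_add]
      exact mul_le_mul_of_nonneg_right Conv_exp (Real.exp_pos _).le
    have g5 : (0 : ℝ) ≤ ∏ i ∈ range r', (((t : ℝ) - (i + 1)) * ((m : ℝ) - (i + 1))) := by
      refine prod_nonneg fun i hi => ?_
      have hi' : i < r' := mem_range.1 hi
      have hiR : (i : ℝ) + 1 ≤ r' := by exact_mod_cast hi'
      have b5 : (0 : ℝ) ≤ (t : ℝ) - (i + 1) := by rw [htR]; nlinarith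
      have b6 : (0 : ℝ) ≤ (m : ℝ) - (i + 1) := by linarith
      positivity
    have g6 := mul_le_mul_of_nonneg_right g4 g5
    have g7 := g2.trans g6
    have g8 : (0 : ℝ) ≤ ((q : ℝ) + 1 - 0) * ((n : ℝ) - 0) := by
      rw [sub_zero, sub_zero]; positivity
    have g9 : (0 : ℝ) ≤ 12.2 * Real.exp (-(((r' : ℝ) + 1) ^ 2 / (8 * (q + 1)))) *
        ∏ i ∈ range r', (((t : ℝ) - (i + 1)) * ((m : ℝ) - (i + 1))) := by positivity
    have g10 := mul_le_mul g7 g0 g8 g9
    refine g10.trans (le_of_eq ?_)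
    ring
  -- divide by the factorials
  rw [prod_mul_distrib, prod_mul_distrib, ← e1, ← e2, ← e3, ← e4] at key
  have hff : (0 : ℝ) < (r.factorial : ℝ) * (r.factorial : ℝ) := by positivity
  refine le_of_mul_le_mul_right ?_ hff
  calc (((q + 1).choose r : ℕ) : ℝ) * (n.choose r : ℕ) * ((r.factorial : ℝ) * (r.factorial : ℝ))
      = (((q + 1).choose r : ℕ) : ℝ) * (r.factorial : ℝ) * ((n.choose r : ℕ) * (r.factorial : ℝ)) := by ring
    _ ≤ _ := key
    _ = _ := by ring

private theorem Conv_log {n t : ℕ} (ht : 1 ≤ t) (htn : t ≤ n) :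
    Real.log (n.choose t) ≤ t * (1 + Real.log ((n : ℝ) / t)) := by
  have ht0 : (0 : ℝ) < t := by exact_mod_cast ht
  have hn0 : (0 : ℝ) < n := by exact_mod_cast (by omega : 0 < n)
  have hc : (0 : ℝ) < (n.choose t : ℝ) := by exact_mod_cast Nat.choose_pos htn
  have h1 : (n.choose t : ℝ) ≤ (n : ℝ) ^ t / t.factorial := by exact_mod_cast Nat.choose_le_pow_div t n
  have h2 := Real.pow_div_factorial_le_exp (t : ℝ) ht0.le t
  have hf : (0 : ℝ) < (t.factorial : ℝ) := by exact_mod_cast Nat.factorial_pos t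
  have h3 : (n.choose t : ℝ) ≤ ((n : ℝ) / t) ^ t * Real.exp t := by
    refine h1.trans ?_
    calc (n : ℝ) ^ t / t.factorial = ((n : ℝ) / t) ^ t * ((t : ℝ) ^ t / t.factorial) := by
          rw [div_pow]
          field_simp
      _ ≤ ((n : ℝ) / t) ^ t * Real.exp t := by gcongr
  have h4 := Real.log_le_log hc h3
  rw [Real.log_mul (by positivity) (Real.exp_pos _).ne', Real.log_pow, Real.log_exp] at h4
  linarith

/-- Random blocks against the block construction: the smallest shadow is at most `600 s^(5/2) exp (- r² / (8 s))`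
times the shadow of the block construction. -/
theorem f_le_blocks_mul {n r s k : ℕ} (hk : 2 ≤ k) (hr1 : 1 ≤ r) (hrs : r < s)
    (h1 : 2 * (k * (s - 1) + 1) ≤ n) (h2 : Real.log ((n : ℝ) / ((k * (s - 1) + 1 : ℕ) : ℝ)) ≤ s) :
    (f n r s (k * (s - 1) + 1) : ℝ) ≤ 600 * ((s : ℝ) ^ 2 * Real.sqrt s) * Real.exp (-((r : ℝ) ^ 2 / (8 * s))) *
      (((k - n % k) * (n / k).choose r + (n % k) * (n / k + 1).choose r : ℕ) : ℝ) := by
  have hk0 : 0 < k := by omega
  have hs2 : 2 ≤ s := by omega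
  set t := k * (s - 1) + 1 with ht
  have hst : s < t := by
    have : 2 * (s - 1) ≤ k * (s - 1) := Nat.mul_le_mul_right _ hk
    omega
  have htn : t < n := by omega
  have hU := f_upper hrs hst htn
  have hQ := Conv_quot hk hr1 hrs h1
  rw [← ht] at hQ
  have hL := Conv_log (n := n) (t := t) (by omega) htn.le
  have hct : (0 : ℝ) < (t.choose r : ℝ) := by exact_mod_cast Nat.choose_pos (by omega)
  have hsR : (2 : ℝ) ≤ s := by exact_mod_cast hs2
  have hkR : (2 : ℝ) ≤ k := by exact_mod_cast hk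
  have htR : (t : ℝ) ≤ k * s := by
    have : t ≤ k * s := by
      have h3 : k * (s - 1) + k = k * s := by
        rw [← Nat.mul_succ]
        congr 1
        omega
      omega
    exact_mod_cast this
  have hrR : (1 : ℝ) ≤ r := by exact_mod_cast hr1
  set E := Real.exp (-((r : ℝ) ^ 2 / (8 * s))) with hE
  have hE0 : 0 < E := Real.exp_pos _
  set C := ((n / k).choose r : ℝ) with hC
  have hC0 : 0 ≤ C := by rw [hC]; positivity
  have h3 : ((s.choose r : ℝ) * (n.choose r : ℝ) / (t.choose r : ℝ)) ≤ 4 * 12.2 * E * C := by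
    rw [div_le_iff₀ hct]
    calc (s.choose r : ℝ) * (n.choose r : ℝ) ≤ 4 * 12.2 * E * ((t.choose r : ℝ) * C) := hQ
      _ = 4 * 12.2 * E * C * (t.choose r : ℝ) := by ring
  have h4 : Real.sqrt ((s : ℝ) - r + 1) ≤ Real.sqrt s := Real.sqrt_le_sqrt (by linarith)
  have h5 : 1 + Real.log (n.choose t) ≤ k * (7 / 4 * (s : ℝ) ^ 2) := by
    have h6 : Real.log (n.choose t) ≤ t * (1 + s) := by
      refine hL.trans (mul_le_mul_of_nonneg_left ?_ (by positivity))
      linarith
    have h7 : (t : ℝ) * (1 + s) ≤ k * s * (1 + s) := mul_le_mul_of_nonneg_right htR (by linarith)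
    have h8 : (1 : ℝ) + k * s * (1 + s) ≤ k * (7 / 4 * (s : ℝ) ^ 2) := by
      have h9 : (1 : ℝ) ≤ k * (1 / 2) := by linarith
      have h10 : (1 : ℝ) / 2 + s * (1 + s) ≤ 7 / 4 * (s : ℝ) ^ 2 := by nlinarith
      nlinarith
    linarith
  have hB : (k : ℝ) * C ≤ (((k - n % k) * (n / k).choose r + (n % k) * (n / k + 1).choose r : ℕ) : ℝ) := by
    have h11 : k * (n / k).choose r ≤ (k - n % k) * (n / k).choose r + (n % k) * (n / k + 1).choose r := by
      have h12 : (n / k).choose r ≤ (n / k + 1).choose r := Nat.choose_le_choose r (Nat.le_succ _)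
      have h13 : (k - n % k) + n % k = k := Nat.sub_add_cancel (Nat.mod_lt n hk0).le
      calc k * (n / k).choose r = ((k - n % k) + n % k) * (n / k).choose r := by rw [h13]
        _ = (k - n % k) * (n / k).choose r + (n % k) * (n / k).choose r := by ring
        _ ≤ _ := by gcongr
    rw [hC]
    exact_mod_cast h11
  have hsq : 0 ≤ Real.sqrt s := Real.sqrt_nonneg _
  calc (f n r s t : ℝ) ≤ (1 + Real.log (n.choose t)) * (7 * Real.sqrt ((s : ℝ) - r + 1) *
      ((s.choose r : ℝ) * (n.choose r : ℝ) / (t.choose r : ℝ))) := hU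
    _ ≤ (k * (7 / 4 * (s : ℝ) ^ 2)) * (7 * Real.sqrt s * (4 * 12.2 * E * C)) := by
        gcongr
    _ = (7 / 4 * 7 * 4 * 12.2) * ((s : ℝ) ^ 2 * Real.sqrt s) * E * (k * C) := by ring
    _ ≤ 600 * ((s : ℝ) ^ 2 * Real.sqrt s) * E * (k * C) := by
        gcongr
        norm_num
    _ ≤ _ := by gcongr

private theorem Conv_s {r s : ℕ} (hr1 : 1 ≤ r) (hrs : r < s) (hr : 32 * (s : ℝ) * Real.log s ≤ (r : ℝ) ^ 2) :
    128 ≤ s := by
  by_contra hcon
  have hs : s ≤ 127 := by omega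
  have hs0 : (0 : ℝ) < s := by exact_mod_cast (by omega : 0 < s)
  have h1 : (r : ℝ) ^ 2 < (s : ℝ) * s := by
    have : (r : ℝ) < s := by exact_mod_cast hrs
    nlinarith [(by positivity : (0 : ℝ) ≤ r)]
  have h2 : 32 * Real.log s < s := by
    have h3 : (s : ℝ) * (32 * Real.log s) < s * s := by linarith
    exact lt_of_mul_lt_mul_left h3 hs0.le
  have hlog2 := Real.log_two_gt_d9
  set a := Nat.log 2 s with ha
  have h4 : 2 ^ a ≤ s := Nat.pow_log_le_self 2 (by omega)
  have h5 : s < 2 ^ (a + 1) := Nat.lt_pow_succ_log_self (by norm_num) s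
  have h6 : (a : ℝ) * Real.log 2 ≤ Real.log s := by
    rw [← Real.log_pow]
    refine Real.log_le_log (by positivity) ?_
    exact_mod_cast h4
  have h7 : a < 7 := by
    by_contra h8
    have h9 : 2 ^ 7 ≤ 2 ^ a := Nat.pow_le_pow_right (by norm_num) (by omega)
    omega
  have h10 : 1 ≤ a := by
    by_contra h11
    have h12 : a = 0 := by omega
    rw [h12] at h5
    omega
  have h13 : (s : ℝ) ≤ 2 ^ (a + 1) := by exact_mod_cast h5.le
  interval_cases a <;> push_cast at h6 <;> norm_num1 at h13 <;> linarith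

/-- For `r² ≥ 32 s log s` the block construction is far from optimal. -/
theorem not_optimal {n r s k : ℕ} (hk : 2 ≤ k) (hr1 : 1 ≤ r) (hrs : r < s)
    (hr : 32 * (s : ℝ) * Real.log s ≤ (r : ℝ) ^ 2)
    (h1 : 2 * (k * (s - 1) + 1) ≤ n) (h2 : Real.log ((n : ℝ) / ((k * (s - 1) + 1 : ℕ) : ℝ)) ≤ s) :
    2 * f n r s (k * (s - 1) + 1) < (k - n % k) * (n / k).choose r + (n % k) * (n / k + 1).choose r := by
  have hs := Conv_s hr1 hrs hr
  have hk0 : 0 < k := by omega
  have hsR : (128 : ℝ) ≤ s := by exact_mod_cast hs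
  have hs0 : (0 : ℝ) < s := by linarith
  have hF := f_le_blocks_mul hk hr1 hrs h1 h2
  set B := (k - n % k) * (n / k).choose r + (n % k) * (n / k + 1).choose r with hBdef
  have hm : r ≤ n / k := by
    rw [Nat.le_div_iff_mul_le hk0]
    have h3 : r * k ≤ (s - 1) * k := Nat.mul_le_mul_right k (by omega)
    have h4 : (s - 1) * k = k * (s - 1) := Nat.mul_comm _ _
    omega
  have hB : 0 < B := by
    rw [hBdef]
    have h5 : 0 < (n / k).choose r := Nat.choose_pos hm
    have h6 : 0 < k - n % k := Nat.sub_pos_of_lt (Nat.mod_lt n hk0)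
    positivity
  have hBR : (0 : ℝ) < B := by exact_mod_cast hB
  have hE : Real.exp (-((r : ℝ) ^ 2 / (8 * s))) ≤ ((s : ℝ) ^ 4)⁻¹ := by
    have h7 : 4 * Real.log s ≤ (r : ℝ) ^ 2 / (8 * s) := by
      rw [le_div_iff₀ (by positivity)]
      linarith
    calc Real.exp (-((r : ℝ) ^ 2 / (8 * s))) ≤ Real.exp (-(4 * Real.log s)) := Real.exp_le_exp.2 (by linarith)
      _ = ((s : ℝ) ^ 4)⁻¹ := by
        rw [Real.exp_neg]
        congr 1
        have : (4 : ℝ) * Real.log s = ((4 : ℕ) : ℝ) * Real.log s := by norm_num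
        rw [this, Real.exp_nat_mul, Real.exp_log hs0]
  have hsq : Real.sqrt s ≤ s / 11 := by
    rw [Real.sqrt_le_left (by positivity)]
    nlinarith
  have hX : 600 * ((s : ℝ) ^ 2 * Real.sqrt s) * Real.exp (-((r : ℝ) ^ 2 / (8 * s))) < 1 / 2 := by
    calc 600 * ((s : ℝ) ^ 2 * Real.sqrt s) * Real.exp (-((r : ℝ) ^ 2 / (8 * s)))
        ≤ 600 * ((s : ℝ) ^ 2 * (s / 11)) * ((s : ℝ) ^ 4)⁻¹ := by gcongr
      _ = 600 / 11 / (s : ℝ) := by field_simp
      _ < 1 / 2 := by
        rw [div_lt_iff₀ hs0]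
        linarith
  have h8 : (f n r s (k * (s - 1) + 1) : ℝ) < 1 / 2 * B := lt_of_le_of_lt hF (mul_lt_mul_of_pos_right hX hBR)
  have h9 : ((2 * f n r s (k * (s - 1) + 1) : ℕ) : ℝ) < B := by push_cast; linarith
  exact_mod_cast h9

end Pool.Agent.Lib.MP_455133_co
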