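import Mathlib
import Pool.Agent.Lib.MP_455133_co.LR.Main
import Pool.Agent.Lib.MP_455133_co.LS.ChordN

/-!
The lower bound for small `t` and the Turan type theorem, also for `s - 1 ≥ 6 (r - 1)^2`.
-/

namespace Pool.Agent.Lib.MP_455133_co.LS

open Finset Pool.Agent.Lib.MP_455133_co.LR

/-- The lower bound in the range of small `t`. -/
theorem turan_lower2 {n r s t q : ℕ} (hr : 3 ≤ r)
    (hs : (r - 1) * ((r - 1) ^ 2 + 1) ≤ 2 * (s - 1) ∨ 6 * (r - 1) ^ 2 ≤ s - 1) (hst : s ≤ t)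
    (hq : r * (s - 1) ≤ (r - 1) * (q + 1)) :
    n * (s - 1) * q.choose (r - 1) ≤
      (s - 1) * f n r s t + (r - 1) * (t - 1) * (q + 1).choose r := by
  by_cases hs1 : (r - 1) * ((r - 1) ^ 2 + 1) ≤ 2 * (s - 1)
  · exact turan_lower hr hs1 hst hq
  have hs2 : 6 * (r - 1) ^ 2 ≤ s - 1 := by
    rcases hs with h | h
    · exact absurd h hs1
    · exact h
  obtain ⟨p, rfl⟩ : ∃ p, r = p + 3 := ⟨r - 3, by omega⟩
  have hp1 : p + 3 - 1 = p + 2 := by omega
  rw [hp1] at hs1 hs2 hq ⊢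
  have hp : 10 ≤ p := by
    by_contra hlt
    push Not at hlt
    apply hs1
    have h1 : (p + 2) ^ 2 + 1 ≤ 12 * (p + 2) := by
      interval_cases p <;> norm_num
    have h2 : (p + 2) * ((p + 2) ^ 2 + 1) ≤ (p + 2) * (12 * (p + 2)) :=
      Nat.mul_le_mul_left _ h1
    nlinarith
  have hs3 : p + 3 ≤ s - 1 := by nlinarith
  obtain ⟨a, rfl⟩ : ∃ a, s = a + 1 := ⟨s - 1, by omega⟩
  rw [Nat.add_sub_cancel] at *
  have hpa : p + 3 ≤ a := hs3
  have hqa : a ≤ q := by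
    by_contra hlt
    push Not at hlt
    have h2 : (p + 2) * (q + 1) ≤ (p + 2) * a := Nat.mul_le_mul_left _ hlt
    nlinarith
  have ht1 : (((t - 1 : ℕ)) : ℝ) = (t : ℝ) - 1 := by
    push_cast [Nat.cast_sub (show 1 ≤ t by omega)]; ring
  obtain ⟨m, rfl⟩ : ∃ m, q = m + 1 := ⟨q - 1, by omega⟩
  have hc := chordAt2 (p := p) (a := a) (m := m) hp hs2 (by linarith)
  have h1 := lower_of_chord (n := n) (t := t) (by omega) (by omega) hst hc
  have e1 : ((m + 1 + 1).choose (p + 3) : ℝ) =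
      ((m + 1).choose (p + 2) : ℝ) + ((m + 1).choose (p + 3) : ℝ) := by
    have := Nat.choose_succ_succ' (m + 1) (p + 2)
    exact_mod_cast this
  have e2 : ((m + 1 + 1).choose (p + 3) : ℝ) * ((p : ℝ) + 3) =
      ((m : ℝ) + 2) * ((m + 1).choose (p + 2) : ℝ) := by
    have := Nat.add_one_mul_choose_eq (m + 1) (p + 2)
    have h2 : (((m + 1 + 1) * (m + 1).choose (p + 2) : ℕ) : ℝ) =
        (((m + 1 + 1).choose (p + 2 + 1) * (p + 2 + 1) : ℕ) : ℝ) := by rw [this]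
    push_cast at h2
    linarith
  have e3 : ((m + 2).choose (p + 3) : ℝ) = ((m + 1 + 1).choose (p + 3) : ℝ) := rfl
  rw [e3] at h1
  have hgoal : (n : ℝ) * a * ((m + 1).choose (p + 2) : ℝ) ≤
      a * (f n (p + 3) (a + 1) t : ℝ) + ((p : ℝ) + 2) * ((t : ℝ) - 1) *
        ((m + 1 + 1).choose (p + 3) : ℝ) := by
    set X : ℝ := ((m + 1 + 1).choose (p + 3) : ℝ) with hX
    set Y : ℝ := ((m + 1).choose (p + 2) : ℝ) with hY
    set Z : ℝ := ((m + 1).choose (p + 3) : ℝ) with hZ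
    have e4 : Z = X - Y := by linarith
    rw [e4] at h1
    have e5 : (((m : ℝ) + 2) * ((t : ℝ) - 1) - n * a) * (X - Y) +
        (n * a - ((m : ℝ) + 1) * ((t : ℝ) - 1)) * X =
        n * a * Y + ((t : ℝ) - 1) * (X - (((m : ℝ) + 2) * Y)) := by ring
    rw [e5, ← e2] at h1
    linarith
  have h8 : ((n * a * (m + 1).choose (p + 2) : ℕ) : ℝ) ≤
      ((a * f n (p + 3) (a + 1) t + (p + 2) * (t - 1) * (m + 1 + 1).choose (p + 3) : ℕ) : ℝ) := by
    push_cast [ht1]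
    exact hgoal
  exact_mod_cast h8

/-- The Turan type theorem. -/
theorem turan_exact2 {n r s k : ℕ} (hr : 3 ≤ r)
    (hs : (r - 1) * ((r - 1) ^ 2 + 1) ≤ 2 * (s - 1) ∨ 6 * (r - 1) ^ 2 ≤ s - 1) (hk : 1 ≤ k)
    (hn : k * ((s - 2) / (r - 1) + (s - 1)) ≤ n) :
    f n r s (k * (s - 1) + 1) =
      (k - n % k) * (n / k).choose r + (n % k) * (n / k + 1).choose r := by
  by_cases hs1 : (r - 1) * ((r - 1) ^ 2 + 1) ≤ 2 * (s - 1)
  · exact turan_exact hr hs1 hk hn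
  have hs2 : 6 * (r - 1) ^ 2 ≤ s - 1 := by
    rcases hs with h | h
    · exact absurd h hs1
    · exact h
  have hr1 : 0 < r - 1 := by omega
  have hq : (s - 2) / (r - 1) + (s - 1) ≤ n / k := by
    rw [Nat.le_div_iff_mul_le hk, mul_comm]; exact hn
  have hw : s - 2 < ((s - 2) / (r - 1) + 1) * (r - 1) := by
    have := Nat.lt_mul_div_succ (s - 2) hr1
    rw [mul_comm]; exact this
  obtain ⟨p, rfl⟩ : ∃ p, r = p + 3 := ⟨r - 3, by omega⟩
  have hp1 : p + 3 - 1 = p + 2 := by omega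
  rw [hp1] at hs1 hs2 hq hw
  have hp : 10 ≤ p := by
    by_contra hlt
    push Not at hlt
    apply hs1
    have h1 : (p + 2) ^ 2 + 1 ≤ 12 * (p + 2) := by
      interval_cases p <;> norm_num
    have h2 : (p + 2) * ((p + 2) ^ 2 + 1) ≤ (p + 2) * (12 * (p + 2)) :=
      Nat.mul_le_mul_left _ h1
    nlinarith
  have hs3 : p + 3 ≤ s - 1 := by nlinarith
  have hqq : (p + 3) * (s - 1) ≤ (p + 2) * (n / k + 1) := by
    have h1 : (p + 2) * ((s - 2) / (p + 2) + (s - 1) + 1) ≤ (p + 2) * (n / k + 1) :=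
      Nat.mul_le_mul_left _ (by omega)
    have h2 : (p + 2) * ((s - 2) / (p + 2) + (s - 1) + 1) =
        ((s - 2) / (p + 2) + 1) * (p + 2) + (p + 2) * (s - 1) := by ring
    have h3 : (p + 3) * (s - 1) = (s - 1) + (p + 2) * (s - 1) := by ring
    omega
  obtain ⟨a, rfl⟩ : ∃ a, s = a + 1 := ⟨s - 1, by omega⟩
  rw [Nat.add_sub_cancel] at *
  have hqa : a ≤ n / k := le_trans (Nat.le_add_left _ _) hq
  generalize hN : n / k = N at *
  obtain ⟨m, hm⟩ : ∃ m, N = m + 1 := ⟨N - 1, by omega⟩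
  rw [← hN]
  refine exact_of_chord (by omega) hk (by rw [hN]; omega) ?_
  rw [hN]
  rw [hm, Nat.add_sub_cancel]
  rw [hm] at hqq
  exact chordAt2 hp hs2 (by linarith)

end Pool.Agent.Lib.MP_455133_co.LS
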