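import Mathlib
import Pool.Agent.Lib.MP_455133_co.Defs
import Pool.Agent.Lib.MP_455133_co.Blocks
import Pool.Agent.Lib.MP_455133_co.LS.Main2

/-!
The case of large `t`: if `(r - 1) (n - t + 1) ≤ s - 1`, then one block is optimal.
-/

namespace Pool.Agent.Lib.MP_455133_co.LS

open Finset Pool.Agent.Lib.MP_455133_co.LR

/-- a set of covered points without members of the family -/
theorem free_le {n s t : ℕ} (htn : t ≤ n) {𝒜 : Finset (Finset (Fin n))}
    (h : IsCovering s t 𝒜) {I : Finset (Fin n)} (hI : I ⊆ su 𝒜)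
    (hI2 : ∀ A ∈ 𝒜, ¬ A ⊆ I) : I.card + (n - t + 1) ≤ (su 𝒜).card := by
  by_contra hlt
  push Not at hlt
  have h1 : (univ \ su 𝒜).card = n - (su 𝒜).card := by
    rw [card_sdiff_of_subset (subset_univ _)]; simp
  have h2 : Disjoint I (univ \ su 𝒜) := by
    rw [disjoint_left]
    intro x hx hx2
    exact (mem_sdiff.mp hx2).2 (hI hx)
  have h3 : (su 𝒜).card ≤ n := by
    have := card_le_card (subset_univ (su 𝒜))
    simpa using this
  have h4 : t ≤ (I ∪ (univ \ su 𝒜)).card := by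
    rw [card_union_of_disjoint h2, h1]
    omega
  obtain ⟨C, hC, hCt⟩ := exists_subset_card_eq h4
  obtain ⟨A, hA, hAC⟩ := h.2 C hCt
  apply hI2 A hA
  intro x hx
  have h5 := hC (hAC hx)
  rw [mem_union] at h5
  rcases h5 with h5 | h5
  · exact h5
  · exact absurd (mem_su.mpr ⟨A, hA, hx⟩) (mem_sdiff.mp h5).2

theorem line_zero_eq {p a m : ℕ} (hpm : p + 1 ≤ m) :
    (a : ℝ) / (m + 1) + (a : ℝ) / (((m : ℝ) + 1) * (m + 2) * (m.choose (p + 1) : ℝ)) *
      (m.choose (p + 2) : ℝ) = (a : ℝ) * (p + 3) / ((p + 2) * (m + 2)) := by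
  have hc : (0 : ℝ) < (m.choose (p + 1) : ℝ) := by exact_mod_cast Nat.choose_pos hpm
  have h1 := Nat.choose_succ_right_eq m (p + 1)
  have h2 : (m.choose (p + 2) : ℝ) * ((p : ℝ) + 2) = (m.choose (p + 1) : ℝ) *
      ((m : ℝ) - (p + 1)) := by
    have : ((m.choose (p + 1 + 1) * (p + 1 + 1) : ℕ) : ℝ) =
        ((m.choose (p + 1) * (m - (p + 1)) : ℕ) : ℝ) := by rw [h1]
    push_cast [Nat.cast_sub hpm] at this
    linarith
  have hp : (0 : ℝ) < (p : ℝ) + 2 := by positivity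
  have h3 : (m.choose (p + 2) : ℝ) = (m.choose (p + 1) : ℝ) * ((m : ℝ) - (p + 1)) / (p + 2) := by
    rw [eq_div_iff hp.ne', h2]
  have hm1 : (0 : ℝ) < (m : ℝ) + 1 := by positivity
  have hm2 : (0 : ℝ) < (m : ℝ) + 2 := by positivity
  rw [h3]
  field_simp
  ring

/-- the lower bound by one block -/
theorem small_lower {n p a t c m : ℕ} (ha : p + 3 ≤ a) (hc : (p + 2) * c ≤ a)
    (hst : a + 1 ≤ t) (htn : t ≤ n) (hct : c = n - t + 1) (hm : m + 2 = a + c)
    (hK : ChordK p a m) : (a + c).choose (p + 3) ≤ f n (p + 3) (a + 1) t := by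
  obtain ⟨𝒜, h𝒜, hf⟩ := f_spec (n := n) (r := p + 3) hst
  set B := lowerShadow (p + 3) 𝒜 with hB
  set U := su 𝒜 with hU
  have hBc : ∀ e ∈ B, e.card = p + 3 := shadow_card
  obtain ⟨I, hI1, hI2, hI3⟩ := exists_free (j := p + 2) (a := a) (by omega) B U.card U rfl
  -- the free set is small
  have hIc : I.card + c ≤ U.card := by
    rw [hct]
    apply free_le htn h𝒜 hI1
    intro A hA hAI
    exact hI2 A hAI (h𝒜.1 A hA) (shadow_isK hA)
  -- there are many covered points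
  have hUc : a + c ≤ U.card := by
    obtain ⟨C, -, hCt⟩ := exists_subset_card_eq (s := (univ : Finset (Fin n))) (n := t)
      (by simpa using htn)
    obtain ⟨A, hA, -⟩ := h𝒜.2 C hCt
    have hAc := h𝒜.1 A hA
    obtain ⟨J, hJ, hJc⟩ := exists_subset_card_eq (s := A) (n := a) (by omega)
    have h1 := free_le htn h𝒜 (I := J)
      (fun x hx => mem_su.mpr ⟨A, hA, hJ hx⟩) (by
        intro A' hA' hsub
        have := card_le_card hsub
        rw [h𝒜.1 A' hA', hJc] at this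
        omega)
    rw [hJc, ← hct] at h1
    exact h1
  -- the links
  have hlk : ∀ v ∈ U, (a : ℝ) / (m + 1) - (a : ℝ) /
      (((m : ℝ) + 1) * (m + 2) * (m.choose (p + 1) : ℝ)) *
        (((lk B v).card : ℝ) - (m.choose (p + 2) : ℝ)) ≤
      RR (p + 2) a (lk B v) (U.card - 1) (U.erase v) := by
    intro v hv
    have h2 : ∀ e ∈ lk B v, e.card = p + 2 := by
      intro S hS
      obtain ⟨h3, h4⟩ := mem_lk.mp hS
      have h5 := hBc _ h4
      rw [card_insert_of_notMem h3] at h5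
      omega
    have h3 : su (lk B v) ⊆ U.erase v := by
      intro x hx
      obtain ⟨e, he, hxe⟩ := mem_su.mp hx
      obtain ⟨h4, h5⟩ := mem_lk.mp he
      rw [hB, lowerShadow, mem_filter] at h5
      obtain ⟨-, A, hA, hsub⟩ := h5
      rw [mem_erase]
      exact ⟨fun h => h4 (h ▸ hxe), mem_su.mpr ⟨A, hA, hsub (mem_insert_of_mem hxe)⟩⟩
    have h4 : HasK (p + 2) a (lk B v) (U.erase v) := by
      obtain ⟨A, hA, hvA⟩ := mem_su.mp hv
      refine ⟨A.erase v, ?_, by rw [card_erase_of_mem hvA, h𝒜.1 A hA]; rfl, ?_⟩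
      · exact erase_subset_erase v fun x hx => mem_su.mpr ⟨A, hA, hx⟩
      · intro R hR hRc
        rw [mem_lk]
        have hvR : v ∉ R := fun h => absurd (hR h) (notMem_erase _ _)
        refine ⟨hvR, shadow_isK hA _ (insert_subset hvA (hR.trans (erase_subset _ _))) ?_⟩
        rw [card_insert_of_notMem hvR, hRc]
    have h5 := hK n (lk B v) h2 _ h3 h4
    rw [card_erase_of_mem hv] at h5
    exact h5
  have hpm : p + 1 ≤ m := by
    have hc1 : 1 ≤ c := by omega
    omega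
  have hc1 : (0 : ℝ) < (m.choose (p + 1) : ℝ) := by exact_mod_cast Nat.choose_pos hpm
  have hapos : (0 : ℝ) < a := by
    have : 0 < a := by omega
    exact_mod_cast this
  set c1 : ℝ := (m.choose (p + 1) : ℝ) with hc1d
  set c2 : ℝ := (m.choose (p + 2) : ℝ) with hc2d
  set β : ℝ := (a : ℝ) / (((m : ℝ) + 1) * (m + 2) * c1) with hβ
  have hβ0 : 0 < β := by rw [hβ]; positivity
  have h1 := (sum_le_sum hlk).trans hI3
  have h2 : ∑ v ∈ U, ((lk B v).card : ℝ) ≤ ((p : ℝ) + 3) * (B.card : ℝ) := by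
    have h3 : ∑ v ∈ U, (lk B v).card ≤ ∑ v : Fin n, (lk B v).card :=
      sum_le_sum_of_subset (subset_univ _)
    rw [sum_card_lk hBc] at h3
    exact_mod_cast h3
  rw [sum_sub_distrib, ← mul_sum, sum_sub_distrib, sum_const, sum_const, nsmul_eq_mul,
    nsmul_eq_mul] at h1
  have hIR : (I.card : ℝ) + c ≤ U.card := by exact_mod_cast hIc
  have hUR : (m : ℝ) + 2 ≤ U.card := by
    have : m + 2 ≤ U.card := by omega
    exact_mod_cast this
  have hmR : (m : ℝ) + 2 = a + c := by exact_mod_cast hm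
  set N : ℝ := (U.card : ℝ) with hN
  have h3 := mul_le_mul_of_nonneg_left h2 hβ0.le
  have h4 := line_zero_eq (p := p) (a := a) hpm
  rw [← hc1d, ← hc2d, ← hβ] at h4
  have h5 : 1 ≤ (a : ℝ) / (m + 1) + β * c2 := by
    rw [h4, le_div_iff₀ (by positivity), one_mul, hmR]
    have : ((p : ℝ) + 2) * c ≤ a := by exact_mod_cast hc
    nlinarith
  -- the bound for the number of edges
  have h6 : (c : ℝ) + (m + 2) * ((a : ℝ) / (m + 1) + β * c2 - 1) ≤
      β * (((p : ℝ) + 3) * (B.card : ℝ)) := by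
    have h7 : ((m : ℝ) + 2) * ((a : ℝ) / (m + 1) + β * c2 - 1) ≤
        N * ((a : ℝ) / (m + 1) + β * c2 - 1) :=
      mul_le_mul_of_nonneg_right hUR (by linarith)
    have h8 : N * ((a : ℝ) / (m + 1)) - β * (∑ v ∈ U, ((lk B v).card : ℝ) - N * c2) =
        N * ((a : ℝ) / (m + 1) + β * c2) - β * ∑ v ∈ U, ((lk B v).card : ℝ) := by ring
    rw [h8] at h1
    linarith
  have h7 : (c : ℝ) + (m + 2) * ((a : ℝ) / (m + 1) + β * c2 - 1) =
      β * ((m + 2) * (c1 + c2)) := by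
    have h8 : β * ((m + 2) * c1) = (a : ℝ) / (m + 1) := by
      rw [hβ]
      field_simp
    have h9 : ((m : ℝ) + 2) * ((a : ℝ) / (m + 1)) = a + (a : ℝ) / (m + 1) := by
      field_simp
      ring
    have h10 : β * ((m + 2) * (c1 + c2)) = β * ((m + 2) * c1) + (m + 2) * (β * c2) := by ring
    rw [h10, h8]
    linarith
  rw [h7] at h6
  have h8 := le_of_mul_le_mul_left h6 hβ0
  have e2 : ((p : ℝ) + 3) * ((m + 2).choose (p + 3) : ℝ) = ((m : ℝ) + 2) * (c1 + c2) := by
    have := Nat.add_one_mul_choose_eq (m + 1) (p + 2)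
    have h2 : (((m + 1 + 1) * (m + 1).choose (p + 2) : ℕ) : ℝ) =
        (((m + 1 + 1).choose (p + 2 + 1) * (p + 2 + 1) : ℕ) : ℝ) := by rw [this]
    have h3 : (m + 1).choose (p + 2) = m.choose (p + 1) + m.choose (p + 2) :=
      Nat.choose_succ_succ' m (p + 1)
    rw [h3] at h2
    push_cast at h2
    rw [hc1d, hc2d]
    linarith
  rw [← e2] at h8
  have h9 := le_of_mul_le_mul_left h8 (show (0 : ℝ) < (p : ℝ) + 3 by positivity)
  rw [hf, ← hm]
  exact_mod_cast h9

theorem one_block_upper {n r s t : ℕ} (hs : 1 ≤ s) (hst : s ≤ t) (htn : t ≤ n) :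
    f n r s t ≤ (n - t + s).choose r := by
  have h := f_le_blocks (n := n) (r := r) (s := s) (t := t) (l := 1) (fun _ => n - t + s)
    (by simp; omega) (by simp; omega) hs
  simpa using h

/-- One block is optimal. -/
theorem small_exact {n r s t : ℕ} (hr : 3 ≤ r)
    (hs : (r - 1) * ((r - 1) ^ 2 + 1) ≤ 2 * (s - 1) ∨ 6 * (r - 1) ^ 2 ≤ s - 1)
    (h6 : (r - 1) * r ≤ s - 1)
    (hst : s ≤ t) (htn : t ≤ n) (hc : (r - 1) * (n - t + 1) ≤ s - 1) :
    f n r s t = (n - t + s).choose r := by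
  obtain ⟨p, rfl⟩ : ∃ p, r = p + 3 := ⟨r - 3, by omega⟩
  have hp1 : p + 3 - 1 = p + 2 := by omega
  rw [hp1] at hs hc h6
  have hs0 : 1 ≤ s - 1 := le_trans (Nat.mul_pos (by omega) (by omega)) hc
  obtain ⟨a, rfl⟩ : ∃ a, s = a + 1 := ⟨s - 1, by omega⟩
  rw [Nat.add_sub_cancel] at *
  apply le_antisymm (one_block_upper (by omega) hst htn)
  obtain ⟨c, hcd⟩ : ∃ c, c = n - t + 1 := ⟨_, rfl⟩
  rw [← hcd] at hc
  have hab : n - t + (a + 1) = a + c := by omega
  rw [hab]
  have hpa : p + 3 ≤ a := by nlinarith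
  obtain ⟨m, hm⟩ : ∃ m, m + 2 = a + c := ⟨a + c - 2, by omega⟩
  have ham : a ≤ m + 1 := by omega
  refine small_lower hpa hc hst htn hcd hm ?_
  by_cases h1 : (p + 2) * ((p + 2) ^ 2 + 1) ≤ 2 * a
  · exact chordK h1 h6 ham
  · have h2 : 6 * (p + 2) ^ 2 ≤ a := by
      rcases hs with h | h
      · exact absurd h h1
      · exact h
    have hp : 10 ≤ p := by
      by_contra hlt
      push Not at hlt
      apply h1
      have h3 : (p + 2) ^ 2 + 1 ≤ 12 * (p + 2) := by
        interval_cases p <;> norm_num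
      have h4 : (p + 2) * ((p + 2) ^ 2 + 1) ≤ (p + 2) * (12 * (p + 2)) :=
        Nat.mul_le_mul_left _ h3
      nlinarith
    exact chordK2 hp h2 ham

end Pool.Agent.Lib.MP_455133_co.LS
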